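import Pool.Agent.Lib.H56V.P1
import Pool.Agent.Lib.H96H.M

/-! # H56V, chunk P2: the trace argument for two carriers; P3: ac_theta -/

set_option autoImplicit false

namespace H56V

open Finset H98P H63F

variable {E C : Type*} [Fintype E] [DecidableEq E] [Fintype C] [DecidableEq C]

private theorem p2_compact {A : Type*} [Fintype A] (s : Finset A) : IsCompact (Sx s) := by
  have h1 : IsClosed (Sx s) := by
    have e : Sx s = (⋂ a, {x : A → ℝ | 0 ≤ x a}) ∩ ((⋂ a, ⋂ (_ : a ∉ s), {x : A → ℝ | x a = 0}) ∩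
        {x : A → ℝ | ∑ a, x a = 1}) := by
      ext x
      simp only [Sx, Set.mem_inter_iff, Set.mem_iInter, Set.mem_setOf_eq]
    rw [e]
    refine IsClosed.inter (isClosed_iInter fun a => ?_) (IsClosed.inter (isClosed_iInter fun a =>
      isClosed_iInter fun _ => ?_) ?_)
    · exact isClosed_le continuous_const (continuous_apply a)
    · exact isClosed_eq (continuous_apply a) continuous_const
    · exact isClosed_eq (continuous_finset_sum _ fun a _ => continuous_apply a) continuous_const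
  refine IsCompact.of_isClosed_subset (isCompact_univ_pi fun _ : A => isCompact_Icc (a := (0 : ℝ)) (b := 1)) h1 ?_
  rintro x ⟨h2, -, h3⟩ a -
  refine ⟨h2 a, ?_⟩
  rw [← h3]
  exact Finset.single_le_sum (f := x) (fun b _ => h2 b) (Finset.mem_univ a)

private theorem p2_convex {A : Type*} [Fintype A] (s : Finset A) : Convex ℝ (Sx s) := by
  rintro x ⟨h1, h2, h3⟩ y ⟨g1, g2, g3⟩ a b ha hb hab
  refine ⟨fun e => ?_, fun e he => ?_, ?_⟩
  · have := mul_nonneg ha (h1 e)
    have := mul_nonneg hb (g1 e)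
    simp only [Pi.add_apply, Pi.smul_apply, smul_eq_mul]
    linarith
  · simp only [Pi.add_apply, Pi.smul_apply, smul_eq_mul, h2 e he, g2 e he, mul_zero, add_zero]
  · simp only [Pi.add_apply, Pi.smul_apply, smul_eq_mul, Finset.sum_add_distrib, ← Finset.mul_sum, h3, g3]
    linarith

private theorem p2_mono {A : Type*} [Fintype A] {s t : Finset A} (h : s ⊆ t) : Sx s ⊆ Sx t := by
  rintro x ⟨h1, h2, h3⟩
  exact ⟨h1, fun e he => h2 e fun he' => he (h he'), h3⟩

private theorem p2_ne {A : Type*} [Fintype A] [DecidableEq A] {s : Finset A} (h : s.Nonempty) :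
    (Sx s).Nonempty := by
  obtain ⟨a, ha⟩ := h
  refine ⟨Pi.single a 1, ?_, ?_, ?_⟩
  · intro e
    by_cases he : e = a
    · subst he
      rw [Pi.single_eq_same]
      exact zero_le_one
    · rw [Pi.single_eq_of_ne he]
  · intro e he
    exact Pi.single_eq_of_ne (fun h => he (by rw [h]; exact ha)) _
  · rw [Finset.sum_pi_single']
    simp

private theorem p2_pay (p : E → C → ℝ) (q : C → ℝ) (x y : E → ℝ) (a b : ℝ) (hab : a + b = 1) (S : C) :
    pay p q (a • x + b • y) S = a * pay p q x S + b * pay p q y S := by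
  have h1 : ∑ e, (a • x + b • y) e * p e S = a * ∑ e, x e * p e S + b * ∑ e, y e * p e S := by
    rw [Finset.mul_sum, Finset.mul_sum, ← Finset.sum_add_distrib]
    refine Finset.sum_congr rfl fun e _ => ?_
    simp only [Pi.add_apply, Pi.smul_apply, smul_eq_mul]
    ring
  rw [pay, h1, pay, pay]
  have h2 : q S = a * q S + b * q S := by rw [← add_mul, hab, one_mul]
  linarith

private theorem p2_ac_theta (p : E → C → ℝ) (q : C → ℝ) (L : Finset C → Prop) (hL : Dn L) (hL0 : L ∅)
    {G : Finset E} (hG : G.Nonempty) (ha : ∀ x ∈ Sx G, AC fun T : Finset C => L T ∧ Amin p q x T) :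
    AC fun T : Finset C => L T ∧ ∃ x ∈ Sx G, Amin p q x T := by
  have key := ac_conv (E := C) (ι := E) (fun T => {x : E → ℝ | x ∈ Sx G ∧ L T ∧ Amin p q x T})
    (by
      intro T
      by_cases hT : L T
      · have e : {x : E → ℝ | x ∈ Sx G ∧ L T ∧ Amin p q x T} =
            Sx G ∩ ⋂ S ∈ T, ⋂ S', {x : E → ℝ | pay p q x S ≤ pay p q x S'} := by
          ext x
          simp only [Set.mem_setOf_eq, Set.mem_inter_iff, Set.mem_iInter, hT, true_and, Amin]
        rw [e]
        refine (p2_compact G).inter_right (isClosed_iInter fun S => isClosed_iInter fun _ =>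
          isClosed_iInter fun S' => ?_)
        have hc : ∀ S : C, Continuous fun x : E → ℝ => pay p q x S := by
          intro S
          unfold pay
          exact (continuous_finset_sum _ fun e _ => (continuous_apply e).mul continuous_const).add
            continuous_const
        exact isClosed_le (hc S) (hc S')
      · have e : {x : E → ℝ | x ∈ Sx G ∧ L T ∧ Amin p q x T} = ∅ := by
          ext x
          simp [hT]
        rw [e]
        exact isCompact_empty)
    (by
      rintro T x ⟨h1, h2, h3⟩ y ⟨g1, _, g3⟩ a b ha0 hb0 hab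
      refine ⟨p2_convex G h1 g1 ha0 hb0 hab, h2, fun S hS S' => ?_⟩
      rw [p2_pay p q x y a b hab, p2_pay p q x y a b hab]
      exact add_le_add (mul_le_mul_of_nonneg_left (h3 S hS S') ha0)
        (mul_le_mul_of_nonneg_left (g3 S hS S') hb0))
    (by
      rintro s t hst x ⟨h1, h2, h3⟩
      exact ⟨h1, hL s t hst h2, fun S hS => h3 S (hst hS)⟩)
    (by
      obtain ⟨x, hx⟩ := p2_ne hG
      exact ⟨x, hx, hL0, fun S hS => absurd hS (Finset.notMem_empty S)⟩)
    (by
      rintro x ⟨hx, -, -⟩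
      have e : (fun T : Finset C => x ∈ {x : E → ℝ | x ∈ Sx G ∧ L T ∧ Amin p q x T}) =
          fun T : Finset C => L T ∧ Amin p q x T := by
        funext T
        simp only [Set.mem_setOf_eq, hx, true_and]
      rw [e]
      exact ha x hx)
  have e : (fun T : Finset C => ({x : E → ℝ | x ∈ Sx G ∧ L T ∧ Amin p q x T}).Nonempty) =
      fun T : Finset C => L T ∧ ∃ x ∈ Sx G, Amin p q x T := by
    funext T
    apply propext
    constructor
    · rintro ⟨x, h1, h2, h3⟩
      exact ⟨h2, x, h1, h3⟩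
    · rintro ⟨h2, x, h1, h3⟩
      exact ⟨x, h1, h2, h3⟩
  rw [← e]
  exact key

/-- PROOF: copy `H96H.minimaxK` (`H96H/M.lean`): `ρ` as there, `θ` from `carriersHC` with `Γ = Om`, `ψ` from
`H63F.carriers` with `Γ = Xi`; at the end `f s s ≠ 0` gives `R = s` and `T` with `Om s T`, `Xi T s`, `T ≠ ∅`. -/
theorem trace_pair [Nonempty E] (K : Finset E → Prop) (L : Finset C → Prop)
    (hK : Dn K) (hL : Dn L) (hK0 : K ∅) (hAK : AC K) (Om : Finset E → Finset C → Prop) (Xi : Finset C → Finset E → Prop)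
    (hOL : ∀ G T, K G → G.Nonempty → Om G T → L T)
    (hOm : ∀ G G', G ⊆ G' → K G' → G.Nonempty → ∀ T, Om G T → Om G' T)
    (hO0 : ∀ G, K G → G.Nonempty → Om G ∅)
    (hO : ∀ G, K G → G.Nonempty → HC (Om G) (G.card - 1))
    (hXK : ∀ T G, L T → T.Nonempty → Xi T G → K G)
    (hXm : ∀ T T', T ⊆ T' → L T' → T.Nonempty → ∀ G, Xi T G → Xi T' G)
    (hX0 : ∀ T, L T → T.Nonempty → Xi T ∅)
    (hX : ∀ T, L T → T.Nonempty → AC (Xi T)) :
    ∃ (G : Finset E) (T : Finset C), G.Nonempty ∧ K G ∧ T.Nonempty ∧ Om G T ∧ Xi T G := by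
  obtain ⟨ρ, ρ0, ρ1, ρ2⟩ := carriers (A := E) (B := E) (fun _ => True) (fun _ _ _ _ => trivial)
    (fun s r => K r ∧ (K s → r ⊆ s))
    (fun s t hst _ _ r hr => ⟨hr.1, fun ht => (hr.2 (hK s t hst ht)).trans hst⟩)
    (fun s _ _ => ⟨hK0, fun _ => Finset.empty_subset s⟩)
    (fun s _ hs => by
      by_cases h : K s
      · have e : (fun r : Finset E => K r ∧ (K s → r ⊆ s)) = fun r => r ⊆ s := by
          funext r
          exact propext ⟨fun hr => hr.2 h, fun hr => ⟨hK r s hr h, fun _ => hr⟩⟩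
        rw [e]
        exact ac_simplex hs
      · have e : (fun r : Finset E => K r ∧ (K s → r ⊆ s)) = K := by
          funext r
          exact propext ⟨fun hr => hr.1, fun hr => ⟨hr, fun hs' => absurd hs' h⟩⟩
        rw [e]
        exact hAK)
  obtain ⟨θ, θ0, θ1, θ2⟩ := carriersHC (A := E) (B := C) K hK Om hOm hO0 hO
  obtain ⟨ψ, ψ0, ψ1, ψ2⟩ := carriers (A := C) (B := E) L hL Xi hXm hX0 hX
  have hne : ∀ s : Finset E, K s → s.Nonempty → ∀ T : Finset C, θ s T ≠ 0 → L T ∧ T.Nonempty := by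
    intro s hKs hs T hT
    obtain ⟨h1, h2⟩ := θ1 s hKs hs T hT
    exact ⟨hOL s T hKs hs h1, Finset.card_pos.mp (by rw [h2]; exact Finset.card_pos.mpr hs)⟩
  have hneR : ∀ s : Finset E, s.Nonempty → ∀ R : Finset E, ρ s R ≠ 0 → K R ∧ R.Nonempty := by
    intro s hs R hR
    obtain ⟨h1, h2⟩ := ρ1 s trivial hs R hR
    exact ⟨h1.1, Finset.card_pos.mp (by rw [h2]; exact Finset.card_pos.mpr hs)⟩
  -- the composite of the second and the third chain map
  have hg0 : ∀ r : Finset E, ∑ T, θ ∅ T * ψ T r = if r = ∅ then 1 else 0 := by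
    intro r
    rw [Finset.sum_eq_single ∅]
    · rw [θ0, if_pos rfl, one_mul, ψ0]
    · intro T _ hT
      rw [θ0, if_neg hT, zero_mul]
    · intro h
      exact absurd (mem_univ _) h
  have hg : ∀ s : Finset E, K s → s.Nonempty → ∀ r : Finset E,
      bd (fun H => ∑ T, θ s T * ψ T H) r = ∑ a ∈ s, ∑ T, θ (s.erase a) T * ψ T r := by
    intro s hKs hs r
    have e1 : bd (fun H => ∑ T, θ s T * ψ T H) r = ∑ T, θ s T * bd (ψ T) r := by
      rw [bd_sum]
      refine Finset.sum_congr rfl fun T _ => ?_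
      simp only [bd, Finset.mul_sum]
    have e2 : ∑ T, θ s T * bd (ψ T) r = ∑ T, θ s T * ∑ a ∈ T, ψ (T.erase a) r := by
      refine Finset.sum_congr rfl fun T _ => ?_
      by_cases hT : θ s T = 0
      · rw [hT, zero_mul, zero_mul]
      · obtain ⟨h1, h2⟩ := hne s hKs hs T hT
        rw [ψ2 T h1 h2 r]
    have e3 := pairing (fun T => ψ T r) (θ s)
    rw [e1, e2, ← e3]
    have e4 : ∀ T : Finset C, ψ T r * bd (θ s) T = ∑ a ∈ s, θ (s.erase a) T * ψ T r := by
      intro T
      rw [θ2 s hKs hs T, Finset.mul_sum]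
      exact Finset.sum_congr rfl fun a _ => mul_comm _ _
    rw [Finset.sum_congr rfl fun T _ => e4 T, Finset.sum_comm]
  obtain ⟨s, hs, hss⟩ := exists_diag (E := E) (fun G H => ∑ R, ρ G R * ∑ T, θ R T * ψ T H) (by
      intro r
      rw [Finset.sum_eq_single ∅]
      · rw [ρ0, if_pos rfl, one_mul, hg0]
      · intro R _ hR
        rw [ρ0, if_neg hR, zero_mul]
      · intro h
        exact absurd (mem_univ _) h) (by
      intro s hs r
      have e1 : bd (fun H => ∑ R, ρ s R * ∑ T, θ R T * ψ T H) r =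
          ∑ R, ρ s R * bd (fun H => ∑ T, θ R T * ψ T H) r := by
        rw [bd_sum]
        refine Finset.sum_congr rfl fun R _ => ?_
        simp only [bd, Finset.mul_sum]
      have e2 : ∑ R, ρ s R * bd (fun H => ∑ T, θ R T * ψ T H) r =
          ∑ R, ρ s R * ∑ a ∈ R, ∑ T, θ (R.erase a) T * ψ T r := by
        refine Finset.sum_congr rfl fun R _ => ?_
        by_cases hR : ρ s R = 0
        · rw [hR, zero_mul, zero_mul]
        · obtain ⟨h1, h2⟩ := hneR s hs R hR
          rw [hg R h1 h2 r]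
      have e3 := pairing (fun R => ∑ T, θ R T * ψ T r) (ρ s)
      rw [e1, e2, ← e3]
      have e4 : ∀ R : Finset E, (∑ T, θ R T * ψ T r) * bd (ρ s) R =
          ∑ a ∈ s, ρ (s.erase a) R * ∑ T, θ R T * ψ T r := by
        intro R
        rw [ρ2 s trivial hs R, Finset.mul_sum]
        exact Finset.sum_congr rfl fun a _ => mul_comm _ _
      rw [Finset.sum_congr rfl fun R _ => e4 R, Finset.sum_comm])
  obtain ⟨R, _, hR⟩ := Finset.exists_ne_zero_of_sum_ne_zero hss
  have hR1 : ρ s R ≠ 0 := left_ne_zero_of_mul hR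
  obtain ⟨T, _, hT⟩ := Finset.exists_ne_zero_of_sum_ne_zero (right_ne_zero_of_mul hR)
  have hT1 : θ R T ≠ 0 := left_ne_zero_of_mul hT
  have hT2 : ψ T s ≠ 0 := right_ne_zero_of_mul hT
  obtain ⟨hKR, hRn⟩ := hneR s hs R hR1
  obtain ⟨hLT, hTn⟩ := hne R hKR hRn T hT1
  obtain ⟨⟨_, hRs⟩, hcard⟩ := ρ1 s trivial hs R hR1
  have hOm1 := (θ1 R hKR hRn T hT1).1
  have hXi1 := (ψ1 T hLT hTn s hT2).1
  have hKs := hXK T s hLT hTn hXi1
  have hRs' : R = s := Finset.eq_of_subset_of_card_le (hRs hKs) hcard.ge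
  rw [hRs'] at hOm1
  exact ⟨s, T, hs, hKs, hTn, hOm1, hXi1⟩

/-- PROOF: this is `m_ac_theta` of `H96H/M.lean` (private there): copy it with its private helpers. -/
theorem ac_thetaP (p : E → C → ℝ) (q : C → ℝ) (L : Finset C → Prop) (hL : Dn L) (hL0 : L ∅)
    {G : Finset E} (hG : G.Nonempty) (ha : ∀ x ∈ Sx G, AC fun T : Finset C => L T ∧ Amin p q x T) :
    AC fun T : Finset C => L T ∧ ∃ x ∈ Sx G, Amin p q x T :=
  p2_ac_theta p q L hL hL0 hG ha

end H56V
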