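import Pool.Agent.Lib.H96H.T1
import Pool.Agent.Lib.H98P.B0

/-!
# H56V, file D: definitions for Theorem H+ (exactly `2n - 3` edges), see PROOF.md
-/

set_option autoImplicit false

namespace H56V

open Finset H98P H98Z H98M H63F H96H

/-- Cycles supported on members of cardinality `k` bound. -/
def HC {B : Type*} [Fintype B] [DecidableEq B] (K : Finset B → Prop) (k : ℕ) : Prop :=
  ∀ z : Finset B → ZMod 2, (∀ s, z s ≠ 0 → K s ∧ s.card = k) → (∀ r, bd z r = 0) →
    ∃ c : Finset B → ZMod 2, (∀ s, c s ≠ 0 → K s ∧ s.card = k + 1) ∧ ∀ r, bd c r = z r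

/-- The strategies: the vertices `v+` and the nontrivial cuts `S` with `r ∉ S`. -/
abbrev Sp (V : Type*) [Fintype V] [DecidableEq V] (r : V) : Type _ := V ⊕ {S : NCut V // r ∉ S.1}

/-- They are strategies of `H96H`. -/
def io {V : Type*} [Fintype V] [DecidableEq V] {r : V} : Sp V r → St V
  | .inl v => .inl (v, true)
  | .inr S => .inr S.1

/-- The payoff matrix. -/
noncomputable def pq {V : Type*} [Fintype V] [DecidableEq V] (r : V) (e : Sym2 V) (s : Sp V r) : ℝ := pp e (io s)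

/-- The families: the cuts do not cross, not all vertices. -/
def LP {V : Type*} [Fintype V] [DecidableEq V] (r : V) (T : Finset (Sp V r)) : Prop :=
  (∀ S S' : {S : NCut V // r ∉ S.1}, (Sum.inr S : Sp V r) ∈ T → (Sum.inr S' : Sp V r) ∈ T → NonX S.1.1 S'.1.1) ∧
  ∃ v : V, (Sum.inl v : Sp V r) ∉ T

/-- `G` has an edge inside `S` and an edge inside the complement of `S`. -/
def NS {V : Type*} (G : Finset (Sym2 V)) (S : Finset V) : Prop :=
  (∃ u ∈ S, ∃ w ∈ S, s(u, w) ∈ G) ∧ ∃ u, u ∉ S ∧ ∃ w, w ∉ S ∧ s(u, w) ∈ G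

/-- The families all of whose cuts have an edge of `G` on both sides. -/
def LG {V : Type*} [Fintype V] [DecidableEq V] (r : V) (G : Finset (Sym2 V)) (T : Finset (Sp V r)) : Prop :=
  LP r T ∧ ∀ S : {S : NCut V // r ∉ S.1}, (Sum.inr S : Sp V r) ∈ T → NS G S.1.1

/-- The carrier: if `G` is not good, `T` minimizes the payoff against some `x` in `Sx G`. -/
def Om {V : Type*} [Fintype V] [DecidableEq V] (r : V) (G : Finset (Sym2 V)) (T : Finset (Sp V r)) : Prop :=
  LG r G T ∧ ((¬ ∃ x ∈ Sx G, Good x) → ∃ x ∈ Sx G, Amin (pq r) (fun _ => 0) x T)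

/-- `S` and `S'` are disjoint or nested. -/
def NX {V : Type*} (S S' : Finset V) : Prop := Disjoint S S' ∨ S ⊆ S' ∨ S' ⊆ S

/-- The flag complex of the laminar families of sets with the property `P`. -/
def FL {V : Type*} (P : Finset V → Prop) (T : Finset (Finset V)) : Prop :=
  (∀ S ∈ T, P S) ∧ ∀ S ∈ T, ∀ S' ∈ T, NX S S'

/-- `R` is the root block (contracted). `S` is disjoint from `R`, has an edge of `G` inside, and there is an edge of
`G` inside the complement of `S` which does not lie inside `R`. -/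
def TP {V : Type*} (R : Finset V) (G : Finset (Sym2 V)) (S : Finset V) : Prop :=
  Disjoint S R ∧ (∃ u ∈ S, ∃ w ∈ S, s(u, w) ∈ G) ∧ ∃ u, u ∉ S ∧ u ∉ R ∧ ∃ w, w ∉ S ∧ s(u, w) ∈ G

/-- The class for the induction: `G / R` has no loops, no isolated vertex and is not a star. -/
structure Cls {V : Type*} (R : Finset V) (G : Finset (Sym2 V)) : Prop where
  loop : ∀ v, s(v, v) ∉ G
  ne : R.Nonempty
  iso : ∀ v, v ∉ R → ∃ w, s(v, w) ∈ G
  root : ∃ v, v ∉ R ∧ ∃ w ∈ R, s(v, w) ∈ G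
  star0 : ∃ u, u ∉ R ∧ ∃ w, w ∉ R ∧ s(u, w) ∈ G
  star : ∀ c, c ∉ R → ∃ u, u ∉ R ∧ u ≠ c ∧ ∃ w, w ≠ c ∧ s(u, w) ∈ G

end H56V
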