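import Pool.Agent.Lib.H56V.D
import Pool.Agent.Lib.H96H.A0

/-! # H56V, chunk Q1: hypothesis (a), cones -/

set_option autoImplicit false

namespace H56V

open Finset H98P H98Z H98M H63F H96H

variable {V : Type*} [Fintype V] [DecidableEq V]

private theorem q1_dn (r : V) (G : Finset (Sym2 V)) (x : Sym2 V → ℝ) :
    Dn fun T : Finset (Sp V r) => LG r G T ∧ Amin (pq r) (fun _ => 0) x T := by
  intro s t hst ht
  obtain ⟨⟨⟨h1, v, hv⟩, h3⟩, h4⟩ := ht
  exact ⟨⟨⟨fun S S' hS hS' => h1 S S' (hst hS) (hst hS'), v, fun h => hv (hst h)⟩,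
    fun S hS => h3 S (hst hS)⟩, fun S hS S' => h4 S (hst hS) S'⟩

private theorem q1_nonx_symm {S T : Finset V} (h : NonX S T) : NonX T S := by
  unfold NonX at h ⊢
  rcases h with h | h | h | h
  · exact Or.inl (by rw [inter_comm]; exact h)
  · exact Or.inr (Or.inr (Or.inl h))
  · exact Or.inr (Or.inl h)
  · exact Or.inr (Or.inr (Or.inr (by rw [union_comm]; exact h)))

private theorem q1_nonx_self (S : Finset V) : NonX S S := Or.inr (Or.inl (Subset.refl _))

/-- A vertex with negative minimal payoff is an apex. PROOF: as `H96H.caseV` (`H96H/A1.lean`), simpler (`ac_cone`,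
`pay_pos`, `sum_dev`: not all vertices have negative payoff). -/
theorem caseVP (hV : 4 ≤ Fintype.card V) {r : V} {G : Finset (Sym2 V)} {x : Sym2 V → ℝ} (h1 : ∑ e, x e = 1)
    (hl : ∀ v, x s(v, v) = 0) (v : V) (hv : Amin (pq r) (fun _ => 0) x ({Sum.inl v} : Finset (Sp V r)))
    (hm : pay (pq r) (fun _ => 0) x (Sum.inl v : Sp V r) < 0) :
    AC fun T : Finset (Sp V r) => LG r G T ∧ Amin (pq r) (fun _ => 0) x T := by
  classical
  have hmin : ∀ s : Sp V r, pay (pq r) (fun _ => 0) x (Sum.inl v : Sp V r) ≤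
      pay (pq r) (fun _ => 0) x s := fun s => hv _ (mem_singleton_self _) s
  refine ac_cone (q1_dn r G x) (Sum.inl v : Sp V r) fun T hT => ?_
  obtain ⟨⟨⟨hT1, hT3⟩, hT5⟩, hT4⟩ := hT
  have hsum := sum_dev hV h1 hl
  have hin : ∀ S : {S : NCut V // r ∉ S.1},
      (Sum.inr S : Sp V r) ∈ insert (Sum.inl v : Sp V r) T → (Sum.inr S : Sp V r) ∈ T := by
    intro S hS
    rcases mem_insert.1 hS with h | h
    · exact absurd h (by simp)
    · exact h
  refine ⟨⟨⟨fun S S' hS hS' => hT1 S S' (hin S hS) (hin S' hS'), ?_⟩,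
    fun S hS => hT5 S (hin S hS)⟩, ?_⟩
  · by_contra hcon
    push Not at hcon
    have hall : ∀ w : V, pay (pq r) (fun _ => 0) x (Sum.inl w : Sp V r) < 0 := by
      intro w
      rcases mem_insert.1 (hcon w) with h | h
      · rw [h]
        exact hm
      · exact lt_of_le_of_lt (hT4 _ h (Sum.inl v : Sp V r)) hm
    have hpp : ∀ w : V, pay (pq r) (fun _ => 0) x (Sum.inl w : Sp V r) =
        cutw x {w} - 2 / (Fintype.card V : ℝ) := fun w => pay_pos h1 hl w
    have hne : (univ : Finset V).Nonempty := ⟨v, mem_univ _⟩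
    have hlt : ∑ w : V, pay (pq r) (fun _ => 0) x (Sum.inl w : Sp V r) < ∑ _w : V, (0 : ℝ) :=
      sum_lt_sum_of_nonempty hne fun w _ => hall w
    rw [sum_const_zero, sum_congr rfl fun w _ => hpp w, hsum] at hlt
    exact lt_irrefl _ hlt
  · intro S hS S'
    rcases mem_insert.1 hS with h | h
    · rw [h]
      exact hmin S'
    · exact hT4 S h S'

/-- A minimizing cut which crosses no minimizing cut and has edges of `G` on both sides is an apex. PROOF: as
`H96H.caseS`. -/
theorem caseSP {r : V} {G : Finset (Sym2 V)} {x : Sym2 V → ℝ} (S0 : {S : NCut V // r ∉ S.1}) (hN : NS G S0.1.1)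
    (hS : Amin (pq r) (fun _ => 0) x ({Sum.inr S0} : Finset (Sp V r)))
    (hX : ∀ S : {S : NCut V // r ∉ S.1}, Amin (pq r) (fun _ => 0) x ({Sum.inr S} : Finset (Sp V r)) →
      NonX S0.1.1 S.1.1) :
    AC fun T : Finset (Sp V r) => LG r G T ∧ Amin (pq r) (fun _ => 0) x T := by
  classical
  refine ac_cone (q1_dn r G x) (Sum.inr S0 : Sp V r) fun T hT => ?_
  obtain ⟨⟨⟨hT1, hT3⟩, hT5⟩, hT4⟩ := hT
  have hXT : ∀ S : {S : NCut V // r ∉ S.1}, (Sum.inr S : Sp V r) ∈ T → NonX S0.1.1 S.1.1 := by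
    intro S hST
    refine hX S fun R hR S' => ?_
    rw [mem_singleton.1 hR]
    exact hT4 _ hST S'
  have hin : ∀ w : V, (Sum.inl w : Sp V r) ∈ insert (Sum.inr S0 : Sp V r) T →
      (Sum.inl w : Sp V r) ∈ T := by
    intro w hw
    rcases mem_insert.1 hw with h | h
    · exact absurd h (by simp)
    · exact h
  refine ⟨⟨⟨?_, ?_⟩, ?_⟩, ?_⟩
  · intro S S' h h'
    rcases mem_insert.1 h with h2 | h2
    · have h3 : S = S0 := Sum.inr.inj h2
      subst h3
      rcases mem_insert.1 h' with h4 | h4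
      · have h5 : S' = S := Sum.inr.inj h4
        subst h5
        exact q1_nonx_self _
      · exact hXT S' h4
    · rcases mem_insert.1 h' with h4 | h4
      · have h5 : S' = S0 := Sum.inr.inj h4
        subst h5
        exact q1_nonx_symm (hXT S h2)
      · exact hT1 S S' h2 h4
  · obtain ⟨w, hw⟩ := hT3
    exact ⟨w, fun h => hw (hin _ h)⟩
  · intro S h
    rcases mem_insert.1 h with h2 | h2
    · have h3 : S = S0 := Sum.inr.inj h2
      subst h3
      exact hN
    · exact hT5 S h2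
  · intro R hR S'
    rcases mem_insert.1 hR with h | h
    · rw [h]
      exact hS _ (mem_singleton_self _) S'
    · exact hT4 R h S'

end H56V
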