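import Pool.Agent.Lib.H98P.Defs

/-! # H56V, chunk J2: transfer along an injective map of the vertices -/

set_option autoImplicit false

namespace H56V

open Finset H98P

/-- The boundary commutes with an injective map. -/
theorem j2_bd {B B' : Type*} [Fintype B] [DecidableEq B] [Fintype B'] [DecidableEq B'] (f : B ↪ B')
    (g : Finset B' → ZMod 2) (hg : ∀ s', g s' ≠ 0 → ∀ b ∈ s', b ∈ Set.range f) (r : Finset B) :
    bd (fun s => g (s.map f)) r = bd g (r.map f) := by
  unfold bd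
  have hsub : (rᶜ).map f ⊆ (r.map f)ᶜ := by
    intro e he
    obtain ⟨b, hb, rfl⟩ := Finset.mem_map.1 he
    rw [Finset.mem_compl] at hb ⊢
    intro h
    obtain ⟨b', hb', he'⟩ := Finset.mem_map.1 h
    exact hb (f.injective he' ▸ hb')
  rw [← Finset.sum_subset hsub, Finset.sum_map]
  · refine Finset.sum_congr rfl fun b _ => ?_
    simp only [Finset.map_insert]
  · intro e he hne
    by_contra h0
    obtain ⟨b, rfl⟩ := hg _ h0 e (Finset.mem_insert_self _ _)
    apply hne
    refine Finset.mem_map_of_mem f ?_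
    rw [Finset.mem_compl] at he ⊢
    exact fun h => he (Finset.mem_map_of_mem f h)

/-- A set all of whose elements are in the range is an image. -/
theorem j2_map {B B' : Type*} (f : B ↪ B') (s' : Finset B') (h : ∀ b ∈ s', b ∈ Set.range f) :
    ∃ s : Finset B, s.map f = s' := by
  classical
  refine ⟨s'.preimage f f.injective.injOn, ?_⟩
  ext b
  rw [Finset.mem_map]
  constructor
  · rintro ⟨a, ha, rfl⟩
    exact Finset.mem_preimage.1 ha
  · intro hb
    obtain ⟨a, rfl⟩ := h b hb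
    exact ⟨a, Finset.mem_preimage.2 hb, rfl⟩

theorem j2_emb {B B' : Type*} [Fintype B] [DecidableEq B] [Fintype B'] [DecidableEq B'] (f : B ↪ B')
    (K : Finset B → Prop) (K' : Finset B' → Prop) (h1 : ∀ s, K s ↔ K' (s.map f))
    (h2 : ∀ s', K' s' → ∀ b ∈ s', b ∈ Set.range f) (k : ℕ)
    (h : ∀ z : Finset B' → ZMod 2, (∀ s, z s ≠ 0 → K' s ∧ s.card = k) → (∀ r, bd z r = 0) →
      ∃ c : Finset B' → ZMod 2, (∀ s, c s ≠ 0 → K' s ∧ s.card = k + 1) ∧ ∀ r, bd c r = z r)
    (z : Finset B → ZMod 2) (hz : ∀ s, z s ≠ 0 → K s ∧ s.card = k) (hb : ∀ r, bd z r = 0) :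
    ∃ c : Finset B → ZMod 2, (∀ s, c s ≠ 0 → K s ∧ s.card = k + 1) ∧ ∀ r, bd c r = z r := by
  classical
  set z' : Finset B' → ZMod 2 := fun s' => if h : ∃ s : Finset B, s.map f = s' then z h.choose else 0
    with hz'
  have e1 : ∀ s : Finset B, z' (s.map f) = z s := by
    intro s
    have hex : ∃ t : Finset B, t.map f = s.map f := ⟨s, rfl⟩
    simp only [hz']
    rw [dif_pos hex, Finset.map_injective f hex.choose_spec]
  have e2 : ∀ s', z' s' ≠ 0 → ∃ s : Finset B, s.map f = s' := by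
    intro s' hs'
    by_contra hne
    apply hs'
    simp only [hz']
    rw [dif_neg hne]
  have e3 : ∀ s', z' s' ≠ 0 → ∀ b ∈ s', b ∈ Set.range f := by
    intro s' hs' b hb'
    obtain ⟨s, rfl⟩ := e2 s' hs'
    obtain ⟨a, -, rfl⟩ := Finset.mem_map.1 hb'
    exact ⟨a, rfl⟩
  have e4 : (fun s : Finset B => z' (s.map f)) = z := funext e1
  obtain ⟨c', hc1, hc2⟩ := h z' (by
      intro s' hs'
      obtain ⟨s, rfl⟩ := e2 s' hs'
      rw [e1] at hs'
      obtain ⟨hk, hc⟩ := hz s hs'
      exact ⟨(h1 s).1 hk, by rw [Finset.card_map, hc]⟩) (by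
      intro r'
      by_cases hr : ∃ r : Finset B, r.map f = r'
      · obtain ⟨r, rfl⟩ := hr
        rw [← j2_bd f z' e3, e4, hb]
      · unfold bd
        refine Finset.sum_eq_zero fun e _ => ?_
        by_contra h0
        exact hr (j2_map f r' fun b hb' => e3 _ h0 b (Finset.mem_insert_of_mem hb')))
  refine ⟨fun s => c' (s.map f), ?_, ?_⟩
  · intro s hs
    obtain ⟨hk, hc⟩ := hc1 _ hs
    exact ⟨(h1 s).2 hk, by rwa [Finset.card_map] at hc⟩
  · intro r
    rw [j2_bd f c' (fun s' hs' => h2 s' (hc1 s' hs').1), hc2, e1]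

end H56V
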