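import Pool.Agent.Lib.H56V.D
import Pool.Agent.Lib.H56V.J2a

/-! # H56V, chunk J: the join with the boundary of a simplex -/

set_option autoImplicit false

namespace H56V

open Finset H98P H98Z H98M H63F H96H

private theorem j1_bd {V B : Type*} [Fintype V] [DecidableEq V] [Fintype B] [DecidableEq B]
    (g : Finset (V ⊕ B) → ZMod 2) (S : Finset B) :
    bd g ((univ : Finset V).disjSum S) = bd (fun S' => g ((univ : Finset V).disjSum S')) S := by
  unfold bd
  have h : ((univ : Finset V).disjSum S)ᶜ = (Sᶜ).map Function.Embedding.inr := by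
    ext e
    rcases e with v | b
    · simp
    · simp
  rw [h, Finset.sum_map]
  refine Finset.sum_congr rfl fun b _ => ?_
  congr 1
  ext e
  rcases e with v | b'
  · simp
  · simp

private theorem j1_full {V B : Type*} [Fintype V] [DecidableEq V] [Fintype B] [DecidableEq B]
    (T : Finset (V ⊕ B)) (h : ∀ v : V, (Sum.inl v : V ⊕ B) ∈ T) :
    T = (univ : Finset V).disjSum T.toRight := by
  ext e
  rcases e with v | b
  · simp [h v]
  · simp

/-- Let `X` be a complex on `B`. If for `m + (n - 1) = k`, `n = |V|`, the cycles of `X` of size `m` bound, then the cycles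
of size `k` of the join of `X` and the boundary of the simplex `V` bound. PROOF: `v1 : V`; `z` a cycle of size `k`.
`c T = if inl v1 ∈ T then z (T.erase (inl v1)) else 0` has `bd c = z` in the join with the full simplex. The terms `T` of
`c` with all of `V`: `a 𝒮 = z ((V - v1) ⊔ 𝒮)`, a chain of `X` of size `k - (n - 1)` (`0` if `k < n - 1`), `bd a = 0` (look
at `bd z` on `(V - v1) ⊔ r`; `z` is `0` on the sets that contain all of `V`). So `a = bd b`, `b` of size `m + 1`. Put
`d T = if (V ⊆ T) then b T.toRight else 0` and `c' = c + bd d`: `bd c' = z`, and `c'` vanishes on the sets that contain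
all of `V` (`bd d (V ⊔ 𝒮) = bd b 𝒮 = a 𝒮`); its other terms are `(V - v) ⊔ 𝒮'`, `b 𝒮' ≠ 0`, of size `n - 1 + m + 1`. -/
theorem hc_join {V B : Type*} [Fintype V] [DecidableEq V] [Nonempty V] [Fintype B] [DecidableEq B] (X : Finset B → Prop)
    (hX : Dn X) (k : ℕ) (h : ∀ m, m + (Fintype.card V - 1) = k → HC X m) :
    HC (fun T : Finset (V ⊕ B) => (∃ v : V, (Sum.inl v : V ⊕ B) ∉ T) ∧ X T.toRight) k := by
  obtain ⟨v1⟩ := ‹Nonempty V›
  have hn : 0 < Fintype.card V := Fintype.card_pos_iff.2 ⟨v1⟩
  intro z hz hbz
  let c : Finset (V ⊕ B) → ZMod 2 := fun T => if Sum.inl v1 ∈ T then z (T.erase (Sum.inl v1)) else 0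
  have hcin : ∀ T : Finset (V ⊕ B), Sum.inl v1 ∈ T → c T = z (T.erase (Sum.inl v1)) :=
    fun T h => if_pos h
  have hcout : ∀ T : Finset (V ⊕ B), Sum.inl v1 ∉ T → c T = 0 := fun T h => if_neg h
  have hbc : ∀ r, bd c r = z r := by
    intro r
    by_cases hr : Sum.inl v1 ∈ r
    · have h1 : bd c r = ∑ e ∈ rᶜ, z (insert e (r.erase (Sum.inl v1))) := by
        unfold bd
        refine Finset.sum_congr rfl fun e he => ?_
        have hne : e ≠ Sum.inl v1 := fun h => (Finset.mem_compl.1 he) (h ▸ hr)
        rw [hcin _ (Finset.mem_insert_of_mem hr), Finset.erase_insert_of_ne hne]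
      have h2 := hbz (r.erase (Sum.inl v1))
      unfold bd at h2
      rw [Finset.compl_erase, Finset.sum_insert (by simpa using hr), Finset.insert_erase hr] at h2
      rw [h1]
      exact (CharTwo.add_eq_zero.1 h2).symm
    · unfold bd
      rw [Finset.sum_eq_single (Sum.inl v1)]
      · rw [hcin _ (Finset.mem_insert_self _ _), Finset.erase_insert hr]
      · intro e _ hne
        apply hcout
        rw [Finset.mem_insert, not_or]
        exact ⟨fun h => hne h.symm, hr⟩
      · intro h
        exact absurd (Finset.mem_compl.2 hr) h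
  have hcsupp : ∀ T, c T ≠ 0 → X T.toRight ∧ T.card = k + 1 := by
    intro T hT
    have hin : Sum.inl v1 ∈ T := by
      by_contra h
      exact hT (hcout T h)
    rw [hcin T hin] at hT
    obtain ⟨⟨_, h2⟩, h3⟩ := hz _ hT
    have e1 : (T.erase (Sum.inl v1)).toRight = T.toRight := by
      ext b
      simp
    rw [e1] at h2
    rw [Finset.card_erase_of_mem hin] at h3
    have := Finset.card_pos.2 ⟨_, hin⟩
    exact ⟨h2, by omega⟩
  let a : Finset B → ZMod 2 := fun S => c ((univ : Finset V).disjSum S)
  have ha1 : ∀ S, a S ≠ 0 → X S ∧ S.card + (Fintype.card V - 1) = k := by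
    intro S hS
    obtain ⟨h1, h2⟩ := hcsupp _ hS
    rw [Finset.toRight_disjSum] at h1
    rw [Finset.card_disjSum, Finset.card_univ] at h2
    exact ⟨h1, by omega⟩
  have ha2 : ∀ S, bd a S = 0 := by
    intro S
    have h1 : bd a S = bd c ((univ : Finset V).disjSum S) := (j1_bd c S).symm
    rw [h1, hbc]
    by_contra h0
    obtain ⟨⟨⟨v, hv⟩, _⟩, _⟩ := hz _ h0
    apply hv
    simp
  obtain ⟨b, hb1, hb2⟩ : ∃ b : Finset B → ZMod 2,
      (∀ S, b S ≠ 0 → X S ∧ S.card + (Fintype.card V - 1) = k + 1) ∧ ∀ S, bd b S = a S := by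
    by_cases hk : Fintype.card V - 1 ≤ k
    · obtain ⟨b, hb1, hb2⟩ := h (k - (Fintype.card V - 1)) (by omega) a
        (fun S hS => ⟨(ha1 S hS).1, by have := (ha1 S hS).2; omega⟩) ha2
      exact ⟨b, fun S hS => ⟨(hb1 S hS).1, by have := (hb1 S hS).2; omega⟩, hb2⟩
    · refine ⟨fun _ => 0, fun S hS => absurd rfl hS, fun S => ?_⟩
      rw [bd_zero]
      by_contra h0
      have := (ha1 S (fun h => h0 h.symm)).2
      omega
  classical
  let d : Finset (V ⊕ B) → ZMod 2 := fun T => if ∀ v : V, (Sum.inl v : V ⊕ B) ∈ T then b T.toRight else 0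
  have hdfull : ∀ S : Finset B, d ((univ : Finset V).disjSum S) = b S := by
    intro S
    have h1 : ∀ v : V, (Sum.inl v : V ⊕ B) ∈ (univ : Finset V).disjSum S := fun v => by simp
    show (if ∀ v : V, (Sum.inl v : V ⊕ B) ∈ (univ : Finset V).disjSum S then
      b ((univ : Finset V).disjSum S).toRight else 0) = b S
    rw [if_pos h1, Finset.toRight_disjSum]
  refine ⟨fun T => c T + bd d T, ?_, ?_⟩
  · intro T hT
    change c T + bd d T ≠ 0 at hT
    by_cases hfull : ∀ v : V, (Sum.inl v : V ⊕ B) ∈ T
    · exfalso
      apply hT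
      have e := j1_full T hfull
      have h1 : bd d T = c T := by
        rw [e, j1_bd]
        have : (fun S' => d ((univ : Finset V).disjSum S')) = b := funext hdfull
        rw [this, hb2]
      rw [h1]
      exact CharTwo.add_self_eq_zero _
    · have hex : ∃ v : V, (Sum.inl v : V ⊕ B) ∉ T := by
        by_contra h0
        push Not at h0
        exact hfull h0
      by_cases hcT : c T = 0
      · have hdT : bd d T ≠ 0 := by
          rw [hcT, zero_add] at hT
          exact hT
        unfold bd at hdT
        obtain ⟨e, he, hne⟩ := Finset.exists_ne_zero_of_sum_ne_zero hdT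
        have hfe : ∀ v : V, (Sum.inl v : V ⊕ B) ∈ insert e T := by
          by_contra h0
          exact hne (if_neg h0)
        have hval : d (insert e T) = b (insert e T).toRight := if_pos hfe
        rw [hval] at hne
        obtain ⟨hX1, hcard⟩ := hb1 _ hne
        obtain ⟨v, hv⟩ := hex
        have hev : e = Sum.inl v := by
          have := hfe v
          rw [Finset.mem_insert] at this
          rcases this with h1 | h1
          · exact h1.symm
          · exact absurd h1 hv
        have e1 : (insert e T).toRight = T.toRight := by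
          rw [hev]
          ext b'
          simp
        have e2 : (insert e T).card = Fintype.card V + (insert e T).toRight.card := by
          conv_lhs => rw [j1_full _ hfe]
          rw [Finset.card_disjSum, Finset.card_univ]
        rw [Finset.card_insert_of_notMem (Finset.mem_compl.1 he)] at e2
        rw [e1] at hX1 hcard e2
        exact ⟨⟨⟨v, hv⟩, hX1⟩, by omega⟩
      · obtain ⟨h1, h2⟩ := hcsupp T hcT
        exact ⟨⟨hex, h1⟩, h2⟩
  · intro r
    rw [bd_add, hbc, bd_bd, add_zero]

/-- Transfer along an injective map of the vertices. PROOF: `z' s' = z (s'.preimage)` if all elements of `s'` are in the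
range of `f` (then `K' s'` is about such sets only), else `0`; `bd` commutes with `f`. -/
theorem hc_emb {B B' : Type*} [Fintype B] [DecidableEq B] [Fintype B'] [DecidableEq B'] (f : B ↪ B')
    (K : Finset B → Prop) (K' : Finset B' → Prop) (h1 : ∀ s, K s ↔ K' (s.map f))
    (h2 : ∀ s', K' s' → ∀ b ∈ s', b ∈ Set.range f) (k : ℕ) (h : HC K' k) : HC K k :=
  fun z hz hb => j2_emb f K K' h1 h2 k h z hz hb

end H56V
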