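import Pool.Agent.Lib.H56V.X2

/-! # H56V, chunk X4: leaves at the root block -/

set_option autoImplicit false

namespace H56V

open Finset H98P H98Z H98M H63F H96H

variable {V : Type*} [Fintype V] [DecidableEq V]

/-- `b ∉ R` has all its neighbours in `R`. PROOF: `leaf_abs` with `P = TP R G`, `sep S` = `b ∈ S`, `key S = S.card`,
`mv S = S.erase b`, apex `univ \ (insert b R)` (inside: `star0`, the edge does not touch `b`; outside: the edge from `b`
to `R`). A set `Z` with `P Z`, `b ∉ Z` is contained in the apex. -/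
theorem leaf2 {R : Finset V} {G : Finset (Sym2 V)} (h : Cls R G) {b : V} (hb : b ∉ R)
    (hl : ∀ w, s(b, w) ∈ G → w ∈ R) (k : ℕ) : HC (FL (TP R G)) k := by
  refine leaf_abs (TP R G) (fun S => b ∈ S) (fun S => S.card) (fun S => S.erase b)
    (univ \ (insert b R)) ?_ ?_ ?_ ?_ k
  · rintro S ⟨h1, ⟨u, hu, w, hw, huw⟩, ⟨u', hu', hur, w', hw', huw'⟩⟩ hbS
    have hub : u ≠ b := by
      rintro rfl
      exact Finset.disjoint_left.1 h1 hw (hl w huw)
    have hwb : w ≠ b := by
      rintro rfl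
      rw [Sym2.eq_swap] at huw
      exact Finset.disjoint_left.1 h1 hu (hl u huw)
    refine ⟨⟨?_, ⟨u, mem_erase.2 ⟨hub, hu⟩, w, mem_erase.2 ⟨hwb, hw⟩, huw⟩,
      ⟨u', fun h2 => hu' (mem_of_mem_erase h2), hur, w', fun h2 => hw' (mem_of_mem_erase h2), huw'⟩⟩,
      notMem_erase b S, Or.inr (Or.inl (erase_subset b S))⟩
    exact Finset.disjoint_of_subset_left (erase_subset b S) h1
  · rintro S Z hS hbS hZ hZS hne hkey
    rcases hZS with h1 | h1 | h1
    · exact Or.inl (Finset.disjoint_of_subset_right (erase_subset b S) h1)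
    · refine Or.inr (Or.inl ?_)
      intro x hx
      refine mem_erase.2 ⟨?_, h1 hx⟩
      rintro rfl
      exact hne (Finset.eq_of_subset_of_card_le h1 (hkey hx))
    · exact Or.inr (Or.inr ((erase_subset b S).trans h1))
  · refine ⟨⟨?_, ?_, ?_⟩, ?_⟩
    · rw [Finset.disjoint_left]
      intro x hx hxR
      exact (mem_sdiff.1 hx).2 (mem_insert_of_mem hxR)
    · obtain ⟨u, hu, w, hw, huw⟩ := h.star0
      have hub : u ≠ b := by
        rintro rfl
        exact hw (hl w huw)
      have hwb : w ≠ b := by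
        rintro rfl
        rw [Sym2.eq_swap] at huw
        exact hu (hl u huw)
      refine ⟨u, ?_, w, ?_, huw⟩
      · simp [hub, hu]
      · simp [hwb, hw]
    · obtain ⟨w, hw⟩ := h.iso b hb
      exact ⟨b, by simp, hb, w, by simp [hl w hw], hw⟩
    · simp
  · rintro Z ⟨h1, -, -⟩ hbZ
    refine Or.inr (Or.inl ?_)
    intro x hx
    rw [mem_sdiff, mem_insert]
    refine ⟨mem_univ x, ?_⟩
    rintro (rfl | hxR)
    · exact hbZ hx
    · exact Finset.disjoint_left.1 h1 hx hxR

/-- The block `R` has only the neighbour `a`. PROOF: `leaf_abs` with `P = TP R G`, `sep S` = `a ∈ S`,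
`key S = Fintype.card V - S.card`, `mv S = univ \ (S ∪ R)`, apex `univ \ (insert a R)` (inside: `star a` gives `s(u, w)`
with `u ∉ R`, `u ≠ a`, `w ≠ a`, and `w ∉ R` as `a` is the only neighbour of `R`; outside: the edge of `root`).
`P (mv S)`: the edge outside `S` does not touch `R` (its end in `R` would have the other end `a ∈ S`), so it is inside
`mv S`; outside `mv S` is the edge inside `S`. `h2`: `Z ⊆ S` is disjoint from `mv S`; `Z ⊇ S`, `Z ≠ S` has `a ∈ Z` and a
smaller key; `Z` disjoint from `S` is inside `mv S`. -/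
theorem leaf3 {R : Finset V} {G : Finset (Sym2 V)} (h : Cls R G) {a : V} (ha : a ∉ R)
    (hl : ∀ v, v ∉ R → ∀ w ∈ R, s(v, w) ∈ G → v = a) (k : ℕ) : HC (FL (TP R G)) k := by
  refine leaf_abs (TP R G) (fun S => a ∈ S) (fun S => Fintype.card V - S.card) (fun S => univ \ (S ∪ R))
    (univ \ (insert a R)) ?_ ?_ ?_ ?_ k
  · rintro S ⟨h1, ⟨u, hu, w, hw, huw⟩, ⟨u', hu', hur, w', hw', huw'⟩⟩ haS
    have hwR : w' ∉ R := by
      intro h2
      have h3 := hl u' hur w' h2 huw'
      rw [h3] at hu'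
      exact hu' haS
    refine ⟨⟨?_, ⟨u', ?_, w', ?_, huw'⟩, ⟨u, ?_, Finset.disjoint_left.1 h1 hu, w, ?_, huw⟩⟩, ?_, Or.inl ?_⟩
    · rw [Finset.disjoint_left]
      intro x hx hxR
      exact (mem_sdiff.1 hx).2 (mem_union_right _ hxR)
    · simp [hu', hur]
    · simp [hw', hwR]
    · simp [hu]
    · simp [hw]
    · simp [haS]
    · rw [Finset.disjoint_left]
      intro x hx hxS
      exact (mem_sdiff.1 hx).2 (mem_union_left _ hxS)
  · rintro S Z hS haS hZ hZS hne hkey
    rcases hZS with h1 | h1 | h1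
    · refine Or.inr (Or.inl ?_)
      intro x hx
      rw [mem_sdiff, mem_union]
      refine ⟨mem_univ x, ?_⟩
      rintro (h2 | h2)
      · exact Finset.disjoint_left.1 h1 hx h2
      · exact Finset.disjoint_left.1 hZ.1 hx h2
    · refine Or.inl ?_
      rw [Finset.disjoint_left]
      intro x hx hx2
      exact (mem_sdiff.1 hx2).2 (mem_union_left _ (h1 hx))
    · exfalso
      have h2 := hkey (h1 haS)
      have h3 := Finset.card_le_univ S
      have h4 := Finset.card_le_univ Z
      refine hne (Finset.eq_of_subset_of_card_le h1 ?_).symm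
      omega
  · refine ⟨⟨?_, ?_, ?_⟩, ?_⟩
    · rw [Finset.disjoint_left]
      intro x hx hxR
      exact (mem_sdiff.1 hx).2 (mem_insert_of_mem hxR)
    · obtain ⟨u, hu, hua, w, hwa, huw⟩ := h.star a ha
      have hwR : w ∉ R := fun h2 => hua (hl u hu w h2 huw)
      refine ⟨u, ?_, w, ?_, huw⟩
      · simp [hua, hu]
      · simp [hwa, hwR]
    · obtain ⟨v, hv, w, hw, hvw⟩ := h.root
      have h2 := hl v hv w hw hvw
      rw [h2] at hvw
      exact ⟨a, by simp, ha, w, by simp [hw], hvw⟩
    · simp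
  · rintro Z ⟨h1, -, -⟩ haZ
    refine Or.inr (Or.inl ?_)
    intro x hx
    rw [mem_sdiff, mem_insert]
    refine ⟨mem_univ x, ?_⟩
    rintro (rfl | hxR)
    · exact haZ hx
    · exact Finset.disjoint_left.1 h1 hx hxR

end H56V
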