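import Pool.Agent.Lib.H56V.X5

/-! # H56V, chunk X6: the class is closed under deletion and contraction -/

set_option autoImplicit false

namespace H56V

open Finset H98P H98Z H98M H63F H96H

variable {V : Type*} [Fintype V] [DecidableEq V]

/-- No leaves in `G / R`. -/
structure NoLeaf (R : Finset V) (G : Finset (Sym2 V)) : Prop where
  a1 : ∀ b, b ∉ R → ∀ a, a ∉ R → ∃ w, s(b, w) ∈ G ∧ w ≠ a
  a2 : ∀ b, b ∉ R → ∃ w, s(b, w) ∈ G ∧ w ∉ R
  a3 : ∀ a, a ∉ R → ∃ v, v ∉ R ∧ v ≠ a ∧ ∃ w ∈ R, s(v, w) ∈ G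

private theorem exists_third {R : Finset V} (hk : 3 ≤ (univ \ R).card) (b c : V) :
    ∃ v, v ∉ R ∧ v ≠ b ∧ v ≠ c := by
  have h1 : 0 < ((univ \ R) \ {b, c}).card := by
    have h2 := Finset.le_card_sdiff ({b, c} : Finset V) (univ \ R)
    have h3 : ({b, c} : Finset V).card ≤ 2 := Finset.card_le_two
    omega
  obtain ⟨v, hv⟩ := Finset.card_pos.1 h1
  simp only [Finset.mem_sdiff, Finset.mem_univ, true_and, Finset.mem_insert,
    Finset.mem_singleton, not_or] at hv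
  exact ⟨v, hv.1, hv.2.1, hv.2.2⟩

omit [Fintype V] in
private theorem mem_del {R : Finset V} {G : Finset (Sym2 V)} {b : V} {e : Sym2 V} :
    e ∈ del R G b ↔ e ∈ G ∧ ¬ ∃ w ∈ R, e = s(b, w) := by
  unfold del
  rw [Finset.mem_filter]

omit [Fintype V] in
private theorem mem_del_of {R : Finset V} {G : Finset (Sym2 V)} {b u w : V} (he : s(u, w) ∈ G)
    (h : u ≠ b ∧ u ∉ R ∨ u ∉ R ∧ w ∉ R) : s(u, w) ∈ del R G b := by
  rw [mem_del]
  refine ⟨he, ?_⟩
  rintro ⟨x, hx, hxe⟩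
  rw [Sym2.eq_iff] at hxe
  rcases hxe with ⟨h1, h2⟩ | ⟨h1, h2⟩
  · rcases h with h | h
    · exact h.1 h1
    · exact h.2 (h2 ▸ hx)
  · have h3 : u ∈ R := h1 ▸ hx
    rcases h with h | h
    · exact h.2 h3
    · exact h.1 h3

/-- PROOF: `iso` for `v = b` by `a2`, for `v ≠ b` no edge at `v` to a vertex outside `R`, resp. to `R`, is deleted;
`root` by `a3 b`; `star0`: choose `v ∉ R`, `v ≠ b` (`hk`), `a2 v`; `star c`: choose `v ∉ R`, `v ≠ b`, `v ≠ c` (`hk`),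
`a1 v c`. -/
theorem cls_del {R : Finset V} {G : Finset (Sym2 V)} (h : Cls R G) (hn : NoLeaf R G) {b : V} (hb : b ∉ R)
    (hk : 3 ≤ (univ \ R).card) : Cls R (del R G b) := by
  refine ⟨fun v hv => h.loop v (mem_del.1 hv).1, h.ne, fun v hv => ?_, ?_, ?_, fun c hc => ?_⟩
  · by_cases hvb : v = b
    · subst hvb
      obtain ⟨w, hw, hwR⟩ := hn.a2 v hb
      exact ⟨w, mem_del_of hw (Or.inr ⟨hb, hwR⟩)⟩
    · obtain ⟨w, hw⟩ := h.iso v hv
      exact ⟨w, mem_del_of hw (Or.inl ⟨hvb, hv⟩)⟩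
  · obtain ⟨v, hv, hvb, w, hw, he⟩ := hn.a3 b hb
    exact ⟨v, hv, w, hw, mem_del_of he (Or.inl ⟨hvb, hv⟩)⟩
  · obtain ⟨w, hw, hwR⟩ := hn.a2 b hb
    exact ⟨b, hb, w, hwR, mem_del_of hw (Or.inr ⟨hb, hwR⟩)⟩
  · obtain ⟨v, hv, hvb, hvc⟩ := exists_third hk b c
    obtain ⟨w, hw, hwc⟩ := hn.a1 v hv c hc
    exact ⟨v, hv, hvc, w, hwc, mem_del_of hw (Or.inl ⟨hvb, hv⟩)⟩

/-- PROOF: `root`: `a2 b` gives `w ∉ R`, `s(b, w) ∈ G`, `w ≠ b`; `star0` is `he`; `star c`: choose `v ∉ insert b R`,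
`v ≠ c` (`hk`), `a1 v c`. -/
theorem cls_con {R : Finset V} {G : Finset (Sym2 V)} (h : Cls R G) (hn : NoLeaf R G) {b : V} (hb : b ∉ R)
    (he : ∃ u, u ∉ insert b R ∧ ∃ w, w ∉ insert b R ∧ s(u, w) ∈ G) (hk : 3 ≤ (univ \ R).card) :
    Cls (insert b R) G := by
  refine ⟨h.loop, Finset.insert_nonempty b R, fun v hv => ?_, ?_, he, fun c hc => ?_⟩
  · exact h.iso v fun hvR => hv (Finset.mem_insert_of_mem hvR)
  · obtain ⟨w, hw, hwR⟩ := hn.a2 b hb
    have hwb : w ≠ b := by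
      rintro rfl
      exact h.loop _ hw
    refine ⟨w, ?_, b, Finset.mem_insert_self b R, ?_⟩
    · rw [Finset.mem_insert, not_or]
      exact ⟨hwb, hwR⟩
    · rw [Sym2.eq_swap]
      exact hw
  · obtain ⟨v, hv, hvb, hvc⟩ := exists_third hk b c
    obtain ⟨w, hw, hwc⟩ := hn.a1 v hv c fun hcR => hc (Finset.mem_insert_of_mem hcR)
    refine ⟨v, ?_, hvc, w, hwc, hw⟩
    rw [Finset.mem_insert, not_or]
    exact ⟨hvb, hv⟩

open Classical in
/-- The number of edges which are not inside `R`. -/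
noncomputable def live (R : Finset V) (G : Finset (Sym2 V)) : ℕ := (G.filter fun e => ∃ v ∈ e, v ∉ R).card

theorem live_del {R : Finset V} {G : Finset (Sym2 V)} {b : V} (hb : b ∉ R) (hb' : ∃ w ∈ R, s(b, w) ∈ G) :
    live R (del R G b) < live R G := by
  classical
  obtain ⟨w, hw, he⟩ := hb'
  unfold live
  apply Finset.card_lt_card
  rw [Finset.ssubset_iff_of_subset]
  · refine ⟨s(b, w), ?_, ?_⟩
    · rw [Finset.mem_filter]
      exact ⟨he, b, Sym2.mem_mk_left b w, hb⟩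
    · rw [Finset.mem_filter, mem_del]
      rintro ⟨⟨-, h2⟩, -⟩
      exact h2 ⟨w, hw, rfl⟩
  · intro e he'
    rw [Finset.mem_filter, mem_del] at he'
    rw [Finset.mem_filter]
    exact ⟨he'.1.1, he'.2⟩

theorem live_con {R : Finset V} {G : Finset (Sym2 V)} {b : V} (hb : b ∉ R) (hb' : ∃ w ∈ R, s(b, w) ∈ G) :
    live (insert b R) G < live R G := by
  classical
  obtain ⟨w, hw, he⟩ := hb'
  unfold live
  apply Finset.card_lt_card
  rw [Finset.ssubset_iff_of_subset]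
  · refine ⟨s(b, w), ?_, ?_⟩
    · rw [Finset.mem_filter]
      exact ⟨he, b, Sym2.mem_mk_left b w, hb⟩
    · rw [Finset.mem_filter]
      rintro ⟨-, v, hv, hvR⟩
      rw [Sym2.mem_iff] at hv
      rcases hv with rfl | rfl
      · exact hvR (Finset.mem_insert_self _ _)
      · exact hvR (Finset.mem_insert_of_mem hw)
  · intro e he'
    rw [Finset.mem_filter] at he'
    rw [Finset.mem_filter]
    obtain ⟨h1, v, hv, hvR⟩ := he'
    exact ⟨h1, v, hv, fun h2 => hvR (Finset.mem_insert_of_mem h2)⟩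

end H56V
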