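import Pool.Agent.Lib.H56V.X3
import Pool.Agent.Lib.H56V.X4
import Pool.Agent.Lib.H56V.X6

/-! # H56V, chunk X7: helper70's theorem: the connectivity of the complex of splits with edges on both sides -/

set_option autoImplicit false

namespace H56V

open Finset H98P H98Z H98M H63F H96H

variable {V : Type*} [Fintype V] [DecidableEq V]

/-- PROOF: strong induction on `live R G`. If `NoLeaf R G` fails: `leaf1`, `leaf2`, `leaf3`. Otherwise let `b ∉ R` be a
neighbour of `R` (`root`). If `V - R - b` has an edge: `delcon` with the induction hypotheses for `(R, del R G b)`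
(`cls_del`, `live_del`) and `(insert b R, G)` (`cls_con`, `live_con`; `(univ \ insert b R).card = (univ \ R).card - 1`).
Otherwise `delonly`. -/
theorem hc_TP {R : Finset V} {G : Finset (Sym2 V)} (h : Cls R G) {k : ℕ} (hk : k + 3 ≤ (univ \ R).card) :
    HC (FL (TP R G)) k := by
  obtain ⟨N, hN⟩ : ∃ N, live R G ≤ N := ⟨_, le_rfl⟩
  induction N generalizing R G k with
  | zero =>
    exfalso
    obtain ⟨b, hb, w, hw, hbw⟩ := h.root
    have := live_del (G := G) hb ⟨w, hw, hbw⟩
    omega
  | succ N ih =>
    by_cases h1 : ∃ b, b ∉ R ∧ ∃ a, a ∉ R ∧ ∀ w, s(b, w) ∈ G → w = a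
    · obtain ⟨b, hb, a, ha, hl⟩ := h1
      exact leaf1 h ha hb hl k
    by_cases h2 : ∃ b, b ∉ R ∧ ∀ w, s(b, w) ∈ G → w ∈ R
    · obtain ⟨b, hb, hl⟩ := h2
      exact leaf2 h hb hl k
    by_cases h3 : ∃ a, a ∉ R ∧ ∀ v, v ∉ R → ∀ w ∈ R, s(v, w) ∈ G → v = a
    · obtain ⟨a, ha, hl⟩ := h3
      exact leaf3 h ha hl k
    have hn : NoLeaf R G := by
      refine ⟨fun b hb a ha => ?_, fun b hb => ?_, fun a ha => ?_⟩
      · by_contra hc
        push Not at hc
        exact h1 ⟨b, hb, a, ha, hc⟩
      · by_contra hc
        push Not at hc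
        exact h2 ⟨b, hb, hc⟩
      · by_contra hc
        push Not at hc
        exact h3 ⟨a, ha, fun v hv w hw hvw => by
          by_contra hva
          exact hc v hv hva w hw hvw⟩
    have hk3 : 3 ≤ (univ \ R).card := by omega
    obtain ⟨b, hb, w, hw, hbw⟩ := h.root
    have hb' : ∃ w ∈ R, s(b, w) ∈ G := ⟨w, hw, hbw⟩
    have hld := live_del (G := G) hb hb'
    have hlc := live_con (G := G) hb hb'
    have hdel : HC (FL (TP R (del R G b))) k := ih (cls_del h hn hb hk3) hk (by omega)
    by_cases he : ∃ u, u ∉ insert b R ∧ ∃ w, w ∉ insert b R ∧ s(u, w) ∈ G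
    · refine delcon h.loop hb hb' he k hdel fun hk1 => ?_
      refine ih (cls_con h hn hb he hk3) ?_ (by omega)
      have hc : (univ \ insert b R).card + 1 = (univ \ R).card := by
        have e : univ \ insert b R = (univ \ R).erase b := by
          ext x
          simp only [mem_sdiff, mem_univ, true_and, mem_insert, mem_erase, not_or]
        rw [e, Finset.card_erase_of_mem (by simp [hb])]
        have : 1 ≤ (univ \ R).card := by omega
        omega
      omega
    · exact delonly hb he k hdel

end H56V
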