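import Pool.Agent.Lib.H56V.J
import Pool.Agent.Lib.H56V.X7

/-! # H56V, chunk G2: the complex `LG r G` (helper32; used in `G.lean`) -/

set_option autoImplicit false

namespace H56V

open Finset H98P H98Z H98M H63F H96H

variable {V : Type*} [Fintype V] [DecidableEq V]

/-- The families of pairwise noncrossing cuts without `r` with an edge of `G` on both sides. -/
private def XX (r : V) (G : Finset (Sym2 V)) (T : Finset {S : NCut V // r ∉ S.1}) : Prop :=
  (∀ S ∈ T, ∀ S' ∈ T, NonX S.1.1 S'.1.1) ∧ ∀ S ∈ T, NS G S.1.1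

private theorem xx_dn (r : V) (G : Finset (Sym2 V)) : Dn (XX r G) := by
  intro s t hst h
  exact ⟨fun S hS S' hS' => h.1 S (hst hS) S' (hst hS'), fun S hS => h.2 S (hst hS)⟩

private theorem nonX_iff_NX {r : V} {S T : Finset V} (hS : r ∉ S) (hT : r ∉ T) : NonX S T ↔ NX S T := by
  unfold NonX NX
  rw [Finset.disjoint_iff_inter_eq_empty]
  constructor
  · rintro (h | h | h | h)
    · exact Or.inl h
    · exact Or.inr (Or.inl h)
    · exact Or.inr (Or.inr h)
    · exfalso
      have h1 : r ∈ S ∪ T := by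
        rw [h]
        exact mem_univ r
      rcases mem_union.1 h1 with h2 | h2
      · exact hS h2
      · exact hT h2
  · rintro (h | h | h)
    · exact Or.inl h
    · exact Or.inr (Or.inl h)
    · exact Or.inr (Or.inr (Or.inl h))

private theorem ns_iff_tp {r : V} {G : Finset (Sym2 V)} (hG : ∀ v, s(v, v) ∉ G) {S : Finset V} (hS : r ∉ S) :
    NS G S ↔ TP {r} G S := by
  unfold NS TP
  constructor
  · rintro ⟨h1, u, hu, w, hw, huw⟩
    refine ⟨?_, h1, ?_⟩
    · rw [Finset.disjoint_singleton_right]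
      exact hS
    · by_cases h : u = r
      · have hwr : w ≠ r := by
          intro h2
          rw [h, h2] at huw
          exact hG r huw
        refine ⟨w, hw, by simpa using hwr, u, hu, ?_⟩
        rw [Sym2.eq_swap]
        exact huw
      · exact ⟨u, hu, by simpa using h, w, hw, huw⟩
  · rintro ⟨_, h1, u, hu, _, w, hw, huw⟩
    exact ⟨h1, u, hu, w, hw, huw⟩

private theorem two_le {G : Finset (Sym2 V)} (hG : ∀ v, s(v, v) ∉ G) {S : Finset V} {u w : V} (hu : u ∈ S) (hw : w ∈ S)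
    (huw : s(u, w) ∈ G) : 2 ≤ S.card := by
  have hne : u ≠ w := by
    rintro rfl
    exact hG u huw
  exact Finset.one_lt_card.2 ⟨u, hu, w, hw, hne⟩

/-- The embedding of the cuts without `r` into the sets of vertices. -/
private def ff (r : V) : {S : NCut V // r ∉ S.1} ↪ Finset V :=
  ⟨fun S => S.1.1, fun _ _ h => Subtype.ext (Subtype.ext h)⟩

private theorem hc_XX {r : V} {G : Finset (Sym2 V)} (hG : ∀ v, s(v, v) ∉ G) (hcls : Cls {r} G) {m : ℕ}
    (hm : m + 3 ≤ (univ \ {r} : Finset V).card) : HC (XX r G) m := by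
  refine hc_emb (ff r) (XX r G) (FL (TP {r} G)) ?_ ?_ m (hc_TP hcls hm)
  · intro s
    constructor
    · rintro ⟨h1, h2⟩
      refine ⟨fun S hS => ?_, fun S hS S' hS' => ?_⟩
      · obtain ⟨T, hT, rfl⟩ := mem_map.1 hS
        exact (ns_iff_tp hG T.2).1 (h2 T hT)
      · obtain ⟨T, hT, rfl⟩ := mem_map.1 hS
        obtain ⟨T', hT', rfl⟩ := mem_map.1 hS'
        exact (nonX_iff_NX T.2 T'.2).1 (h1 T hT T' hT')
    · rintro ⟨h1, h2⟩
      refine ⟨fun S hS S' hS' => ?_, fun S hS => ?_⟩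
      · exact (nonX_iff_NX S.2 S'.2).2
          (h2 _ (mem_map_of_mem (ff r) hS) _ (mem_map_of_mem (ff r) hS'))
      · exact (ns_iff_tp hG S.2).2 (h1 _ (mem_map_of_mem (ff r) hS))
  · intro s' hs' b hb
    have h1 := hs'.1 b hb
    have hr : r ∉ b := Finset.disjoint_singleton_right.1 h1.1
    obtain ⟨u, hu, w, hw, huw⟩ := h1.2.1
    obtain ⟨u', hu', _, w', hw', huw'⟩ := h1.2.2
    exact ⟨⟨⟨b, two_le hG hu hw huw, two_le hG (by simp [hu']) (by simp [hw']) huw'⟩, hr⟩, rfl⟩

/-- `hc_LG` of `G.lean`. -/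
theorem hc_LG_aux (hV : 4 ≤ Fintype.card V) {G : Finset (Sym2 V)} (hG : ∀ v, s(v, v) ∉ G)
    (r : V) (hcls : Cls {r} G) (hc : G.card + 4 ≤ 2 * Fintype.card V) : HC (LG r G) (G.card - 1) := by
  have : Nonempty V := ⟨r⟩
  have key := hc_join (V := V) (B := {S : NCut V // r ∉ S.1}) (XX r G) (xx_dn r G) (G.card - 1)
    (fun m hm => hc_XX hG hcls (by
      have h1 : (univ \ {r} : Finset V).card = Fintype.card V - 1 := by
        rw [Finset.sdiff_singleton_eq_erase, Finset.card_erase_of_mem (mem_univ r), Finset.card_univ]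
      rw [h1]
      omega))
  have heq : (fun T : Finset (V ⊕ {S : NCut V // r ∉ S.1}) =>
      (∃ v : V, (Sum.inl v : V ⊕ {S : NCut V // r ∉ S.1}) ∉ T) ∧ XX r G T.toRight) = LG r G := by
    funext T
    apply propext
    unfold LG LP XX
    constructor
    · rintro ⟨h1, h2, h3⟩
      exact ⟨⟨fun S S' hS hS' => h2 S (mem_toRight.2 hS) S' (mem_toRight.2 hS'), h1⟩,
        fun S hS => h3 S (mem_toRight.2 hS)⟩
    · rintro ⟨⟨h2, h1⟩, h3⟩
      exact ⟨h1, fun S hS S' hS' => h2 S S' (mem_toRight.1 hS) (mem_toRight.1 hS'),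
        fun S hS => h3 S (mem_toRight.1 hS)⟩
  rw [← heq]
  exact key

end H56V
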