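import Pool.Agent.Lib.H56V.J
import Pool.Agent.Lib.H56V.X7
import Pool.Agent.Lib.H56V.G2a

/-! # H56V, chunk G: good graphs -/

set_option autoImplicit false

namespace H56V

open Finset H98P H98Z H98M H63F H96H

variable {V : Type*} [Fintype V] [DecidableEq V]

private theorem px_nb {G : Finset (Sym2 V)} {x : Sym2 V → ℝ} (hx : x ∈ Sx G) {v : V} (h : 0 < cutw x {v}) :
    ∃ w, w ≠ v ∧ s(v, w) ∈ G := by
  by_contra hcon
  push Not at hcon
  have h0 : cutw x {v} = 0 := by
    unfold cutw
    apply Finset.sum_eq_zero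
    intro e _
    by_cases he : e ∈ G
    · have : px e {v} = 0 := by
        unfold px
        rw [if_neg]
        rintro ⟨a, ha, b, hb, rfl⟩
        rw [mem_singleton] at ha hb
        subst ha
        exact hcon b hb he
      rw [this, mul_zero]
    · rw [hx.2.1 e he, zero_mul]
  linarith

private theorem star_av (hV : 4 ≤ Fintype.card V) {G : Finset (Sym2 V)} (hG : ∀ v, s(v, v) ∉ G) {x : Sym2 V → ℝ}
    (hx : x ∈ Sx G) (hg : ∀ v, cutw x {v} = 2 / (Fintype.card V : ℝ)) (c : V) :
    ∃ u, u ≠ c ∧ ∃ w, w ≠ c ∧ s(u, w) ∈ G := by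
  by_contra hcon
  push Not at hcon
  have h1 : cutw x {c} = 1 := by
    unfold cutw
    rw [← hx.2.2]
    apply Finset.sum_congr rfl
    intro e _
    by_cases he : e ∈ G
    · have : px e {c} = 1 := by
        unfold px
        rw [if_pos]
        induction e with
        | h u w =>
          by_cases hu : u = c
          · subst hu
            refine ⟨u, by simp, w, ?_, rfl⟩
            rw [mem_singleton]
            rintro rfl
            exact hG _ he
          · by_cases hw : w = c
            · subst hw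
              refine ⟨w, by simp, u, ?_, Sym2.eq_swap⟩
              rw [mem_singleton]
              exact hu
            · exact absurd he (hcon u hu w hw)
      rw [this, mul_one]
    · rw [hx.2.1 e he, zero_mul]
  rw [hg c] at h1
  have h4 : (4 : ℝ) ≤ (Fintype.card V : ℝ) := by exact_mod_cast hV
  rw [div_eq_one_iff_eq (by linarith)] at h1
  linarith

/-- PROOF: `x ∈ Sx G` good, `n ≥ 4`, all degrees `cutw x {v} = 2/n > 0`: every vertex has a neighbour in `G`. For every `c`
some edge of `G` avoids `c`: otherwise `cutw x {c} = ∑ e, x e = 1 > 2/n` (no loops). -/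
theorem cls_good (hV : 4 ≤ Fintype.card V) {G : Finset (Sym2 V)} (hG : ∀ v, s(v, v) ∉ G) (hg : ∃ x ∈ Sx G, Good x)
    (r : V) : Cls {r} G := by
  obtain ⟨x, hx, hgx⟩ := hg
  have h4 : (4 : ℝ) ≤ (Fintype.card V : ℝ) := by exact_mod_cast hV
  have hnb : ∀ v, ∃ w, w ≠ v ∧ s(v, w) ∈ G := by
    intro v
    apply px_nb hx
    rw [hgx.1 v]
    positivity
  refine ⟨hG, singleton_nonempty r, ?_, ?_, ?_, ?_⟩
  · intro v _
    obtain ⟨w, _, h⟩ := hnb v
    exact ⟨w, h⟩
  · obtain ⟨w, hw, h⟩ := hnb r
    exact ⟨w, by simpa using hw, r, by simp, by rw [Sym2.eq_swap]; exact h⟩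
  · obtain ⟨u, hu, w, hw, h⟩ := star_av hV hG hx hgx.1 r
    exact ⟨u, by simpa using hu, w, by simpa using hw, h⟩
  · intro c hc
    obtain ⟨u, hu, w, hw, h⟩ := star_av hV hG hx hgx.1 c
    by_cases hur : u = r
    · subst hur
      refine ⟨w, ?_, hw, u, hu, by rw [Sym2.eq_swap]; exact h⟩
      rw [mem_singleton]
      rintro rfl
      exact hG _ h
    · exact ⟨u, by simpa using hur, hu, w, hw, h⟩

/-- PROOF: `LG r G` is the join of the boundary of the simplex `V` and of `X T = (cuts pairwise NonX, all NS G)`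
(`hc_join`, `LG r G T ↔ (∃ v, inl v ∉ T) ∧ X T.toRight`); `X` is `FL (TP {r} G)` along `S ↦ S.1.1` (`hc_emb`; a set with
`TP {r} G S` is a nontrivial cut without `r`, as it has an edge inside and an edge outside, no loops; `NonX` is `NX` for sets
that avoid `r`; `NS` and `TP {r}` agree). `m + (n - 1) = G.card - 1`, `G.card + 4 ≤ 2 n` give `m + 3 ≤ n - 1`: `hc_TP`. -/
theorem hc_LG (hV : 4 ≤ Fintype.card V) {G : Finset (Sym2 V)} (hG : ∀ v, s(v, v) ∉ G) (hg : ∃ x ∈ Sx G, Good x)
    (r : V) (hc : G.card + 4 ≤ 2 * Fintype.card V) : HC (LG r G) (G.card - 1) := by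
  exact hc_LG_aux hV hG r (cls_good hV hG hg r) hc

end H56V
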