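import Pool.Agent.Lib.H56V.D

/-! # H56V, chunk K: the size of a family -/

set_option autoImplicit false

namespace H56V

open Finset H98P H98Z H98M H63F H96H

variable {V : Type*} [Fintype V] [DecidableEq V]

/-- A laminar family of subsets of `A`, all with at least `2` elements and different from `A`, has at most `|A| - 2`
members. PROOF: strong induction on `|A|`. If the family is empty: clear. Otherwise let `S` be a member which is maximal
for inclusion. The members inside `S` different from `S` are at most `|S| - 2` (induction), the members disjoint from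
`S`: contract `S` to a point, i.e. replace `A` by `A' = (A \ S) ∪ {s0}` for some `s0 ∈ S`; if `A \ S` itself is a member
use it ... a shorter way: remove a member `S0` of minimal cardinality, pick `a ≠ b` in `S0` and replace `A` by
`A.erase b`, every other member `S` by `S.erase b`: other members contain both `a`, `b` or none of them (they are
disjoint from `S0` or contain it, by minimality), so they keep at least `2` elements (a member of cardinality `2` that
contains `a, b` equals `S0`), stay different, different from `A.erase b`, and laminar. -/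
theorem laminar_card (A : Finset V) (hA : 2 ≤ A.card) (F : Finset (Finset V))
    (h1 : ∀ S ∈ F, S ⊆ A ∧ S ≠ A ∧ 2 ≤ S.card) (h2 : ∀ S ∈ F, ∀ S' ∈ F, NX S S') : F.card + 2 ≤ A.card := by
  have key : ∀ n : ℕ, ∀ A : Finset V, A.card = n → 2 ≤ n → ∀ F : Finset (Finset V),
      (∀ S ∈ F, S ⊆ A ∧ S ≠ A ∧ 2 ≤ S.card) → (∀ S ∈ F, ∀ S' ∈ F, NX S S') → F.card + 2 ≤ n := by
    intro n
    induction n with
    | zero => intro A _ h
              exact absurd h (by omega)
    | succ n ih =>
      intro A hAn hn F h1 h2
      rcases F.eq_empty_or_nonempty with hF | hF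
      · rw [hF, Finset.card_empty]
        omega
      obtain ⟨S0, hS0, hmin⟩ := Finset.exists_min_image F Finset.card hF
      obtain ⟨hs1, hs2, hs3⟩ := h1 S0 hS0
      obtain ⟨a, ha, b, hb, hab⟩ := Finset.one_lt_card.1 hs3
      have hlt : S0.card < A.card := Finset.card_lt_card (lt_of_le_of_ne hs1 hs2)
      have hbA : b ∈ A := hs1 hb
      have haA : a ∈ A := hs1 ha
      -- the other members contain both or none
      have hdi : ∀ S ∈ F, S ≠ S0 → (a ∉ S ∧ b ∉ S) ∨ (a ∈ S ∧ b ∈ S ∧ 3 ≤ S.card) := by
        intro S hS hne
        rcases h2 S hS S0 hS0 with h | h | h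
        · exact Or.inl ⟨fun h3 => Finset.disjoint_left.1 h h3 ha, fun h3 => Finset.disjoint_left.1 h h3 hb⟩
        · exact absurd (Finset.eq_of_subset_of_card_le h (hmin S hS)) hne
        · have h3 : S0.card < S.card := Finset.card_lt_card (lt_of_le_of_ne h (Ne.symm hne))
          exact Or.inr ⟨h ha, h hb, by omega⟩
      have hinj : Set.InjOn (fun S : Finset V => S.erase b) (F.erase S0 : Finset (Finset V)) := by
        intro S hS S' hS' h
        have hS1 := Finset.mem_erase.1 (Finset.mem_coe.1 hS)
        have hS2 := Finset.mem_erase.1 (Finset.mem_coe.1 hS')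
        have h' : S.erase b = S'.erase b := h
        have ha' : a ∈ S ↔ a ∈ S' := by
          have h3 : a ∈ S.erase b ↔ a ∈ S'.erase b := by rw [h']
          rw [Finset.mem_erase, Finset.mem_erase] at h3
          exact ⟨fun h4 => (h3.1 ⟨hab, h4⟩).2, fun h4 => (h3.2 ⟨hab, h4⟩).2⟩
        have hb' : b ∈ S ↔ b ∈ S' := by
          rcases hdi S hS1.2 hS1.1 with h4 | h4 <;> rcases hdi S' hS2.2 hS2.1 with h5 | h5
          · exact ⟨fun h6 => absurd h6 h4.2, fun h6 => absurd h6 h5.2⟩
          · exact absurd (ha'.2 h5.1) h4.1
          · exact absurd (ha'.1 h4.1) h5.1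
          · exact ⟨fun _ => h5.2.1, fun _ => h4.2.1⟩
        ext z
        by_cases hz : z = b
        · rw [hz]
          exact hb'
        · have h3 : z ∈ S.erase b ↔ z ∈ S'.erase b := by rw [h']
          rw [Finset.mem_erase, Finset.mem_erase] at h3
          exact ⟨fun h4 => (h3.1 ⟨hz, h4⟩).2, fun h4 => (h3.2 ⟨hz, h4⟩).2⟩
      have h3 := ih (A.erase b) (by rw [Finset.card_erase_of_mem hbA, hAn, Nat.add_sub_cancel]) (by omega)
        ((F.erase S0).image fun S => S.erase b) (by
          intro S' hS'
          obtain ⟨S, hS, rfl⟩ := Finset.mem_image.1 hS'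
          obtain ⟨hne, hSF⟩ := Finset.mem_erase.1 hS
          obtain ⟨k1, k2, k3⟩ := h1 S hSF
          refine ⟨Finset.erase_subset_erase b k1, ?_, ?_⟩
          · intro h
            rcases hdi S hSF hne with h4 | h4
            · have h5 : a ∈ A.erase b := Finset.mem_erase.2 ⟨hab, haA⟩
              rw [← h] at h5
              exact h4.1 (Finset.mem_of_mem_erase h5)
            · apply k2
              rw [← Finset.insert_erase h4.2.1, ← Finset.insert_erase hbA, h]
          · rcases hdi S hSF hne with h4 | h4
            · rw [Finset.erase_eq_of_notMem h4.2]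
              exact k3
            · rw [Finset.card_erase_of_mem h4.2.1]
              omega)
        (by
          intro S' hS' U' hU'
          obtain ⟨S, hS, rfl⟩ := Finset.mem_image.1 hS'
          obtain ⟨U, hU, rfl⟩ := Finset.mem_image.1 hU'
          rcases h2 S (Finset.mem_of_mem_erase hS) U (Finset.mem_of_mem_erase hU) with h | h | h
          · exact Or.inl (Finset.disjoint_of_subset_left (Finset.erase_subset _ _)
              (Finset.disjoint_of_subset_right (Finset.erase_subset _ _) h))
          · exact Or.inr (Or.inl (Finset.erase_subset_erase b h))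
          · exact Or.inr (Or.inr (Finset.erase_subset_erase b h)))
      rw [Finset.card_image_of_injOn hinj, Finset.card_erase_of_mem hS0] at h3
      have h4 : 0 < F.card := Finset.card_pos.2 hF
      omega
  exact key A.card A rfl hA F h1 h2

/-- PROOF: at most `n - 1` vertices and, by `laminar_card` for `A = univ.erase r`, at most `n - 3` cuts (`NonX` is `NX` for
sets that avoid `r`). -/
theorem card_LP (hV : 4 ≤ Fintype.card V) {r : V} {T : Finset (Sp V r)} (hT : LP r T) :
    T.card + 4 ≤ 2 * Fintype.card V := by
  classical
  obtain ⟨hT1, v, hv⟩ := hT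
  have hL : T.toLeft.card + 1 ≤ Fintype.card V := by
    have h1 : T.toLeft ⊆ univ.erase v := by
      intro w hw
      rw [Finset.mem_toLeft] at hw
      refine Finset.mem_erase.2 ⟨fun h => ?_, Finset.mem_univ _⟩
      rw [h] at hw
      exact hv hw
    have h2 := Finset.card_le_card h1
    rw [Finset.card_erase_of_mem (Finset.mem_univ v), Finset.card_univ] at h2
    omega
  have hinj : Function.Injective (fun S : {S : NCut V // r ∉ S.1} => S.1.1) := by
    intro S S' h
    exact Subtype.ext (Subtype.ext h)
  have hR := laminar_card (univ.erase r) (by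
      rw [Finset.card_erase_of_mem (Finset.mem_univ r), Finset.card_univ]
      omega) (T.toRight.image fun S : {S : NCut V // r ∉ S.1} => S.1.1) (by
      intro S' hS'
      obtain ⟨S, hS, rfl⟩ := Finset.mem_image.1 hS'
      refine ⟨fun w hw => Finset.mem_erase.2 ⟨fun h => S.2 (h ▸ hw), Finset.mem_univ _⟩, fun h => ?_, S.1.2.1⟩
      have h3 := S.1.2.2
      rw [Finset.card_sdiff_of_subset (Finset.subset_univ _), h, Finset.card_erase_of_mem (Finset.mem_univ r),
        Finset.card_univ] at h3
      omega) (by
      intro S' hS' U' hU'
      obtain ⟨S, hS, rfl⟩ := Finset.mem_image.1 hS'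
      obtain ⟨U, hU, rfl⟩ := Finset.mem_image.1 hU'
      rcases hT1 S U (Finset.mem_toRight.1 hS) (Finset.mem_toRight.1 hU) with h | h | h | h
      · exact Or.inl (Finset.disjoint_iff_inter_eq_empty.2 h)
      · exact Or.inr (Or.inl h)
      · exact Or.inr (Or.inr h)
      · exfalso
        have h4 := Finset.mem_univ r
        rw [← h] at h4
        rcases Finset.mem_union.1 h4 with h5 | h5
        · exact S.2 h5
        · exact U.2 h5)
  rw [Finset.card_image_of_injective _ hinj, Finset.card_erase_of_mem (Finset.mem_univ r), Finset.card_univ] at hR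
  have h := Finset.card_toLeft_add_card_toRight (u := T)
  omega

end H56V
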