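import Pool.Agent.Lib.H56V.Q2
import Pool.Agent.Lib.H96H.T2

/-! # H56V, chunk Q3: hypothesis (a) -/

set_option autoImplicit false

namespace H56V

open Finset H98P H98Z H98M H63F H96H

variable {V : Type*} [Fintype V] [DecidableEq V]

private theorem q3_px_compl (e : Sym2 V) (S : Finset V) : px e (univ \ S) = px e S := by
  unfold px
  have h : (∃ a ∈ univ \ S, ∃ b, b ∉ univ \ S ∧ e = s(a, b)) ↔
      ∃ a ∈ S, ∃ b, b ∉ S ∧ e = s(a, b) := by
    constructor
    · rintro ⟨a, ha, b, hb, he⟩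
      refine ⟨b, ?_, a, ?_, ?_⟩
      · by_contra hb'
        exact hb (Finset.mem_sdiff.2 ⟨Finset.mem_univ b, hb'⟩)
      · exact (Finset.mem_sdiff.1 ha).2
      · rw [he, Sym2.eq_swap]
    · rintro ⟨a, ha, b, hb, he⟩
      refine ⟨b, Finset.mem_sdiff.2 ⟨Finset.mem_univ b, hb⟩, a, ?_, ?_⟩
      · intro ha'
        exact (Finset.mem_sdiff.1 ha').2 ha
      · rw [he, Sym2.eq_swap]
  by_cases h2 : ∃ a ∈ S, ∃ b, b ∉ S ∧ e = s(a, b)
  · rw [if_pos h2, if_pos (h.2 h2)]
  · rw [if_neg h2, if_neg fun h3 => h2 (h.1 h3)]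

private theorem q3_cutw_compl (x : Sym2 V → ℝ) (S : Finset V) : cutw x (univ \ S) = cutw x S := by
  unfold cutw
  exact Finset.sum_congr rfl fun e _ => by rw [q3_px_compl]

private theorem q3_nonX {S T : Finset V} (h : NonX S T) : NonX (univ \ S) T := by
  unfold NonX at h ⊢
  rcases h with h | h | h | h
  · refine Or.inr (Or.inr (Or.inl ?_))
    intro v hv
    rw [mem_sdiff]
    refine ⟨mem_univ v, fun hS => ?_⟩
    have h2 : v ∈ S ∩ T := mem_inter.2 ⟨hS, hv⟩
    rw [h] at h2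
    exact absurd h2 (by simp)
  · refine Or.inr (Or.inr (Or.inr ?_))
    ext v
    simp only [mem_union, mem_sdiff, mem_univ, true_and, iff_true]
    by_cases hv : v ∈ S
    · exact Or.inr (h hv)
    · exact Or.inl hv
  · refine Or.inl ?_
    ext v
    simp only [mem_inter, mem_sdiff, mem_univ, true_and, notMem_empty, iff_false, not_and]
    exact fun h1 h2 => h1 (h h2)
  · refine Or.inr (Or.inl ?_)
    intro v hv
    have h2 : v ∈ S ∪ T := by rw [h]; exact mem_univ v
    rcases mem_union.1 h2 with h3 | h3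
    · exact absurd h3 (mem_sdiff.1 hv).2
    · exact h3

private theorem q3_in (hV : 4 ≤ Fintype.card V) {G : Finset (Sym2 V)} (hG : ∀ v, s(v, v) ∉ G) {x : Sym2 V → ℝ}
    (hx : x ∈ Sx G) (hdeg : ∀ u, cutw x {u} = 2 / (Fintype.card V : ℝ)) {S : Finset V} (h2 : 2 ≤ S.card)
    (hS : cutw x S = 2 / (Fintype.card V : ℝ)) : ∃ u ∈ S, ∃ w ∈ S, s(u, w) ∈ G := by
  refine inside hG hx ?_
  have hn : (0 : ℝ) < Fintype.card V := by
    have : 0 < Fintype.card V := by omega
    exact_mod_cast this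
  have hl0 : (0 : ℝ) < 2 / (Fintype.card V : ℝ) := by positivity
  rw [hS, sum_congr rfl fun v _ => hdeg v, sum_const, nsmul_eq_mul]
  have h3 : (2 : ℝ) ≤ S.card := by exact_mod_cast h2
  nlinarith

/-- PROOF: as `H96H.hyp_a` (`H96H/A3.lean`). If no vertex minimizes: `caseNP`. If one does and its payoff is negative:
`caseVP`. Otherwise all payoffs are `≥ 0`; the sum of the vertex payoffs is `0` (`sum_dev`), so all degrees are `2/n`
and all cuts are `≥ 2/n` (for `r ∈ S` pass to the complement). `¬ Good x` and `tight_lemma` give a tight nontrivial `S0`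
which is crossed by no tight nontrivial cut; `S0` or its complement does not contain `r`: `caseSP` (`NS` by `inside`:
`2/n < |S0| * (2/n)`). -/
theorem hyp_aP (hV : 4 ≤ Fintype.card V) {r : V} {G : Finset (Sym2 V)} (hG : ∀ v, s(v, v) ∉ G) {x : Sym2 V → ℝ}
    (hx : x ∈ Sx G) (hg : ¬ Good x) :
    AC fun T : Finset (Sp V r) => LG r G T ∧ Amin (pq r) (fun _ => 0) x T := by
  classical
  have h0 : ∀ e, 0 ≤ x e := hx.1
  have h1 : ∑ e, x e = 1 := hx.2.2
  have hl : ∀ v, x s(v, v) = 0 := fun v => hx.2.1 _ (hG v)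
  have hpv : ∀ v : V, pay (pq r) (fun _ => 0) x (Sum.inl v : Sp V r) = cutw x {v} - 2 / (Fintype.card V : ℝ) :=
    fun v => pay_pos h1 hl v
  have hpc : ∀ S : {S : NCut V // r ∉ S.1}, pay (pq r) (fun _ => 0) x (Sum.inr S : Sp V r) =
      cutw x S.1.1 - 2 / (Fintype.card V : ℝ) := fun S => pay_cut h1 hl S.1
  by_cases hN : ∀ v : V, ¬ Amin (pq r) (fun _ => 0) x ({Sum.inl v} : Finset (Sp V r))
  · exact caseNP hV hG hx hN
  push Not at hN
  obtain ⟨v, hv⟩ := hN
  by_cases hP : pay (pq r) (fun _ => 0) x (Sum.inl v : Sp V r) < 0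
  · exact caseVP hV h1 hl v hv hP
  push Not at hP
  have hall : ∀ S' : Sp V r, 0 ≤ pay (pq r) (fun _ => 0) x S' := fun S' =>
    hP.trans (hv _ (Finset.mem_singleton_self _) S')
  have hn : (0 : ℝ) < Fintype.card V := by
    have : 0 < Fintype.card V := by omega
    exact_mod_cast this
  have hl0 : (0 : ℝ) < 2 / (Fintype.card V : ℝ) := by positivity
  have hdeg : ∀ u, cutw x {u} = 2 / (Fintype.card V : ℝ) := by
    have hs := sum_dev hV h1 hl
    have hnn : ∀ u ∈ (univ : Finset V), 0 ≤ cutw x {u} - 2 / (Fintype.card V : ℝ) := by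
      intro u _
      rw [← hpv u]
      exact hall _
    intro u
    have := (sum_eq_zero_iff_of_nonneg hnn).1 hs u (mem_univ u)
    linarith
  have hN' : ∀ S : NCut V, 2 / (Fintype.card V : ℝ) ≤ cutw x S.1 := by
    have hN0 : ∀ S : {S : NCut V // r ∉ S.1}, 2 / (Fintype.card V : ℝ) ≤ cutw x S.1.1 := by
      intro S
      have e1 := hall (Sum.inr S)
      rw [hpc] at e1
      linarith
    intro T
    by_cases hr : r ∈ T.1
    · have hcc : univ \ (univ \ T.1) = T.1 := Finset.sdiff_sdiff_eq_self (subset_univ _)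
      have h2 := hN0 ⟨⟨univ \ T.1, T.2.2, by rw [hcc]; exact T.2.1⟩, by simp [hr]⟩
      rw [← q3_cutw_compl x T.1]
      exact h2
    · exact hN0 ⟨T, hr⟩
  have hcut : ∀ S : Finset V, S.Nonempty → S ≠ univ → 2 / (Fintype.card V : ℝ) ≤ cutw x S := by
    intro S hS hS'
    have hc : (univ \ S).Nonempty := by
      rw [Finset.sdiff_nonempty]
      intro h
      exact hS' (Finset.univ_subset_iff.1 h)
    by_cases c1 : S.card = 1
    · obtain ⟨u, hu⟩ := Finset.card_eq_one.1 c1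
      rw [hu, hdeg]
    by_cases c2 : (univ \ S).card = 1
    · obtain ⟨u, hu⟩ := Finset.card_eq_one.1 c2
      rw [← q3_cutw_compl, hu, hdeg]
    have d1 := Finset.card_pos.2 hS
    have d2 := Finset.card_pos.2 hc
    exact hN' ⟨S, by omega, by omega⟩
  have hGd : ¬ ((∀ e, x e = 0 ∨ x e = 1 / (Fintype.card V : ℝ)) ∨
      ∀ S : NCut V, 2 / (Fintype.card V : ℝ) < cutw x S.1) := fun h => hg ⟨hdeg, hcut, h⟩
  rw [not_or] at hGd
  obtain ⟨g1, g2⟩ := hGd
  push Not at g2
  obtain ⟨S1, hS1⟩ := g2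
  have hex : ∃ S : NCut V, cutw x S.1 = 2 / (Fintype.card V : ℝ) := ⟨S1, le_antisymm hS1 (hN' S1)⟩
  have hcr : ¬ ∀ S : NCut V, cutw x S.1 = 2 / (Fintype.card V : ℝ) →
      ∃ S' : NCut V, cutw x S'.1 = 2 / (Fintype.card V : ℝ) ∧ ¬ NonX S.1 S'.1 := by
    intro hcr
    apply g1
    intro e
    have e1 := tight_lemma h0 hl hl0 hdeg hcut hex hcr e
    have e2 : 2 / (Fintype.card V : ℝ) / 2 = 1 / (Fintype.card V : ℝ) := by ring
    rwa [e2] at e1
  push Not at hcr
  obtain ⟨S0, hS0, hX⟩ := hcr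
  have htight : ∀ S : {S : NCut V // r ∉ S.1}, Amin (pq r) (fun _ => 0) x ({Sum.inr S} : Finset (Sp V r)) →
      cutw x S.1.1 = 2 / (Fintype.card V : ℝ) := by
    intro S hS
    have e1 := hS _ (mem_singleton_self _) (Sum.inl v)
    have e2 := hall (Sum.inr S)
    rw [hpc] at e1 e2
    rw [hpv, hdeg] at e1
    linarith
  have hAm : ∀ S : {S : NCut V // r ∉ S.1}, cutw x S.1.1 = 2 / (Fintype.card V : ℝ) →
      Amin (pq r) (fun _ => 0) x ({Sum.inr S} : Finset (Sp V r)) := by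
    intro S hS S2 hS2 S'
    rw [mem_singleton.1 hS2, hpc, hS, sub_self]
    exact hall S'
  have hi1 := q3_in hV hG hx hdeg S0.2.1 hS0
  have hi2 := q3_in hV hG hx hdeg S0.2.2 (by rw [q3_cutw_compl]; exact hS0)
  by_cases hr : r ∈ S0.1
  · have hcc : univ \ (univ \ S0.1) = S0.1 := Finset.sdiff_sdiff_eq_self (subset_univ _)
    refine caseSP ⟨⟨univ \ S0.1, S0.2.2, by rw [hcc]; exact S0.2.1⟩, by simp [hr]⟩ ?_ ?_ ?_
    · refine ⟨hi2, ?_⟩
      obtain ⟨u, hu, w, hw, h⟩ := hi1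
      exact ⟨u, by simp [hu], w, by simp [hw], h⟩
    · exact hAm _ (by
        show cutw x (univ \ S0.1) = _
        rw [q3_cutw_compl]
        exact hS0)
    · intro S hS
      exact q3_nonX (hX S.1 (htight S hS))
  · refine caseSP ⟨S0, hr⟩ ?_ (hAm _ hS0) (fun S hS => hX S.1 (htight S hS))
    refine ⟨hi1, ?_⟩
    obtain ⟨u, hu, w, hw, h⟩ := hi2
    exact ⟨u, by simpa using hu, w, by simpa using hw, h⟩

end H56V
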