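import Pool.Agent.Lib.H56V.D
import Pool.Agent.Lib.H96H.B2

/-! # H56V, chunk B: hypothesis (b) -/

set_option autoImplicit false

namespace H56V

open Finset H98P H98Z H98M H63F H96H

variable {V : Type*} [Fintype V] [DecidableEq V]

/-- PROOF: push everything forward with the injective map `io`: `T' = T.image io` satisfies `LL` (the vertices `v-` do
not occur; `V` is nonempty), `μ' t = ∑ s, if io s = t then μ s else 0` is in `Sx T'` and `mm pp μ' e = mm (pq r) μ e`, so
`Amax pp μ' G ↔ Amax (pq r) μ G`; use `H96H.hyp_b`. -/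
theorem hyp_bP (hV : 4 ≤ Fintype.card V) {cross : Sym2 V → Sym2 V → Prop}
    (hsymm : ∀ e f, cross e f → cross f e) (hHD : ∀ W : Finset V, HD cross W) {r : V} {T : Finset (Sp V r)}
    (hT : LP r T) {μ : Sp V r → ℝ} (hμ : μ ∈ Sx T) :
    AC fun G : Finset (Sym2 V) => KK cross G ∧ Amax (pq r) μ G := by
  classical
  have hinj : ∀ s t : Sp V r, io s = io t → s = t := by
    rintro (v | S) (v' | S') h
    · have h1 : (v, true) = (v', true) := Sum.inl_injective h
      rw [(Prod.mk.inj h1).1]
    · exact absurd h (by simp [io])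
    · exact absurd h (by simp [io])
    · have h1 : S.1 = S'.1 := Sum.inr_injective h
      rw [Subtype.ext h1]
  obtain ⟨hμ0, hμT, hμ1⟩ := hμ
  have hT' : LL (T.image io) := by
    refine ⟨?_, ?_, ?_⟩
    · intro S S' hS hS'
      rw [Finset.mem_image] at hS hS'
      obtain ⟨s, hs, hs1⟩ := hS
      obtain ⟨s', hs', hs1'⟩ := hS'
      rcases s with v | S1
      · exact absurd hs1 (by simp [io])
      rcases s' with v | S1'
      · exact absurd hs1' (by simp [io])
      have h1 : S1.1 = S := Sum.inr_injective hs1
      have h2 : S1'.1 = S' := Sum.inr_injective hs1'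
      rw [← h1, ← h2]
      exact hT.1 S1 S1' hs hs'
    · rintro v ⟨-, h2⟩
      rw [Finset.mem_image] at h2
      obtain ⟨s, hs, hs1⟩ := h2
      rcases s with v' | S1
      · exact absurd hs1 (by simp [io])
      · exact absurd hs1 (by simp [io])
    · intro b
      obtain ⟨v, hv⟩ := hT.2
      refine ⟨v, fun h2 => hv ?_⟩
      rw [Finset.mem_image] at h2
      obtain ⟨s, hs, hs1⟩ := h2
      rcases s with v' | S1
      · have h3 : (v', true) = (v, b) := Sum.inl_injective hs1
        rw [(Prod.mk.inj h3).1] at hs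
        exact hs
      · exact absurd hs1 (by simp [io])
  let μ' : St V → ℝ := fun t => ∑ s, if io s = t then μ s else 0
  have hμ' : μ' ∈ Sx (T.image io) := by
    refine ⟨fun t => Finset.sum_nonneg fun s _ => ?_, fun t ht => Finset.sum_eq_zero fun s _ => ?_, ?_⟩
    · split_ifs
      · exact hμ0 s
      · exact le_rfl
    · split_ifs with h1
      · exact hμT s fun h2 => ht (Finset.mem_image.2 ⟨s, h2, h1⟩)
      · rfl
    · change ∑ t, ∑ s, (if io s = t then μ s else 0) = 1
      rw [Finset.sum_comm, ← hμ1]
      exact Finset.sum_congr rfl fun s _ => by simp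
  have hmm : ∀ e : Sym2 V, mm pp μ' e = mm (pq r) μ e := by
    intro e
    change ∑ t, (∑ s, (if io s = t then μ s else 0)) * pp e t = ∑ s, μ s * pp e (io s)
    simp only [Finset.sum_mul]
    rw [Finset.sum_comm]
    exact Finset.sum_congr rfl fun s _ => by simp
  have key := H96H.hyp_b hV hsymm hHD hT' hμ'
  simpa only [Amax, hmm] using key

end H56V
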