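import Pool.Agent.Lib.H56V.D
import Pool.Agent.Lib.H96H.C1

/-! # H56V, chunk C: there is no equilibrium -/

set_option autoImplicit false

namespace H56V

open Finset H98P H98Z H98M H63F H96H

variable {V : Type*} [Fintype V] [DecidableEq V]

private theorem cp_px {a b : V} (hab : a ≠ b) (v : V) :
    px s(a, b) {v} = (if v = a then (1 : ℝ) else 0) + (if v = b then (1 : ℝ) else 0) := by
  unfold px
  by_cases h1 : v = a
  · subst h1
    rw [if_pos ⟨v, mem_singleton_self v, b, by
      rw [mem_singleton]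
      exact hab.symm, rfl⟩, if_pos rfl, if_neg hab, add_zero]
  · by_cases h2 : v = b
    · subst h2
      rw [if_pos ⟨v, mem_singleton_self v, a, by
        rw [mem_singleton]
        exact hab, Sym2.eq_swap⟩, if_neg h1, if_pos rfl, zero_add]
    · rw [if_neg, if_neg h1, if_neg h2, add_zero]
      rintro ⟨c, hc, d, hd, he⟩
      rw [mem_singleton] at hc
      subst hc
      rw [Sym2.eq_iff] at he
      rcases he with ⟨h3, _⟩ | ⟨_, h3⟩
      · exact h1 h3.symm
      · exact h2 h3.symm

/-- PROOF: as `H96H.no_equilibrium` (`H96H/C2.lean`), simpler. `m` = the common payoff of the members of `T` against `x`;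
`m ≤ 0`, as `∑ v, (cutw x {v} - 2/n) = 0` (`sum_dev`) so some vertex has payoff `≤ 0`. `c e = mm (pq r) μ e` is maximal
on `G`, so `max c = m ≤ 0`; the sum of `c` over the non-loops is `≥ 0` (`sum_vert`, `sum_ncut`), so `c = 0` on non-loops
and `μ S = 0` for all cuts; then `u a + u b` is constant for `a ≠ b`, `u v = μ (v)`, `u` is constant and `> 0`, so all
vertices are in `T`: contradiction to `LP`. -/
theorem no_eqP (hV : 4 ≤ Fintype.card V) {r : V} {G : Finset (Sym2 V)} (hG : ∀ v, s(v, v) ∉ G) {x : Sym2 V → ℝ}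
    (hx : x ∈ Sx G) {T : Finset (Sp V r)} (hT : LP r T) (hmin : Amin (pq r) (fun _ => 0) x T) {μ : Sp V r → ℝ}
    (hμ : μ ∈ Sx T) (hmax : Amax (pq r) μ G) : False := by
  obtain ⟨hx0, hx1, hx2⟩ := hx
  obtain ⟨hm0, hm1, hm2⟩ := hμ
  obtain ⟨-, v1, hv1⟩ := hT
  have hVne : Nonempty V := Fintype.card_pos_iff.1 (by omega)
  have hl : ∀ v, x s(v, v) = 0 := fun v => hx1 _ (hG v)
  have hTne : T.Nonempty := by
    by_contra h
    rw [not_nonempty_iff_eq_empty] at h
    have h1 : ∑ e, μ e = 0 := sum_eq_zero fun e _ => hm1 e (by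
      rw [h]
      exact notMem_empty _)
    rw [hm2] at h1
    exact one_ne_zero h1
  obtain ⟨S0, hS0⟩ := hTne
  obtain ⟨m, hm⟩ : ∃ m, pay (pq r) (fun _ => (0 : ℝ)) x S0 = m := ⟨_, rfl⟩
  have hTm : ∀ S ∈ T, pay (pq r) (fun _ => (0 : ℝ)) x S = m := fun S hS => by
    rw [← hm]
    exact le_antisymm (hmin S hS S0) (hmin S0 hS0 S)
  have hn0 : (0 : ℝ) < (Fintype.card V : ℝ) := by
    have : 0 < Fintype.card V := by omega
    exact_mod_cast this
  have hm' : m ≤ 0 := by
    have h1 : ∀ v : V, m ≤ cutw x {v} - 2 / (Fintype.card V : ℝ) := by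
      intro v
      have h2 := hmin S0 hS0 (Sum.inl v)
      rw [hm] at h2
      have h3 : pay (pq r) (fun _ => (0 : ℝ)) x (Sum.inl v : Sp V r) =
          pay pp (fun _ => 0) x (Sum.inl (v, true) : St V) := rfl
      rw [h3, pay_pos hx2 hl] at h2
      exact h2
    have h2 : ∑ _v : V, m ≤ ∑ v : V, (cutw x {v} - 2 / (Fintype.card V : ℝ)) :=
      sum_le_sum fun v _ => h1 v
    rw [sum_dev hV hx2 hl, sum_const, card_univ, nsmul_eq_mul] at h2
    by_contra h3
    push Not at h3
    have := mul_pos hn0 h3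
    linarith
  have hfub : ∑ e, x e * mm (pq r) μ e = ∑ S, μ S * pay (pq r) (fun _ => (0 : ℝ)) x S := by
    unfold mm pay
    simp only [add_zero, mul_sum]
    rw [sum_comm]
    exact sum_congr rfl fun S _ => sum_congr rfl fun e _ => by ring
  have hR : ∑ S, μ S * pay (pq r) (fun _ => (0 : ℝ)) x S = m := by
    have h1 : ∀ S, μ S * pay (pq r) (fun _ => (0 : ℝ)) x S = μ S * m := by
      intro S
      by_cases hS : S ∈ T
      · rw [hTm S hS]
      · rw [hm1 S hS, zero_mul, zero_mul]
    rw [sum_congr rfl fun S _ => h1 S, ← sum_mul, hm2, one_mul]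
  have hGne : G.Nonempty := by
    by_contra h
    rw [not_nonempty_iff_eq_empty] at h
    have h1 : ∑ e, x e = 0 := sum_eq_zero fun e _ => hx1 e (by
      rw [h]
      exact notMem_empty _)
    rw [hx2] at h1
    exact one_ne_zero h1
  obtain ⟨e0, he0⟩ := hGne
  have hL : ∑ e, x e * mm (pq r) μ e = mm (pq r) μ e0 := by
    have h1 : ∀ e, x e * mm (pq r) μ e = x e * mm (pq r) μ e0 := by
      intro e
      by_cases he : e ∈ G
      · rw [le_antisymm (hmax e0 he0 e) (hmax e he e0)]
      · rw [hx1 e he, zero_mul, zero_mul]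
    rw [sum_congr rfl fun e _ => h1 e, ← sum_mul, hx2, one_mul]
  have hle : ∀ f, mm (pq r) μ f ≤ 0 := fun f => (hmax e0 he0 f).trans (by
    rw [← hL, hfub, hR]
    exact hm')
  have hsum : ∑ e ∈ (univ : Finset (Sym2 V)).filter (fun e => ¬ e.IsDiag), mm (pq r) μ e =
      ∑ S, μ S * ∑ e ∈ (univ : Finset (Sym2 V)).filter (fun e => ¬ e.IsDiag), pq r e S := by
    unfold mm
    rw [sum_comm]
    exact sum_congr rfl fun S _ => (mul_sum _ _ _).symm
  have hvert : ∀ v : V, ∑ e ∈ (univ : Finset (Sym2 V)).filter (fun e => ¬ e.IsDiag),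
      pq r e (Sum.inl v : Sp V r) = 0 := fun v => sum_vert hV v true
  have hncut : ∀ S : {S : NCut V // r ∉ S.1}, 0 < ∑ e ∈ (univ : Finset (Sym2 V)).filter (fun e => ¬ e.IsDiag),
      pq r e (Sum.inr S : Sp V r) := fun S => sum_ncut hV S.1
  have hterm : ∀ S : Sp V r,
      0 ≤ μ S * ∑ e ∈ (univ : Finset (Sym2 V)).filter (fun e => ¬ e.IsDiag), pq r e S := by
    rintro (v | S)
    · rw [hvert, mul_zero]
    · exact mul_nonneg (hm0 _) (hncut S).le
  have hz : ∑ e ∈ (univ : Finset (Sym2 V)).filter (fun e => ¬ e.IsDiag), mm (pq r) μ e = 0 :=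
    le_antisymm (sum_nonpos fun e _ => hle e) (by
      rw [hsum]
      exact sum_nonneg fun S _ => hterm S)
  have hc : ∀ e : Sym2 V, ¬ e.IsDiag → mm (pq r) μ e = 0 := fun e he =>
    (sum_eq_zero_iff_of_nonpos fun e _ => hle e).1 hz e (mem_filter.2 ⟨mem_univ e, he⟩)
  have hcut : ∀ S : {S : NCut V // r ∉ S.1}, μ (Sum.inr S) = 0 := by
    intro S
    have h1 : ∑ S, μ S * ∑ e ∈ (univ : Finset (Sym2 V)).filter (fun e => ¬ e.IsDiag), pq r e S = 0 := by
      rw [← hsum, hz]
    have h2 := (sum_eq_zero_iff_of_nonneg fun S _ => hterm S).1 h1 (Sum.inr S) (mem_univ _)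
    rcases mul_eq_zero.1 h2 with h3 | h3
    · exact h3
    · exact absurd h3 (hncut S).ne'
  have hu : ∀ a b : V, a ≠ b → μ (Sum.inl a) + μ (Sum.inl b) =
      2 / (Fintype.card V : ℝ) * ∑ v : V, μ (Sum.inl v) := by
    intro a b hab
    have hd : ¬ (s(a, b) : Sym2 V).IsDiag := by
      rw [Sym2.mk_isDiag_iff]
      exact hab
    have h1 := hc s(a, b) hd
    unfold mm at h1
    rw [Fintype.sum_sum_type] at h1
    have h2 : ∑ S : {S : NCut V // r ∉ S.1}, μ (Sum.inr S) * pq r s(a, b) (Sum.inr S : Sp V r) = 0 :=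
      sum_eq_zero fun S _ => by rw [hcut S, zero_mul]
    rw [h2, add_zero] at h1
    have h3 : ∀ v : V, μ (Sum.inl v) * pq r s(a, b) (Sum.inl v : Sp V r) =
        (if v = a then μ (Sum.inl v) else 0) + (if v = b then μ (Sum.inl v) else 0) -
          2 / (Fintype.card V : ℝ) * μ (Sum.inl v) := by
      intro v
      have h4 : pq r s(a, b) (Sum.inl v : Sp V r) = px s(a, b) {v} - 2 / (Fintype.card V : ℝ) := by
        unfold pq io pp
        simp only [hd, if_false, if_true, one_mul]
      rw [h4, cp_px hab]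
      split_ifs <;> ring
    rw [sum_congr rfl fun v _ => h3 v, sum_sub_distrib, sum_add_distrib, ← mul_sum,
      sum_ite_eq' univ a (fun v => μ (Sum.inl v)), sum_ite_eq' univ b (fun v => μ (Sum.inl v)),
      if_pos (mem_univ _), if_pos (mem_univ _)] at h1
    linarith
  have hthird : ∀ b c : V, ∃ a, a ≠ b ∧ a ≠ c := by
    intro b c
    by_contra h
    push Not at h
    have h1 : (univ : Finset V) ⊆ {b, c} := fun a _ => by
      rw [mem_insert, mem_singleton]
      by_cases h2 : a = b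
      · exact Or.inl h2
      · exact Or.inr (h a h2)
    have h2 := card_le_card h1
    have h3 : ({b, c} : Finset V).card ≤ 2 := card_le_two
    rw [card_univ] at h2
    omega
  have hv0 : μ (Sum.inl v1) = 0 := hm1 _ hv1
  have hconst : ∀ b, μ (Sum.inl b) = 0 := by
    intro b
    obtain ⟨a, h1, h2⟩ := hthird b v1
    have h3 := hu a b h1
    have h4 := hu a v1 h2
    linarith
  have hall : ∀ S : Sp V r, μ S = 0 := by
    rintro (v | S)
    · exact hconst v
    · exact hcut S
  rw [sum_congr rfl fun S _ => hall S, sum_const_zero] at hm2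
  exact zero_ne_one hm2

end H56V
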