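import Pool.Agent.Lib.H56V.D
import Pool.Agent.Lib.H96H.C1

/-! # H56V, chunk N: no weighting of a family of `LG r G` is maximal on a good `G` -/

set_option autoImplicit false

namespace H56V

open Finset H98P H98Z H98M H63F H96H

variable {V : Type*} [Fintype V] [DecidableEq V]

private theorem n_px (a b : V) (S : Finset V) : px s(a, b) S = if (a ∈ S ↔ b ∈ S) then 0 else 1 := by
  unfold px
  by_cases ha : a ∈ S <;> by_cases hb : b ∈ S
  · rw [if_neg, if_pos (by simp [ha, hb])]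
    rintro ⟨x, hx, y, hy, h⟩
    rcases Sym2.eq_iff.1 h with ⟨h1, h2⟩ | ⟨h1, h2⟩
    · exact hy (h2 ▸ hb)
    · exact hy (h1 ▸ ha)
  · rw [if_pos ⟨a, ha, b, hb, rfl⟩, if_neg (by simp [ha, hb])]
  · rw [if_pos ⟨b, hb, a, ha, Sym2.eq_swap⟩, if_neg (by simp [ha, hb])]
  · rw [if_neg, if_pos (by simp [ha, hb])]
    rintro ⟨x, hx, y, hy, h⟩
    rcases Sym2.eq_iff.1 h with ⟨h1, h2⟩ | ⟨h1, h2⟩
    · exact ha (h1 ▸ hx)
    · exact hb (h2 ▸ hx)

private theorem n_pv {a b : V} (hab : a ≠ b) (v : V) :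
    px s(a, b) {v} = (if v = a then (1 : ℝ) else 0) + (if v = b then (1 : ℝ) else 0) := by
  rw [n_px]
  by_cases h1 : v = a
  · subst h1
    rw [if_neg (by simp [hab.symm]), if_pos rfl, if_neg hab, add_zero]
  · by_cases h2 : v = b
    · subst h2
      rw [if_neg (by simp [hab]), if_neg h1, if_pos rfl, zero_add]
    · rw [if_pos (by simp [Ne.symm h1, Ne.symm h2]), if_neg h1, if_neg h2, add_zero]

private theorem n_inl {a b : V} (hab : a ≠ b) (r v : V) :
    pq r s(a, b) (Sum.inl v) =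
      (if v = a then (1 : ℝ) else 0) + (if v = b then (1 : ℝ) else 0) - 2 / (Fintype.card V : ℝ) := by
  have hd : ¬ (s(a, b) : Sym2 V).IsDiag := by
    rw [Sym2.mk_isDiag_iff]
    exact hab
  rw [← n_pv hab]
  unfold pq io pp
  simp only [hd, if_false, if_true, one_mul]

private theorem n_inr {a b : V} (hab : a ≠ b) {r : V} (S : {S : NCut V // r ∉ S.1}) :
    pq r s(a, b) (Sum.inr S) = (if (a ∈ S.1.1 ↔ b ∈ S.1.1) then (0 : ℝ) else 1) - 2 / (Fintype.card V : ℝ) := by
  have hd : ¬ (s(a, b) : Sym2 V).IsDiag := by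
    rw [Sym2.mk_isDiag_iff]
    exact hab
  rw [← n_px]
  unfold pq io pp
  simp only [hd, if_false]

/-- The 4 point step. PROOF: `NS G S0` gives `s(a, b), s(c, d) ∈ G`, `a, b ∈ S0`, `c, d ∉ S0`. Put
`c e = mm (pq r) μ e`; `D = c s(a,c) + c s(b,d) + c s(a,d) + c s(b,c) - 2 (c s(a,b) + c s(c,d))`. All six edges are not
loops. `D = ∑ t, μ t * D_t` with `D_t = 0` for a vertex `t` (count) and for a cut `S` of `T`: `D_S ≥ 0`, by the
membership pattern of `a, b, c, d` in `S`: one element separated `0`, `ab|cd` gives `4`, none `0`; the patterns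
`ac|bd`, `ad|bc` are impossible as `S` and `S0` do not cross (`NonX`); `D_{S0} = 4`. If `μ S0 > 0`, then `D > 0`, but
`D ≤ 0` as `c ≤ c s(a,b) = c s(c,d)` everywhere. -/
theorem mu_cut {r : V} {G : Finset (Sym2 V)} (hG : ∀ v, s(v, v) ∉ G) {T : Finset (Sp V r)} (hT : LG r G T)
    {μ : Sp V r → ℝ} (hμ : μ ∈ Sx T) (hmax : Amax (pq r) μ G) (S0 : {S : NCut V // r ∉ S.1}) : μ (Sum.inr S0) = 0 := by
  classical
  obtain ⟨hm0, hm1, hm2⟩ := hμ
  by_contra hne
  have hS0 : (Sum.inr S0 : Sp V r) ∈ T := by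
    by_contra h
    exact hne (hm1 _ h)
  obtain ⟨⟨a, ha, b, hb, hab⟩, c, hc, d, hd, hcd⟩ := hT.2 S0 hS0
  have nab : a ≠ b := fun h => hG b (h ▸ hab)
  have ncd : c ≠ d := fun h => hG d (h ▸ hcd)
  have nac : a ≠ c := fun h => hc (h ▸ ha)
  have nad : a ≠ d := fun h => hd (h ▸ ha)
  have nbc : b ≠ c := fun h => hc (h ▸ hb)
  have nbd : b ≠ d := fun h => hd (h ▸ hb)
  have h1 := hmax _ hab s(a, c)
  have h2 := hmax _ hcd s(b, d)
  have h3 := hmax _ hab s(a, d)
  have h4 := hmax _ hcd s(b, c)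
  obtain ⟨Dt, hDt⟩ : ∃ Dt : Sp V r → ℝ, ∀ t, Dt t = pq r s(a, c) t + pq r s(b, d) t + pq r s(a, d) t +
      pq r s(b, c) t - 2 * (pq r s(a, b) t + pq r s(c, d) t) := ⟨_, fun _ => rfl⟩
  have hsum : ∑ t, μ t * Dt t ≤ 0 := by
    have h5 : ∑ t, μ t * Dt t = mm (pq r) μ s(a, c) + mm (pq r) μ s(b, d) + mm (pq r) μ s(a, d) +
        mm (pq r) μ s(b, c) - 2 * (mm (pq r) μ s(a, b) + mm (pq r) μ s(c, d)) := by
      unfold mm
      rw [← sum_add_distrib, ← sum_add_distrib, ← sum_add_distrib, ← sum_add_distrib, mul_sum, ← sum_sub_distrib]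
      refine sum_congr rfl fun t _ => ?_
      rw [hDt]
      ring
    rw [h5]
    linarith
  have hvert : ∀ v : V, Dt (Sum.inl v) = 0 := by
    intro v
    rw [hDt, n_inl nac, n_inl nbd, n_inl nad, n_inl nbc, n_inl nab, n_inl ncd]
    ring
  have hcut : ∀ S : {S : NCut V // r ∉ S.1}, NonX S.1.1 S0.1.1 → 0 ≤ Dt (Sum.inr S) := by
    intro S hX
    rw [hDt, n_inr nac, n_inr nbd, n_inr nad, n_inr nbc, n_inr nab, n_inr ncd]
    generalize 2 / (Fintype.card V : ℝ) = q
    rcases hX with h | h | h | h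
    · have ha' : a ∉ S.1.1 := fun h' => by
        have h6 : a ∈ S.1.1 ∩ S0.1.1 := mem_inter.2 ⟨h', ha⟩
        rw [h] at h6
        exact notMem_empty _ h6
      have hb' : b ∉ S.1.1 := fun h' => by
        have h6 : b ∈ S.1.1 ∩ S0.1.1 := mem_inter.2 ⟨h', hb⟩
        rw [h] at h6
        exact notMem_empty _ h6
      by_cases hc' : c ∈ S.1.1 <;> by_cases hd' : d ∈ S.1.1 <;> simp [ha', hb', hc', hd'] <;> linarith
    · have hc' : c ∉ S.1.1 := fun h' => hc (h h')
      have hd' : d ∉ S.1.1 := fun h' => hd (h h')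
      by_cases ha' : a ∈ S.1.1 <;> by_cases hb' : b ∈ S.1.1 <;> simp [ha', hb', hc', hd'] <;> linarith
    · have ha' : a ∈ S.1.1 := h ha
      have hb' : b ∈ S.1.1 := h hb
      by_cases hc' : c ∈ S.1.1 <;> by_cases hd' : d ∈ S.1.1 <;> simp [ha', hb', hc', hd'] <;> linarith
    · have hc' : c ∈ S.1.1 := by
        have h6 := mem_univ c
        rw [← h, mem_union] at h6
        exact h6.resolve_right hc
      have hd' : d ∈ S.1.1 := by
        have h6 := mem_univ d
        rw [← h, mem_union] at h6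
        exact h6.resolve_right hd
      by_cases ha' : a ∈ S.1.1 <;> by_cases hb' : b ∈ S.1.1 <;> simp [ha', hb', hc', hd'] <;> linarith
  have hself : Dt (Sum.inr S0) = 4 := by
    rw [hDt, n_inr nac, n_inr nbd, n_inr nad, n_inr nbc, n_inr nab, n_inr ncd]
    generalize 2 / (Fintype.card V : ℝ) = q
    simp only [ha, hb, hc, hd, iff_false, iff_true, not_true_eq_false, not_false_eq_true, if_true, if_false]
    ring
  have hterm : ∀ t : Sp V r, 0 ≤ μ t * Dt t := by
    rintro (v | S)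
    · rw [hvert, mul_zero]
    · by_cases hS : (Sum.inr S : Sp V r) ∈ T
      · exact mul_nonneg (hm0 _) (hcut S (hT.1.1 S S0 hS hS0))
      · rw [hm1 _ hS, zero_mul]
  have h7 : μ (Sum.inr S0) * Dt (Sum.inr S0) ≤ ∑ t, μ t * Dt t :=
    single_le_sum (f := fun t => μ t * Dt t) (fun t _ => hterm t) (mem_univ _)
  rw [hself] at h7
  have h8 : 0 < μ (Sum.inr S0) := lt_of_le_of_ne (hm0 _) (Ne.symm hne)
  linarith

/-- PROOF: by `mu_cut` only the vertices have positive weight `u v = μ (inl v)`, `∑ u = 1`, so for `a ≠ b`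
`mm (pq r) μ s(a,b) = u a + u b - 2/n`. Let `M` be the value on `G` (the maximum), `x ∈ Sx G` good:
`M = ∑ x e c e = ∑ v, u v (cutw x {v} - 2/n) = 0`. So `c ≤ 0` on all edges, the sum over all non-loops is `0`
(`sum_vert`), so `u a + u b = 2/n` for all `a ≠ b`, `u` is constant (`n ≥ 3`) and positive, all vertices are in `T`:
contradiction to `LP`. -/
theorem no_mu (hV : 4 ≤ Fintype.card V) {r : V} {G : Finset (Sym2 V)} (hG : ∀ v, s(v, v) ∉ G)
    (hg : ∃ x ∈ Sx G, Good x) {T : Finset (Sp V r)} (hT : LG r G T)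
    {μ : Sp V r → ℝ} (hμ : μ ∈ Sx T) (hmax : Amax (pq r) μ G) : False := by
  classical
  have hcut : ∀ S : {S : NCut V // r ∉ S.1}, μ (Sum.inr S) = 0 := mu_cut hG hT hμ hmax
  obtain ⟨x, ⟨hx0, hx1, hx2⟩, hgd, -, -⟩ := hg
  obtain ⟨hm0, hm1, hm2⟩ := hμ
  have hl : ∀ v, x s(v, v) = 0 := fun v => hx1 _ (hG v)
  have hpay : ∀ v : V, ∑ e, x e * pq r e (Sum.inl v) = 0 := by
    intro v
    have h1 := pay_pos hx2 hl v
    rw [hgd v, sub_self] at h1
    unfold pay at h1
    rw [add_zero] at h1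
    exact h1
  have hfub : ∑ e, x e * mm (pq r) μ e = 0 := by
    have h1 : ∑ e, x e * mm (pq r) μ e = ∑ t, μ t * ∑ e, x e * pq r e t := by
      unfold mm
      simp only [mul_sum]
      rw [sum_comm]
      exact sum_congr rfl fun S _ => sum_congr rfl fun e _ => by ring
    rw [h1]
    refine sum_eq_zero ?_
    rintro (v | S) _
    · rw [hpay, mul_zero]
    · rw [hcut, zero_mul]
  have hGne : G.Nonempty := by
    by_contra h
    rw [not_nonempty_iff_eq_empty] at h
    have h1 : ∑ e, x e = 0 := sum_eq_zero fun e _ => hx1 e (by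
      rw [h]
      exact notMem_empty _)
    rw [hx2] at h1
    exact one_ne_zero h1
  obtain ⟨e0, he0⟩ := hGne
  have hL : ∑ e, x e * mm (pq r) μ e = mm (pq r) μ e0 := by
    have h1 : ∀ e, x e * mm (pq r) μ e = x e * mm (pq r) μ e0 := by
      intro e
      by_cases he : e ∈ G
      · rw [le_antisymm (hmax e0 he0 e) (hmax e he e0)]
      · rw [hx1 e he, zero_mul, zero_mul]
    rw [sum_congr rfl fun e _ => h1 e, ← sum_mul, hx2, one_mul]
  have hle : ∀ f, mm (pq r) μ f ≤ 0 := fun f => (hmax e0 he0 f).trans (by rw [← hL, hfub])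
  have hz : ∑ e ∈ (univ : Finset (Sym2 V)).filter (fun e => ¬ e.IsDiag), mm (pq r) μ e = 0 := by
    have h1 : ∑ e ∈ (univ : Finset (Sym2 V)).filter (fun e => ¬ e.IsDiag), mm (pq r) μ e =
        ∑ t, μ t * ∑ e ∈ (univ : Finset (Sym2 V)).filter (fun e => ¬ e.IsDiag), pq r e t := by
      unfold mm
      rw [sum_comm]
      exact sum_congr rfl fun S _ => (mul_sum _ _ _).symm
    rw [h1]
    refine sum_eq_zero ?_
    rintro (v | S) _
    · have h2 : ∑ e ∈ (univ : Finset (Sym2 V)).filter (fun e => ¬ e.IsDiag), pq r e (Sum.inl v) = 0 :=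
        sum_vert hV v true
      rw [h2, mul_zero]
    · rw [hcut, zero_mul]
  have hc : ∀ e : Sym2 V, ¬ e.IsDiag → mm (pq r) μ e = 0 := fun e he =>
    (sum_eq_zero_iff_of_nonpos fun e _ => hle e).1 hz e (mem_filter.2 ⟨mem_univ e, he⟩)
  have hone : ∑ v : V, μ (Sum.inl v) = 1 := by
    rw [Fintype.sum_sum_type, sum_eq_zero (s := (univ : Finset {S : NCut V // r ∉ S.1})) fun S _ => hcut S,
      add_zero] at hm2
    exact hm2
  have hu : ∀ a b : V, a ≠ b → μ (Sum.inl a) + μ (Sum.inl b) = 2 / (Fintype.card V : ℝ) := by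
    intro a b hab
    have hd : ¬ (s(a, b) : Sym2 V).IsDiag := by
      rw [Sym2.mk_isDiag_iff]
      exact hab
    have h1 := hc s(a, b) hd
    unfold mm at h1
    rw [Fintype.sum_sum_type, sum_eq_zero (s := (univ : Finset {S : NCut V // r ∉ S.1})) fun S _ => by
      rw [hcut, zero_mul], add_zero] at h1
    have h4 : ∑ v : V, μ (Sum.inl v) * pq r s(a, b) (Sum.inl v) =
        μ (Sum.inl a) + μ (Sum.inl b) - 2 / (Fintype.card V : ℝ) := by
      have h5 : ∀ v : V, μ (Sum.inl v) * pq r s(a, b) (Sum.inl v) =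
          (if v = a then μ (Sum.inl v) else 0) + (if v = b then μ (Sum.inl v) else 0) -
            2 / (Fintype.card V : ℝ) * μ (Sum.inl v) := by
        intro v
        rw [n_inl hab]
        split_ifs <;> ring
      rw [sum_congr rfl fun v _ => h5 v, sum_sub_distrib, sum_add_distrib, ← mul_sum, hone, mul_one,
        sum_ite_eq' univ a fun v => μ (Sum.inl v), sum_ite_eq' univ b fun v => μ (Sum.inl v),
        if_pos (mem_univ _), if_pos (mem_univ _)]
    rw [h4] at h1
    linarith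
  obtain ⟨v, hv⟩ := hT.1.2
  have hv0 : μ (Sum.inl v) = 0 := hm1 _ hv
  have hex : ∀ W : Finset V, W.card ≤ 2 → ∃ a, a ∉ W := by
    intro W hW
    by_contra h
    push Not at h
    have h2 := card_le_card (fun a _ => h a : (univ : Finset V) ⊆ W)
    rw [card_univ] at h2
    omega
  obtain ⟨b, hb⟩ := hex {v} (by rw [card_singleton]; omega)
  rw [mem_singleton] at hb
  obtain ⟨c, hc2⟩ := hex {v, b} card_le_two
  rw [mem_insert, mem_singleton, not_or] at hc2
  have e1 := hu v b (Ne.symm hb)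
  have e2 := hu v c (Ne.symm hc2.1)
  have e3 := hu b c (Ne.symm hc2.2)
  have hpos : (0 : ℝ) < 2 / (Fintype.card V : ℝ) := by
    have : (0 : ℝ) < (Fintype.card V : ℝ) := by
      exact_mod_cast (by omega : 0 < Fintype.card V)
    positivity
  linarith

end H56V
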