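import Pool.Agent.Lib.H56V.P2
import Pool.Agent.Lib.H56V.B
import Pool.Agent.Lib.H56V.C
import Pool.Agent.Lib.H56V.N
import Pool.Agent.Lib.H56V.Q3
import Pool.Agent.Lib.H56V.K
import Pool.Agent.Lib.H56V.G
import Pool.Agent.Lib.H96H.B1

/-! # H56V, chunk H: Theorem H+ -/

set_option autoImplicit false

namespace H56V

open Finset H98P H98Z H98M H63F H96H

variable {V : Type*} [Fintype V] [DecidableEq V]

private theorem hp_mono {A : Type*} [Fintype A] {s t : Finset A} (h : s ⊆ t) : Sx s ⊆ Sx t := by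
  rintro x ⟨h1, h2, h3⟩
  exact ⟨h1, fun e he => h2 e fun he' => he (h he'), h3⟩

private theorem hp_ne {A : Type*} [Fintype A] [DecidableEq A] {s : Finset A} (h : s.Nonempty) :
    (Sx s).Nonempty := by
  obtain ⟨a, ha⟩ := h
  refine ⟨Pi.single a 1, ?_, ?_, ?_⟩
  · intro e
    by_cases he : e = a
    · subst he
      rw [Pi.single_eq_same]
      exact zero_le_one
    · rw [Pi.single_eq_of_ne he]
  · intro e he
    exact Pi.single_eq_of_ne (fun h => he (by rw [h]; exact ha)) _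
  · rw [Finset.sum_pi_single']
    simp

private theorem hp_dnLP (r : V) : Dn (LP r) := by
  intro s t hst ht
  refine ⟨fun S S' h h' => ht.1 S S' (hst h) (hst h'), ?_⟩
  obtain ⟨v, hv⟩ := ht.2
  exact ⟨v, fun h => hv (hst h)⟩

private theorem hp_dnLG (r : V) (G : Finset (Sym2 V)) : Dn (LG r G) := by
  intro s t hst ht
  exact ⟨hp_dnLP r s t hst ht.1, fun S hS => ht.2 S (hst hS)⟩

private theorem hp_LG0 (r : V) (G : Finset (Sym2 V)) : LG r G ∅ := by
  refine ⟨⟨fun S S' h => absurd h (Finset.notMem_empty _), r, Finset.notMem_empty _⟩, fun S h => ?_⟩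
  exact absurd h (Finset.notMem_empty _)

private theorem hp_dnK (cross : Sym2 V → Sym2 V → Prop) : Dn (KK cross) := by
  intro s t hst ht
  refine ⟨?_, fun v hv => ht.2 v (hst hv)⟩
  intro e he f hf
  exact ht.1 e (hst he) f (hst hf)

private theorem hp_smul (x : Sym2 V → ℝ) (c : ℝ) (S : Finset V) : cutw (fun e => c * x e) S = c * cutw x S := by
  unfold cutw
  rw [Finset.mul_sum]
  refine Finset.sum_congr rfl fun e _ => ?_
  ring

private theorem hp_Om_mono {r : V} {G G' : Finset (Sym2 V)} (h : G ⊆ G') {T : Finset (Sp V r)}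
    (hT : Om r G T) : Om r G' T := by
  refine ⟨⟨hT.1.1, fun S hS => ?_⟩, fun hg => ?_⟩
  · obtain ⟨⟨u, hu, w, hw, h1⟩, u', hu', w', hw', h2⟩ := hT.1.2 S hS
    exact ⟨⟨u, hu, w, hw, h h1⟩, u', hu', w', hw', h h2⟩
  · obtain ⟨x, hx, hmin⟩ := hT.2 fun ⟨x, hx, hgood⟩ => hg ⟨x, hp_mono h hx, hgood⟩
    exact ⟨x, hp_mono h hx, hmin⟩

/-- The carrier `Om r` satisfies the cycle condition if no member of size `2n - 3` is good. PROOF: `G` not good:
`ac_thetaP` (`L = LG r G`, `hyp_aP`) and `hc_of_ac` (`Om r G = fun T => LG r G T ∧ ∃ x ∈ Sx G, Amin ..`). `G` good: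
`Om r G = LG r G`; `G.card + 4 ≤ 2n`: `hc_LG`; `G.card + 3 = 2n`: impossible; `G.card + 2 ≥ 2n ...`, i.e. `G.card - 1` larger
than every `T.card` (`card_LP`): the cycle is `0`. -/
theorem hc_Om (hV : 4 ≤ Fintype.card V) {r : V} {G : Finset (Sym2 V)} (hG : ∀ v, s(v, v) ∉ G) (hne : G.Nonempty)
    (h : G.card + 3 = 2 * Fintype.card V → ¬ ∃ x ∈ Sx G, Good x) : HC (Om r G) (G.card - 1) := by
  by_cases hg : ∃ x ∈ Sx G, Good x
  · have e : Om r G = LG r G := by
      funext T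
      exact propext ⟨fun h => h.1, fun h => ⟨h, fun h' => absurd hg h'⟩⟩
    rw [e]
    by_cases h1 : G.card + 4 ≤ 2 * Fintype.card V
    · exact hc_LG hV hG hg r h1
    · have h2 : G.card + 3 ≠ 2 * Fintype.card V := fun h3 => h h3 hg
      intro z hz hb
      refine ⟨fun _ => 0, fun s hs => absurd rfl hs, fun r' => ?_⟩
      rw [bd_zero]
      by_contra hne'
      obtain ⟨h4, h5⟩ := hz r' (Ne.symm hne')
      have h6 := card_LP hV h4.1
      omega
  · have e : Om r G = fun T => LG r G T ∧ ∃ x ∈ Sx G, Amin (pq r) (fun _ => 0) x T := by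
      funext T
      exact propext ⟨fun h => ⟨h.1, h.2 hg⟩, fun h => ⟨h.1, fun _ => h.2⟩⟩
    rw [e]
    apply hc_of_ac
    exact ac_thetaP (pq r) (fun _ => 0) (LG r G) (hp_dnLG r G) (hp_LG0 r G) hne
      fun x hx => hyp_aP hV hG hx fun hgood => hg ⟨x, hx, hgood⟩

/-- THEOREM H+. PROOF: suppose no such `G`. `r : V` any vertex. `trace_pair` with `K = KK cross` (`ac_KK`), `L = LP r`,
`Om r` (monotone: `NS` and `Sx` are), `Xi T G = KK cross G ∧ ∃ μ ∈ Sx T, Amax (pq r) μ G` (`H63F.ac_psi`, `hyp_bP`) gives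
`G`, `T`; if `G` is good `no_mu`, otherwise `no_eqP`. -/
theorem exists_goodP (hV : 4 ≤ Fintype.card V) {cross : Sym2 V → Sym2 V → Prop}
    (hsymm : ∀ e f, cross e f → cross f e) (hHD : ∀ W : Finset V, HD cross W) :
    ∃ G : Finset (Sym2 V), KK cross G ∧ G.card + 3 = 2 * Fintype.card V ∧ ∃ x ∈ Sx G, Good x := by
  by_contra hng
  have hne : Nonempty V := by
    rw [← Fintype.card_pos_iff]
    omega
  obtain ⟨r⟩ := hne
  have hs2 : Nonempty (Sym2 V) := ⟨s(r, r)⟩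
  have hK0 : KK cross (∅ : Finset (Sym2 V)) := by
    refine ⟨?_, fun v hv => absurd hv (Finset.notMem_empty _)⟩
    intro e he
    exact absurd he (Finset.notMem_empty _)
  obtain ⟨G, T, _, hGK, _, hOm, _, μ, hμ, hmax⟩ := trace_pair (KK cross) (LP r) (hp_dnK cross) (hp_dnLP r) hK0
    (ac_KK hV hsymm hHD) (Om r) (fun T G => KK cross G ∧ ∃ μ ∈ Sx T, Amax (pq r) μ G)
    (fun G T _ _ h => h.1.1)
    (fun G G' h _ _ T hT => hp_Om_mono h hT)
    (fun G _ hGne => ⟨hp_LG0 r G, fun _ => (hp_ne hGne).imp fun x hx =>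
      ⟨hx, fun S hS => absurd hS (Finset.notMem_empty S)⟩⟩)
    (fun G hGK hGne => hc_Om hV hGK.2 hGne fun hc hx => hng ⟨G, hGK, hc, hx⟩)
    (fun T G _ _ h => h.1)
    (fun T T' h _ _ G hG => ⟨hG.1, hG.2.imp fun μ hμ => ⟨hp_mono h hμ.1, hμ.2⟩⟩)
    (fun T _ hTne => ⟨hK0, (hp_ne hTne).imp fun μ hμ => ⟨hμ, fun e he => absurd he (Finset.notMem_empty e)⟩⟩)
    (fun T hLT hTne => ac_psi (pq r) (KK cross) (hp_dnK cross) hK0 hTne
      fun μ hμ => hyp_bP hV hsymm hHD hLT hμ)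
  by_cases hg : ∃ x ∈ Sx G, Good x
  · exact no_mu hV hGK.2 hg hOm.1 hμ hmax
  · obtain ⟨x, hx, hmin⟩ := hOm.2 hg
    exact no_eqP hV hGK.2 hx hOm.1.1 hmin hμ hmax

/-- PROOF: `y = n x` (see `H96H.theoremH`). -/
theorem theoremHP (hV : 4 ≤ Fintype.card V) {cross : Sym2 V → Sym2 V → Prop}
    (hsymm : ∀ e f, cross e f → cross f e) (hHD : ∀ W : Finset V, HD cross W) :
    ∃ (G : Finset (Sym2 V)) (y : Sym2 V → ℝ), Plane cross G ∧ G.card + 3 = 2 * Fintype.card V ∧ FracHam G y ∧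
      ((∀ e, y e = 0 ∨ y e = 1) ∨
        ∀ S : Finset V, 2 ≤ S.card → 2 ≤ (univ \ S).card → 2 < cutw y S) := by
  obtain ⟨G, hG, hc, x, hx, hgood⟩ := exists_goodP hV hsymm hHD
  have hn : (0 : ℝ) < (Fintype.card V : ℝ) := by
    have h4 : (4 : ℝ) ≤ (Fintype.card V : ℝ) := by exact_mod_cast hV
    linarith
  have hn2 : (Fintype.card V : ℝ) * (2 / (Fintype.card V : ℝ)) = 2 := by
    field_simp
  have hn1 : (Fintype.card V : ℝ) * (1 / (Fintype.card V : ℝ)) = 1 := by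
    field_simp
  refine ⟨G, fun e => (Fintype.card V : ℝ) * x e, hG.1, hc, ?_, ?_⟩
  · refine ⟨fun e => mul_nonneg hn.le (hx.1 e), ?_, hG.2, ?_, ?_⟩
    · intro e he
      show (Fintype.card V : ℝ) * x e = 0
      rw [hx.2.1 e he, mul_zero]
    · intro v
      rw [hp_smul, hgood.1 v, hn2]
    · intro S hS hS'
      rw [hp_smul]
      calc (2 : ℝ) = (Fintype.card V : ℝ) * (2 / (Fintype.card V : ℝ)) := hn2.symm
        _ ≤ _ := mul_le_mul_of_nonneg_left (hgood.2.1 S hS hS') hn.le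
  · rcases hgood.2.2 with h | h
    · left
      intro e
      rcases h e with h0 | h0
      · left
        show (Fintype.card V : ℝ) * x e = 0
        rw [h0, mul_zero]
      · right
        show (Fintype.card V : ℝ) * x e = 1
        rw [h0, hn1]
    · right
      intro S hS hS'
      rw [hp_smul]
      calc (2 : ℝ) = (Fintype.card V : ℝ) * (2 / (Fintype.card V : ℝ)) := hn2.symm
        _ < _ := mul_lt_mul_of_pos_left (h ⟨S, hS, hS'⟩) hn

end H56V
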