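import Pool.Agent.Lib.H56V.Q1
import Pool.Agent.Lib.H63F.G2

/-! # H56V, chunk Q2: no vertex minimizes -/

set_option autoImplicit false

namespace H56V

open Finset H98P H98Z H98M H63F H96H

variable {V : Type*} [Fintype V] [DecidableEq V]

private theorem q2_px_compl (e : Sym2 V) (S : Finset V) : px e (univ \ S) = px e S := by
  unfold px
  have h : (∃ a ∈ univ \ S, ∃ b, b ∉ univ \ S ∧ e = s(a, b)) ↔
      ∃ a ∈ S, ∃ b, b ∉ S ∧ e = s(a, b) := by
    constructor
    · rintro ⟨a, ha, b, hb, rfl⟩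
      refine ⟨b, ?_, a, ?_, Sym2.eq_swap⟩
      · by_contra h
        exact hb (by simp [h])
      · simpa using ha
    · rintro ⟨a, ha, b, hb, rfl⟩
      exact ⟨b, by simpa using hb, a, by simpa using ha, Sym2.eq_swap⟩
  by_cases h1 : ∃ a ∈ S, ∃ b, b ∉ S ∧ e = s(a, b)
  · rw [if_pos h1, if_pos (h.2 h1)]
  · rw [if_neg h1, if_neg fun h2 => h1 (h.1 h2)]

private theorem q2_cutw_compl (y : Sym2 V → ℝ) (S : Finset V) :
    cutw y (univ \ S) = cutw y S := by
  unfold cutw
  exact Finset.sum_congr rfl fun e _ => by rw [q2_px_compl]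

omit [Fintype V] in
private theorem q2_pxS (a b : V) (S : Finset V) : px s(a, b) S = if (a ∈ S ↔ b ∈ S) then 0 else 1 := by
  unfold px
  by_cases ha : a ∈ S <;> by_cases hb : b ∈ S
  · rw [if_neg, if_pos (by simp [ha, hb])]
    rintro ⟨x, hx, y, hy, h⟩
    rcases Sym2.eq_iff.1 h with ⟨h1, h2⟩ | ⟨h1, h2⟩
    · exact hy (h2 ▸ hb)
    · exact hy (h1 ▸ ha)
  · rw [if_pos ⟨a, ha, b, hb, rfl⟩, if_neg (by simp [ha, hb])]
  · rw [if_pos ⟨b, hb, a, ha, Sym2.eq_swap⟩, if_neg (by simp [ha, hb])]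
  · rw [if_neg, if_pos (by simp [ha, hb])]
    rintro ⟨x, hx, y, hy, h⟩
    rcases Sym2.eq_iff.1 h with ⟨h1, h2⟩ | ⟨h1, h2⟩
    · exact ha (h1 ▸ hx)
    · exact hb (h2 ▸ hx)

omit [Fintype V] in
private theorem q2_px_submod (e : Sym2 V) (S T : Finset V) :
    px e (S ∩ T) + px e (S ∪ T) ≤ px e S + px e T := by
  induction e using Sym2.ind with
  | _ a b =>
    rw [q2_pxS, q2_pxS, q2_pxS, q2_pxS]
    by_cases ha : a ∈ S <;> by_cases hb : b ∈ S <;> by_cases hc : a ∈ T <;> by_cases hd : b ∈ T <;>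
      simp [ha, hb, hc, hd]

private theorem q2_submod {x : Sym2 V → ℝ} (h0 : ∀ e, 0 ≤ x e) (S T : Finset V) :
    cutw x (S ∩ T) + cutw x (S ∪ T) ≤ cutw x S + cutw x T := by
  unfold cutw
  rw [← sum_add_distrib, ← sum_add_distrib]
  refine sum_le_sum fun e _ => ?_
  rw [← mul_add, ← mul_add]
  exact mul_le_mul_of_nonneg_left (q2_px_submod e S T) (h0 e)

private theorem q2_nonneg {x : Sym2 V → ℝ} (h0 : ∀ e, 0 ≤ x e) (S : Finset V) : 0 ≤ cutw x S := by
  unfold cutw
  refine sum_nonneg fun e _ => mul_nonneg (h0 e) ?_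
  unfold px
  split_ifs
  · exact zero_le_one
  · exact le_refl _

private theorem q2_nonX {S T : Finset V} (h : NonX S T) : NonX (univ \ S) T := by
  rcases h with h | h | h | h
  · refine Or.inr (Or.inr (Or.inl fun a ha => ?_))
    rw [mem_sdiff]
    refine ⟨mem_univ a, fun hs => ?_⟩
    have h1 : a ∈ S ∩ T := mem_inter.2 ⟨hs, ha⟩
    rw [h] at h1
    exact notMem_empty a h1
  · refine Or.inr (Or.inr (Or.inr (eq_univ_iff_forall.2 fun a => ?_)))
    rw [mem_union, mem_sdiff]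
    by_cases ha : a ∈ S
    · exact Or.inr (h ha)
    · exact Or.inl ⟨mem_univ a, ha⟩
  · refine Or.inl (eq_empty_iff_forall_notMem.2 fun a ha => ?_)
    rw [mem_inter, mem_sdiff] at ha
    exact ha.1.2 (h ha.2)
  · refine Or.inr (Or.inl fun a ha => ?_)
    rw [mem_sdiff] at ha
    have h1 : a ∈ S ∪ T := by
      rw [h]
      exact mem_univ a
    rcases mem_union.1 h1 with h2 | h2
    · exact absurd h2 ha.2
    · exact h2

private theorem q2_pay {r : V} {x : Sym2 V → ℝ} (h1 : ∑ e, x e = 1) (hl : ∀ v, x s(v, v) = 0)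
    (S : {S : NCut V // r ∉ S.1}) :
    pay (pq r) (fun _ => 0) x (Sum.inr S : Sp V r) = cutw x S.1.1 - 2 / (Fintype.card V : ℝ) :=
  pay_cut h1 hl S.1

private theorem q2_payv {r : V} {x : Sym2 V → ℝ} (h1 : ∑ e, x e = 1) (hl : ∀ v, x s(v, v) = 0)
    (v : V) :
    pay (pq r) (fun _ => 0) x (Sum.inl v : Sp V r) = cutw x {v} - 2 / (Fintype.card V : ℝ) :=
  pay_pos h1 hl v

omit [Fintype V] in
private theorem q2_px1 (a b v : V) (hab : a ≠ b) :
    px s(a, b) ({v} : Finset V) = if v = a ∨ v = b then (1 : ℝ) else 0 := by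
  unfold px
  by_cases h : v = a ∨ v = b
  · rw [if_pos h, if_pos]
    rcases h with rfl | rfl
    · exact ⟨v, mem_singleton_self v, b, by rw [mem_singleton]; exact hab.symm, rfl⟩
    · exact ⟨v, mem_singleton_self v, a, by rw [mem_singleton]; exact hab, Sym2.eq_swap⟩
  · rw [if_neg h, if_neg]
    rintro ⟨a', ha', b', -, h'⟩
    rw [mem_singleton] at ha'
    subst ha'
    rcases Sym2.eq_iff.1 h' with ⟨h4, -⟩ | ⟨-, h4⟩
    · exact h (Or.inl h4.symm)
    · exact h (Or.inr h4.symm)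

omit [Fintype V] in
private theorem q2_sum (a b : V) (hab : a ≠ b) (S : Finset V) (h : ¬ (a ∈ S ∧ b ∈ S)) :
    ∑ v ∈ S, px s(a, b) ({v} : Finset V) = px s(a, b) S := by
  rw [sum_congr rfl fun v _ => q2_px1 a b v hab, q2_pxS]
  by_cases ha : a ∈ S
  · have hb : b ∉ S := fun hb => h ⟨ha, hb⟩
    rw [if_neg (by simp [ha, hb]), sum_eq_single a]
    · rw [if_pos (Or.inl rfl)]
    · intro v hv hva
      rw [if_neg]
      rintro (h1 | h1)
      · exact hva h1
      · exact hb (h1 ▸ hv)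
    · intro h1
      exact absurd ha h1
  · by_cases hb : b ∈ S
    · rw [if_neg (by simp [ha, hb]), sum_eq_single b]
      · rw [if_pos (Or.inr rfl)]
      · intro v hv hvb
        rw [if_neg]
        rintro (h1 | h1)
        · exact ha (h1 ▸ hv)
        · exact hvb h1
      · intro h1
        exact absurd hb h1
    · rw [if_pos (by simp [ha, hb])]
      refine sum_eq_zero fun v hv => ?_
      rw [if_neg]
      rintro (h1 | h1)
      · exact ha (h1 ▸ hv)
      · exact hb (h1 ▸ hv)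

/-- A set whose boundary is lighter than the sum of the degrees has an edge of `G` inside. PROOF: if no edge of `G` lies
inside `S`, every edge `e` with `x e ≠ 0` satisfies `∑ v ∈ S, px e {v} = px e S` (no loops), so
`cutw x S = ∑ v ∈ S, cutw x {v}`. -/
theorem inside {G : Finset (Sym2 V)} (hG : ∀ v, s(v, v) ∉ G) {x : Sym2 V → ℝ} (hx : x ∈ Sx G) {S : Finset V}
    (h : cutw x S < ∑ v ∈ S, cutw x {v}) : ∃ u ∈ S, ∃ w ∈ S, s(u, w) ∈ G := by
  by_contra hcon
  push Not at hcon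
  refine absurd h (not_lt.2 (le_of_eq ?_))
  unfold cutw
  rw [sum_comm]
  refine sum_congr rfl fun e _ => ?_
  rw [← mul_sum]
  by_cases hxe : x e = 0
  · rw [hxe, zero_mul, zero_mul]
  · have heG : e ∈ G := by
      by_contra h1
      exact hxe (hx.2.1 e h1)
    rw [mul_right_inj' hxe]
    induction e using Sym2.ind with
    | _ a b =>
      refine q2_sum a b ?_ S ?_
      · rintro rfl
        exact hG a heG
      · rintro ⟨ha, hb⟩
        exact hcon a ha b hb heG

/-- PROOF: as `H96H.caseN` (`H96H/A2.lean`). The minimum `m` of the payoff is attained at cuts only, so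
`cutw x {v} > c := m + 2/n = cutw x S` for all `v` and all minimizing cuts `S`, `c ≥ 0`. Among all sets `S`, `2 ≤ |S|`,
`2 ≤ |V - S|`, `cutw x S = c` (with or without `r`) choose one, `S0`, of minimal cardinality. Every nontrivial cut has
`cutw ≥ c` (pass to the complement if `r ∈ S`, `cutw x (univ \ S) = cutw x S`), all trivial ones `> c`. If `S` is a
minimizing cut which crosses `S0`, submodularity shows that `S0 ∩ S` has `cutw = c`, is nontrivial and smaller. Then
`caseSP` for `S0` or its complement (`NonX` is invariant under the complement of one set). `NS`: `inside` for `S0` and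
for the complement, as `cutw x S0 = c < ∑ v ∈ S0, cutw x {v}` (`|S0| ≥ 2`, every term is `> c ≥ 0`). -/
theorem caseNP (hV : 4 ≤ Fintype.card V) {r : V} {G : Finset (Sym2 V)} (hG : ∀ v, s(v, v) ∉ G) {x : Sym2 V → ℝ}
    (hx : x ∈ Sx G) (hv : ∀ v : V, ¬ Amin (pq r) (fun _ => 0) x ({Sum.inl v} : Finset (Sp V r))) :
    AC fun T : Finset (Sp V r) => LG r G T ∧ Amin (pq r) (fun _ => 0) x T := by
  classical
  have h0 : ∀ e, 0 ≤ x e := hx.1
  have h1 : ∑ e, x e = 1 := hx.2.2
  have hl : ∀ v, x s(v, v) = 0 := fun v => hx.2.1 _ (hG v)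
  obtain ⟨S1, hS1⟩ : ∃ S1 : {S : NCut V // r ∉ S.1}, ∀ s : Sp V r,
      pay (pq r) (fun _ => 0) x (Sum.inr S1 : Sp V r) ≤ pay (pq r) (fun _ => 0) x s := by
    obtain ⟨s0, _, hs0⟩ := exists_min_image univ (fun s : Sp V r => pay (pq r) (fun _ => 0) x s)
      ⟨Sum.inl r, mem_univ _⟩
    rcases s0 with v | S1
    · refine absurd ?_ (hv v)
      intro S hS S'
      rw [mem_singleton.1 hS]
      exact hs0 S' (mem_univ S')
    · exact ⟨S1, fun s => hs0 s (mem_univ s)⟩
  obtain ⟨c, hc⟩ : ∃ c : ℝ, c = cutw x S1.1.1 := ⟨_, rfl⟩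
  have hN : ∀ T : NCut V, c ≤ cutw x T.1 := by
    have hN0 : ∀ T : {S : NCut V // r ∉ S.1}, c ≤ cutw x T.1.1 := by
      intro T
      have h2 := hS1 (Sum.inr T)
      rw [q2_pay h1 hl, q2_pay h1 hl] at h2
      linarith
    intro T
    by_cases hr : r ∈ T.1
    · have hcc : univ \ (univ \ T.1) = T.1 := Finset.sdiff_sdiff_eq_self (subset_univ _)
      have h2 := hN0 ⟨⟨univ \ T.1, T.2.2, by rw [hcc]; exact T.2.1⟩, by simp [hr]⟩
      rw [← q2_cutw_compl x T.1]
      exact h2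
    · exact hN0 ⟨T, hr⟩
  have hsing : ∀ v : V, c < cutw x {v} := by
    intro v
    by_contra hcon
    push Not at hcon
    refine hv v ?_
    intro S hS S'
    rw [mem_singleton.1 hS, q2_payv h1 hl v]
    refine le_trans ?_ (hS1 S')
    rw [q2_pay h1 hl]
    linarith
  have hgen : ∀ R : Finset V, R.Nonempty → R ≠ univ → c ≤ cutw x R := by
    intro R hR1 hR2
    have hcR : 0 < R.card := card_pos.2 hR1
    have hne : (univ \ R).Nonempty := by
      rw [sdiff_nonempty]
      intro h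
      exact hR2 (eq_univ_iff_forall.2 fun v => h (mem_univ v))
    have hcR' : 0 < (univ \ R).card := card_pos.2 hne
    by_cases h2 : R.card = 1
    · obtain ⟨v, rfl⟩ := card_eq_one.1 h2
      exact (hsing v).le
    · by_cases h3 : (univ \ R).card = 1
      · obtain ⟨w, hw⟩ := card_eq_one.1 h3
        rw [← q2_cutw_compl x R, hw]
        exact (hsing w).le
      · exact hN ⟨R, by omega, by omega⟩
  have hin : ∀ S : Finset V, S.Nonempty → cutw x S ≤ c → ∃ u ∈ S, ∃ w ∈ S, s(u, w) ∈ G := by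
    rintro S ⟨v, hvS⟩ hS
    refine inside hG hx ?_
    refine lt_of_lt_of_le (lt_of_le_of_lt hS (hsing v)) ?_
    exact single_le_sum (f := fun v => cutw x ({v} : Finset V)) (fun w _ => q2_nonneg h0 {w}) hvS
  obtain ⟨S0, hS0A, hS0m⟩ := exists_min_image (univ.filter fun S : NCut V => cutw x S.1 ≤ c)
    (fun S => S.1.card) ⟨S1.1, mem_filter.2 ⟨mem_univ _, hc.ge⟩⟩
  have hS0 : cutw x S0.1 ≤ c := (mem_filter.1 hS0A).2
  have hX : ∀ S : {S : NCut V // r ∉ S.1},
      Amin (pq r) (fun _ => 0) x ({Sum.inr S} : Finset (Sp V r)) → NonX S0.1 S.1.1 := by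
    intro S hS
    by_contra hX
    unfold NonX at hX
    push Not at hX
    obtain ⟨hX1, hX2, hX3, hX4⟩ := hX
    have hSm : cutw x S.1.1 ≤ c := by
      have h6 := hS (Sum.inr S) (mem_singleton_self _) (Sum.inr S1)
      rw [q2_pay h1 hl, q2_pay h1 hl] at h6
      linarith
    have hsub := q2_submod h0 S0.1 S.1.1
    have hRne : (S0.1 ∩ S.1.1).Nonempty := hX1
    have hUne : (S0.1 ∪ S.1.1).Nonempty := hRne.mono (inter_subset_left.trans subset_union_left)
    have h7 := hgen (S0.1 ∪ S.1.1) hUne hX4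
    have h8 : cutw x (S0.1 ∩ S.1.1) ≤ c := by linarith
    have h9 : 2 ≤ (S0.1 ∩ S.1.1).card := by
      by_contra hcon
      have h10 : (S0.1 ∩ S.1.1).card = 1 := by
        have := card_pos.2 hRne
        omega
      obtain ⟨v, hv'⟩ := card_eq_one.1 h10
      rw [hv'] at h8
      exact absurd h8 (not_le.2 (hsing v))
    have h11 : 2 ≤ (univ \ (S0.1 ∩ S.1.1)).card :=
      le_trans S0.2.2 (card_le_card (sdiff_subset_sdiff (Subset.refl _) inter_subset_left))
    have h12 := hS0m ⟨S0.1 ∩ S.1.1, h9, h11⟩ (mem_filter.2 ⟨mem_univ _, h8⟩)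
    have h13 : (S0.1 ∩ S.1.1).card < S0.1.card := by
      refine card_lt_card ⟨inter_subset_left, fun h => hX2 fun a ha => ?_⟩
      exact (mem_inter.1 (h ha)).2
    have h14 : S0.1.card ≤ (S0.1 ∩ S.1.1).card := h12
    omega
  have hi1 : ∃ u ∈ S0.1, ∃ w ∈ S0.1, s(u, w) ∈ G :=
    hin S0.1 (card_pos.1 (lt_of_lt_of_le (by norm_num) S0.2.1)) hS0
  have hi2 : ∃ u ∈ univ \ S0.1, ∃ w ∈ univ \ S0.1, s(u, w) ∈ G :=
    hin (univ \ S0.1) (card_pos.1 (lt_of_lt_of_le (by norm_num) S0.2.2))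
      (by rw [q2_cutw_compl]; exact hS0)
  have hmin : ∀ S : {S : NCut V // r ∉ S.1}, cutw x S.1.1 ≤ c →
      Amin (pq r) (fun _ => 0) x ({Sum.inr S} : Finset (Sp V r)) := by
    intro S hS S2 hS2 S'
    rw [mem_singleton.1 hS2]
    refine le_trans ?_ (hS1 S')
    rw [q2_pay h1 hl, q2_pay h1 hl]
    linarith
  by_cases hr : r ∈ S0.1
  · have hcc : univ \ (univ \ S0.1) = S0.1 := Finset.sdiff_sdiff_eq_self (subset_univ _)
    refine caseSP ⟨⟨univ \ S0.1, S0.2.2, by rw [hcc]; exact S0.2.1⟩, by simp [hr]⟩ ?_ ?_ ?_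
    · refine ⟨hi2, ?_⟩
      obtain ⟨u, hu, w, hw, h⟩ := hi1
      exact ⟨u, by simp [hu], w, by simp [hw], h⟩
    · exact hmin _ (by
        show cutw x (univ \ S0.1) ≤ c
        rw [q2_cutw_compl]
        exact hS0)
    · intro S hS
      exact q2_nonX (hX S hS)
  · refine caseSP ⟨S0, hr⟩ ?_ (hmin _ hS0) hX
    refine ⟨hi1, ?_⟩
    obtain ⟨u, hu, w, hw, h⟩ := hi2
    exact ⟨u, by simpa using hu, w, by simpa using hw, h⟩

end H56V
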