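import Pool.Agent.Lib.H56V.P1

/-! # H56V, chunk X1: adding vertices to a flag complex of laminar families -/

set_option autoImplicit false

namespace H56V

open Finset H98P H98Z H98M H63F H96H

private theorem x1_bd_cone {E : Type*} [Fintype E] [DecidableEq E] (x : E) (b : Finset E → ZMod 2) (r : Finset E) :
    bd (fun s => if x ∈ s then b (s.erase x) else 0) r =
      if x ∈ r then bd b (r.erase x) + b r else b r := by
  by_cases hx : x ∈ r
  · rw [if_pos hx]
    have h1 : (r.erase x)ᶜ = insert x rᶜ := by
      ext e
      simp only [mem_compl, mem_erase, not_and, mem_insert]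
      constructor
      · intro h
        by_cases he : e = x
        · exact Or.inl he
        · exact Or.inr (h he)
      · rintro (rfl | h) h2
        · exact absurd rfl h2
        · exact h
    have h2 : bd b (r.erase x) = b r + ∑ e ∈ rᶜ, b (insert e (r.erase x)) := by
      unfold bd
      rw [h1, sum_insert (by simp [hx]), insert_erase hx]
    have h3 : bd (fun s => if x ∈ s then b (s.erase x) else 0) r = ∑ e ∈ rᶜ, b (insert e (r.erase x)) := by
      unfold bd
      refine sum_congr rfl fun e he => ?_
      have hex : e ≠ x := by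
        rintro rfl
        exact mem_compl.1 he hx
      simp only
      rw [if_pos (mem_insert_of_mem hx), erase_insert_of_ne hex]
    rw [h3, h2, add_right_comm, CharTwo.add_self_eq_zero, zero_add]
  · rw [if_neg hx]
    unfold bd
    rw [sum_eq_single x]
    · simp only
      rw [if_pos (mem_insert_self x r), erase_insert hx]
    · intro e _ hex
      simp only
      rw [if_neg]
      simp only [mem_insert, not_or]
      exact ⟨fun h => hex h.symm, hx⟩
    · intro h
      exact absurd (mem_compl.2 hx) h

private theorem x1_nx_symm {V : Type*} {S S' : Finset V} (h : NX S S') : NX S' S := by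
  rcases h with h | h | h
  · exact Or.inl h.symm
  · exact Or.inr (Or.inr h)
  · exact Or.inr (Or.inl h)

private theorem x1_nx_refl {V : Type*} (S : Finset V) : NX S S := Or.inr (Or.inl subset_rfl)

private theorem x1_fl_insert {V : Type*} [DecidableEq V] {P : Finset V → Prop} {A : Finset V} {s : Finset (Finset V)}
    (hs : FL P (s.erase A)) (hA : P A) (hN : ∀ S ∈ s.erase A, NX S A) : FL P s := by
  constructor
  · intro S hS
    by_cases h : S = A
    · rw [h]
      exact hA
    · exact hs.1 S (mem_erase.2 ⟨h, hS⟩)
  · intro S hS S' hS'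
    by_cases h : S = A
    · by_cases h' : S' = A
      · rw [h, h']
        exact x1_nx_refl A
      · rw [h]
        exact x1_nx_symm (hN S' (mem_erase.2 ⟨h', hS'⟩))
    · by_cases h' : S' = A
      · rw [h']
        exact hN S (mem_erase.2 ⟨h, hS⟩)
      · exact hs.2 S (mem_erase.2 ⟨h, hS⟩) S' (mem_erase.2 ⟨h', hS'⟩)

variable {V : Type*} [Fintype V] [DecidableEq V]

/-- Adding one set `S0` to the property `P`. PROOF: `z` a cycle of size `k` of `FL Q`; `a r = z (insert S0 r)` for
`S0 ∉ r`, else `0`: a cycle of size `k - 1` of the link (`bd a r = bd z (insert S0 r)`), `0` if `k = 0`. So `a = bd b`.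
`C s = if S0 ∈ s then b (s.erase S0) else 0` is in `FL Q`, of size `k + 1`; `z + bd C` is `0` on the `s` with `S0 ∈ s` and
`z s + b s` on the others, so it is a cycle of size `k` of `FL P` (`h1`): `z + bd C = bd c`, `z = bd (c + C)`. -/
theorem fl_add (P Q : Finset V → Prop) (S0 : Finset V) (hP : ¬ P S0) (hQ : ∀ S, Q S ↔ P S ∨ S = S0) (k : ℕ)
    (h1 : HC (FL P) k) (h2 : 1 ≤ k → HC (FL fun S => P S ∧ NX S S0) (k - 1)) : HC (FL Q) k := by
  have hPQ : ∀ s, FL P s → FL Q s := fun s hs => ⟨fun S hS => (hQ S).2 (Or.inl (hs.1 S hS)), hs.2⟩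
  have hQP : ∀ s, S0 ∉ s → FL Q s → FL P s := by
    intro s hs h
    refine ⟨fun S hS => ?_, h.2⟩
    rcases (hQ S).1 (h.1 S hS) with h3 | h3
    · exact h3
    · rw [h3] at hS
      exact absurd hS hs
  intro z hz hbz
  by_cases hk : 1 ≤ k
  swap
  · obtain ⟨c, hc, hbc⟩ := h1 z (fun s hs => by
      obtain ⟨h3, h4⟩ := hz s hs
      refine ⟨hQP s ?_ h3, h4⟩
      have h5 : s.card = 0 := by omega
      rw [card_eq_zero.1 h5]
      exact notMem_empty _) hbz
    exact ⟨c, fun s hs => ⟨hPQ s (hc s hs).1, (hc s hs).2⟩, hbc⟩
  · -- the cycle of the link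
    obtain ⟨b, hb, hbb⟩ := h2 hk (fun r => if S0 ∈ r then 0 else z (insert S0 r)) (by
      intro r hr
      by_cases h3 : S0 ∈ r
      · simp [h3] at hr
      · simp only [h3, if_false] at hr
        obtain ⟨h4, h5⟩ := hz _ hr
        rw [card_insert_of_notMem h3] at h5
        refine ⟨⟨fun S hS => ⟨?_, ?_⟩, fun S hS S' hS' => ?_⟩, by omega⟩
        · rcases (hQ S).1 (h4.1 S (mem_insert_of_mem hS)) with h6 | h6
          · exact h6
          · rw [h6] at hS
            exact absurd hS h3
        · exact h4.2 S (mem_insert_of_mem hS) S0 (mem_insert_self _ _)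
        · exact h4.2 S (mem_insert_of_mem hS) S' (mem_insert_of_mem hS')) (by
      intro r
      unfold bd
      by_cases h3 : S0 ∈ r
      · refine sum_eq_zero fun e _ => ?_
        simp only
        rw [if_pos (mem_insert_of_mem h3)]
      · have h4 : insert S0 (insert S0 r)ᶜ = rᶜ := by
          ext e
          simp only [mem_insert, mem_compl, not_or]
          constructor
          · rintro (rfl | h)
            · exact h3
            · exact h.2
          · intro h
            by_cases he : e = S0
            · exact Or.inl he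
            · exact Or.inr ⟨he, h⟩
        rw [← h4, sum_insert (by simp)]
        simp only
        rw [if_pos (mem_insert_self _ _), zero_add, ← hbz (insert S0 r)]
        unfold bd
        refine sum_congr rfl fun e he => ?_
        simp only [mem_compl, mem_insert, not_or] at he
        rw [if_neg, insert_comm]
        simp only [mem_insert, not_or]
        exact ⟨fun h => he.1 h.symm, h3⟩)
    have hb0 : ∀ s, S0 ∈ s → b s = 0 := by
      intro s hs
      by_contra h
      exact hP ((hb s h).1.1 S0 hs).1
    have hC : ∀ s, (if S0 ∈ s then b (s.erase S0) else 0) ≠ 0 → FL Q s ∧ s.card = k + 1 := by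
      intro s hs
      by_cases h3 : S0 ∈ s
      · rw [if_pos h3] at hs
        obtain ⟨h4, h5⟩ := hb _ hs
        rw [card_erase_of_mem h3] at h5
        have h6 : 0 < s.card := card_pos.2 ⟨S0, h3⟩
        refine ⟨x1_fl_insert (A := S0) ⟨fun S hS => (hQ S).2 (Or.inl (h4.1 S hS).1), h4.2⟩
          ((hQ S0).2 (Or.inr rfl)) fun S hS => (h4.1 S hS).2, by omega⟩
      · rw [if_neg h3] at hs
        exact absurd rfl hs
    have hbC : ∀ r, bd (fun s => if S0 ∈ s then b (s.erase S0) else 0) r = if S0 ∈ r then z r else b r := by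
      intro r
      rw [x1_bd_cone]
      by_cases h3 : S0 ∈ r
      · rw [if_pos h3, if_pos h3, hb0 r h3, add_zero, hbb]
        simp only [mem_erase, ne_eq, not_true_eq_false, false_and, if_false]
        rw [insert_erase h3]
      · rw [if_neg h3, if_neg h3]
    obtain ⟨c, hc, hbc⟩ := h1 (fun r => z r + bd (fun s => if S0 ∈ s then b (s.erase S0) else 0) r) (by
      intro r hr
      rw [hbC] at hr
      by_cases h3 : S0 ∈ r
      · rw [if_pos h3, CharTwo.add_self_eq_zero] at hr
        exact absurd rfl hr
      · rw [if_neg h3] at hr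
        by_cases h4 : z r = 0
        · rw [h4, zero_add] at hr
          obtain ⟨h5, h6⟩ := hb r hr
          exact ⟨⟨fun S hS => (h5.1 S hS).1, h5.2⟩, by omega⟩
        · obtain ⟨h5, h6⟩ := hz r h4
          exact ⟨hQP r h3 h5, h6⟩) (by
      intro r
      rw [bd_add, hbz, bd_bd, add_zero])
    refine ⟨fun s => c s + (if S0 ∈ s then b (s.erase S0) else 0), ?_, ?_⟩
    · intro s hs
      by_cases h3 : c s = 0
      · simp only [h3, zero_add] at hs
        exact hC s hs
      · exact ⟨hPQ s (hc s h3).1, (hc s h3).2⟩
    · intro r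
      rw [bd_add, hbc, add_assoc, CharTwo.add_self_eq_zero, add_zero]

/-- A flag complex with an apex `A`. (`H63F`-style cone: see `H96H.ac_cone`.) PROOF: for a cycle `z` put
`c s = if A ∈ s then z (s.erase A) else 0`. -/
theorem fl_cone (P : Finset V → Prop) (A : Finset V) (hA : P A) (h : ∀ S, P S → NX S A) (k : ℕ) : HC (FL P) k := by
  intro z hz hbz
  refine ⟨fun s => if A ∈ s then z (s.erase A) else 0, ?_, ?_⟩
  · intro s hs
    by_cases h3 : A ∈ s
    · simp only [h3, if_true] at hs
      obtain ⟨h4, h5⟩ := hz _ hs
      rw [card_erase_of_mem h3] at h5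
      have h6 : 0 < s.card := card_pos.2 ⟨A, h3⟩
      exact ⟨x1_fl_insert h4 hA fun S hS => h S (h4.1 S hS), by omega⟩
    · simp [h3] at hs
  · intro r
    rw [x1_bd_cone]
    by_cases h3 : A ∈ r
    · rw [if_pos h3, hbz, zero_add]
    · rw [if_neg h3]

end H56V
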