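import Pool.Agent.Lib.H56V.X1

/-! # H56V, chunk X2: adding many vertices with cones as links -/

set_option autoImplicit false

namespace H56V

open Finset H98P H98Z H98M H63F H96H

variable {V : Type*} [Fintype V] [DecidableEq V]

/-- Abstract leaf lemma. `sep` = the splits that separate the leaf from its neighbour, `mv S` = `S` after moving the leaf to
the side of the neighbour. PROOF: by induction on the cardinality of `W`: for every finite set `W` of sets `S` with `P S`,
`sep S`, closed upwards (`S ∈ W`, `P Z`, `sep Z`, `key S < key Z` imply `Z ∈ W`), `HC (FL fun S => (P S ∧ ¬ sep S) ∨ S ∈ W) k`.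
`W = ∅`: `fl_cone` with apex `A`. Otherwise choose `S ∈ W` with the smallest key, `W.erase S` is closed upwards; `fl_add`;
the link of `S` has the apex `mv S` (`fl_cone`; members `Z` of the link satisfy `P Z`, `NX Z S` and, if `sep Z`,
`key S ≤ key Z`, `Z ≠ S`). At the end `W` = all `S` with `P S`, `sep S`. -/
theorem leaf_abs (P sep : Finset V → Prop) (key : Finset V → ℕ) (mv : Finset V → Finset V) (A : Finset V)
    (h1 : ∀ S, P S → sep S → P (mv S) ∧ ¬ sep (mv S) ∧ NX (mv S) S)
    (h2 : ∀ S Z, P S → sep S → P Z → NX Z S → Z ≠ S → (sep Z → key S ≤ key Z) → NX Z (mv S))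
    (hA : P A ∧ ¬ sep A) (h3 : ∀ Z, P Z → ¬ sep Z → NX Z A) (k : ℕ) : HC (FL P) k := by
  classical
  have key1 : ∀ (m : ℕ) (W : Finset (Finset V)), W.card = m → (∀ S ∈ W, P S ∧ sep S) →
      (∀ S ∈ W, ∀ Z, P Z → sep Z → key S < key Z → Z ∈ W) →
      HC (FL fun S => (P S ∧ ¬ sep S) ∨ S ∈ W) k := by
    intro m
    induction m with
    | zero =>
      intro W hW _ _
      rw [card_eq_zero] at hW
      subst hW
      refine fl_cone _ A (Or.inl hA) (fun S hS => ?_) k
      rcases hS with hS | hS
      · exact h3 S hS.1 hS.2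
      · exact absurd hS (notMem_empty _)
    | succ m ih =>
      intro W hW hWP hup
      have hne : W.Nonempty := by
        rw [← card_pos]
        omega
      obtain ⟨S0, hS0, hmin⟩ := exists_min_image W key hne
      have hIH := ih (W.erase S0) (by rw [card_erase_of_mem hS0]; omega)
        (fun S hS => hWP S (mem_of_mem_erase hS)) (fun S hS Z hZ hsZ hlt => by
          refine mem_erase.2 ⟨?_, hup S (mem_of_mem_erase hS) Z hZ hsZ hlt⟩
          rintro rfl
          have := hmin S (mem_of_mem_erase hS)
          omega)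
      obtain ⟨p0, s0⟩ := hWP S0 hS0
      obtain ⟨q1, q2, q3⟩ := h1 S0 p0 s0
      refine fl_add (fun S => (P S ∧ ¬ sep S) ∨ S ∈ W.erase S0) _ S0 ?_ ?_ k hIH ?_
      · rintro (h | h)
        · exact h.2 s0
        · exact (mem_erase.1 h).1 rfl
      · intro S
        constructor
        · rintro (h | h)
          · exact Or.inl (Or.inl h)
          · by_cases hS : S = S0
            · exact Or.inr hS
            · exact Or.inl (Or.inr (mem_erase.2 ⟨hS, h⟩))
        · rintro ((h | h) | h)
          · exact Or.inl h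
          · exact Or.inr (mem_of_mem_erase h)
          · rw [h]
            exact Or.inr hS0
      · intro _
        refine fl_cone _ (mv S0) ⟨Or.inl ⟨q1, q2⟩, q3⟩ (fun Z hZ => ?_) (k - 1)
        obtain ⟨hZ1, hZ2⟩ := hZ
        rcases hZ1 with h | h
        · refine h2 S0 Z p0 s0 h.1 hZ2 ?_ (fun hs => absurd hs h.2)
          rintro rfl
          exact h.2 s0
        · obtain ⟨h4, h5⟩ := mem_erase.1 h
          exact h2 S0 Z p0 s0 (hWP Z h5).1 hZ2 h4 (fun _ => hmin Z h5)
  have hfin := key1 _ (univ.filter fun S => P S ∧ sep S) rfl (fun S hS => (mem_filter.1 hS).2)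
    (fun S _ Z hZ hsZ _ => mem_filter.2 ⟨mem_univ _, hZ, hsZ⟩)
  have heq : (fun S => (P S ∧ ¬ sep S) ∨ S ∈ univ.filter fun S => P S ∧ sep S) = P := by
    funext S
    apply propext
    constructor
    · rintro (h | h)
      · exact h.1
      · exact (mem_filter.1 h).2.1
    · intro h
      by_cases hs : sep S
      · exact Or.inr (mem_filter.2 ⟨mem_univ _, h, hs⟩)
      · exact Or.inl ⟨h, hs⟩
  rw [heq] at hfin
  exact hfin

/-- Adding sets whose links have the apex `A`. PROOF: induction on the set `W ⊆ {S | Q S ∧ ¬ P S}`: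
`HC (FL fun S => P S ∨ S ∈ W) k`; in each step `fl_add`, the link of the new `S` has the apex `A` (`fl_cone`: `NX A S` and
every `Z` with `Q Z`, `NX Z S` satisfies `NX Z A`). -/
theorem add_abs (P Q : Finset V → Prop) (A : Finset V) (hPQ : ∀ S, P S → Q S) (hA : P A)
    (h1 : ∀ S, Q S → ¬ P S → NX A S) (h2 : ∀ S Z, Q S → ¬ P S → Q Z → NX Z S → NX Z A) (k : ℕ) (h : HC (FL P) k) :
    HC (FL Q) k := by
  classical
  have key1 : ∀ W : Finset (Finset V), (∀ S ∈ W, Q S ∧ ¬ P S) → HC (FL fun S => P S ∨ S ∈ W) k := by
    intro W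
    induction W using Finset.induction_on with
    | empty =>
      intro _
      have heq : (fun S : Finset V => P S ∨ S ∈ (∅ : Finset (Finset V))) = P := by
        funext S
        simp
      rw [heq]
      exact h
    | insert S0 W hS0 ih =>
      intro hW
      have hIH := ih fun S hS => hW S (mem_insert_of_mem hS)
      obtain ⟨q0, p0⟩ := hW S0 (mem_insert_self _ _)
      refine fl_add (fun S => P S ∨ S ∈ W) _ S0 ?_ ?_ k hIH ?_
      · rintro (h | h)
        · exact p0 h
        · exact hS0 h
      · intro S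
        rw [mem_insert]
        tauto
      · intro _
        refine fl_cone _ A ⟨Or.inl hA, h1 S0 q0 p0⟩ (fun Z hZ => ?_) (k - 1)
        obtain ⟨hZ1, hZ2⟩ := hZ
        refine h2 S0 Z q0 p0 ?_ hZ2
        rcases hZ1 with h | h
        · exact hPQ Z h
        · exact (hW Z (mem_insert_of_mem h)).1
  have hfin := key1 (univ.filter fun S => Q S ∧ ¬ P S) (fun S hS => (mem_filter.1 hS).2)
  have heq : (fun S => P S ∨ S ∈ univ.filter fun S => Q S ∧ ¬ P S) = Q := by
    funext S
    apply propext
    constructor
    · rintro (h | h)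
      · exact hPQ S h
      · exact (mem_filter.1 h).2.1
    · intro h
      by_cases hs : P S
      · exact Or.inl hs
      · exact Or.inr (mem_filter.2 ⟨mem_univ _, h, hs⟩)
  rw [heq] at hfin
  exact hfin

end H56V
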