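import Pool.Agent.Lib.H56V.X2

/-! # H56V, chunk X3: leaves -/

set_option autoImplicit false

namespace H56V

open Finset H98P H98Z H98M H63F H96H

variable {V : Type*} [Fintype V] [DecidableEq V]

/-- `b` is a leaf at `a`, both not in `R`. PROOF: `leaf_abs` with `P = TP R G`, `sep S` = exactly one of `a`, `b` is in `S`,
`key S = if b ∈ S then S.card else Fintype.card V - S.card`, `mv S = if b ∈ S then S.erase b else insert b S`, apex
`{a, b}` (`star a` gives an edge that avoids `a`, hence also `b`, for the outside of `{a, b}`; inside: the edge `s(a, b)`).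
`P (mv S)`: no edge at `b` lies inside `S` or inside the complement of `S`. `h2`, `b ∈ S`: `Z ⊆ S` with `b ∈ Z` has a
smaller key. `h2`, `a ∈ S`: `Z ⊇ S` with `b ∉ Z` has a smaller key (`Z ≠ S`); `Z` disjoint from `S` with `b ∈ Z` has
`Z.card < Fintype.card V - S.card` as `Z` is disjoint from `S ∪ R` and `R ≠ ∅`. -/
theorem leaf1 {R : Finset V} {G : Finset (Sym2 V)} (h : Cls R G) {a b : V} (ha : a ∉ R) (hb : b ∉ R)
    (hl : ∀ w, s(b, w) ∈ G → w = a) (k : ℕ) : HC (FL (TP R G)) k := by
  have hl' : ∀ w, s(w, b) ∈ G → w = a := fun w hw => hl w (by rwa [Sym2.eq_swap])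
  have hba : s(b, a) ∈ G := by
    obtain ⟨w, hw⟩ := h.iso b hb
    rwa [hl w hw] at hw
  have hne : a ≠ b := by
    rintro rfl
    exact h.loop a hba
  refine leaf_abs (TP R G) (fun S => (a ∈ S ∧ b ∉ S) ∨ (a ∉ S ∧ b ∈ S))
    (fun S => if b ∈ S then S.card else Fintype.card V - S.card)
    (fun S => if b ∈ S then S.erase b else insert b S) {a, b} ?_ ?_ ?_ ?_ k
  · rintro S ⟨hd, ⟨u, hu, w, hw, huw⟩, u', hu', huR, w', hw', huw'⟩ hsep
    rcases hsep with ⟨haS, hbS⟩ | ⟨haS, hbS⟩
    · simp only [if_neg hbS]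
      refine ⟨⟨?_, ⟨u, mem_insert_of_mem hu, w, mem_insert_of_mem hw, huw⟩, u', ?_, huR, w', ?_, huw'⟩, ?_, ?_⟩
      · rw [disjoint_insert_left]
        exact ⟨hb, hd⟩
      · rw [mem_insert, not_or]
        refine ⟨?_, hu'⟩
        rintro rfl
        rw [hl w' huw'] at hw'
        exact hw' haS
      · rw [mem_insert, not_or]
        refine ⟨?_, hw'⟩
        rintro rfl
        rw [hl' u' huw'] at hu'
        exact hu' haS
      · rintro (⟨_, h2⟩ | ⟨h1, _⟩)
        · exact h2 (mem_insert_self _ _)
        · exact h1 (mem_insert_of_mem haS)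
      · exact Or.inr (Or.inr (subset_insert _ _))
    · simp only [if_pos hbS]
      refine ⟨⟨?_, ⟨u, ?_, w, ?_, huw⟩, u', ?_, huR, w', ?_, huw'⟩, ?_, ?_⟩
      · exact disjoint_of_subset_left (erase_subset _ _) hd
      · refine mem_erase.2 ⟨?_, hu⟩
        rintro rfl
        rw [hl w huw] at hw
        exact haS hw
      · refine mem_erase.2 ⟨?_, hw⟩
        rintro rfl
        rw [hl' u huw] at hu
        exact haS hu
      · exact fun h1 => hu' (mem_of_mem_erase h1)
      · exact fun h1 => hw' (mem_of_mem_erase h1)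
      · rintro (⟨h1, _⟩ | ⟨_, h2⟩)
        · exact haS (mem_of_mem_erase h1)
        · exact (mem_erase.1 h2).1 rfl
      · exact Or.inr (Or.inl (erase_subset _ _))
  · intro S Z hS hsep hZ hnx hZS hkey
    rcases hsep with ⟨haS, hbS⟩ | ⟨haS, hbS⟩
    · simp only [if_neg hbS] at hkey ⊢
      rcases hnx with h1 | h1 | h1
      · by_cases hbZ : b ∈ Z
        · exfalso
          have haZ : a ∉ Z := fun h2 => disjoint_left.1 h1 h2 haS
          have h3 := hkey (Or.inr ⟨haZ, hbZ⟩)
          rw [if_pos hbZ] at h3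
          have h4 : (Z ∪ S ∪ R).card ≤ Fintype.card V := card_le_univ _
          have h5 : Disjoint (Z ∪ S) R := by
            rw [disjoint_union_left]
            exact ⟨hZ.1, hS.1⟩
          rw [card_union_of_disjoint h5, card_union_of_disjoint h1] at h4
          have h6 := card_pos.2 h.ne
          omega
        · refine Or.inl ?_
          rw [disjoint_insert_right]
          exact ⟨hbZ, h1⟩
      · exact Or.inr (Or.inl (h1.trans (subset_insert _ _)))
      · by_cases hbZ : b ∈ Z
        · exact Or.inr (Or.inr (insert_subset hbZ h1))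
        · exfalso
          have h3 := hkey (Or.inl ⟨h1 haS, hbZ⟩)
          rw [if_neg hbZ] at h3
          have h4 : S.card < Z.card := card_lt_card ((Finset.ssubset_iff_subset_ne).2 ⟨h1, hZS.symm⟩)
          have h5 : Z.card ≤ Fintype.card V := card_le_univ _
          omega
    · simp only [if_pos hbS] at hkey ⊢
      rcases hnx with h1 | h1 | h1
      · exact Or.inl (disjoint_of_subset_right (erase_subset _ _) h1)
      · by_cases hbZ : b ∈ Z
        · exfalso
          have h3 := hkey (Or.inr ⟨fun h2 => haS (h1 h2), hbZ⟩)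
          rw [if_pos hbZ] at h3
          exact hZS (eq_of_subset_of_card_le h1 h3)
        · refine Or.inr (Or.inl fun x hx => mem_erase.2 ⟨?_, h1 hx⟩)
          rintro rfl
          exact hbZ hx
      · exact Or.inr (Or.inr ((erase_subset _ _).trans h1))
  · refine ⟨⟨?_, ⟨b, ?_, a, ?_, hba⟩, ?_⟩, ?_⟩
    · rw [disjoint_insert_left, disjoint_singleton_left]
      exact ⟨ha, hb⟩
    · exact mem_insert_of_mem (mem_singleton_self _)
    · exact mem_insert_self _ _
    · obtain ⟨u, huR, hua, w, hwa, huw⟩ := h.star a ha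
      refine ⟨u, ?_, huR, w, ?_, huw⟩
      · rw [mem_insert, mem_singleton, not_or]
        refine ⟨hua, ?_⟩
        rintro rfl
        exact hwa (hl w huw)
      · rw [mem_insert, mem_singleton, not_or]
        refine ⟨hwa, ?_⟩
        rintro rfl
        exact hua (hl' u huw)
    · rintro (⟨_, h2⟩ | ⟨h1, _⟩)
      · exact h2 (mem_insert_of_mem (mem_singleton_self _))
      · exact h1 (mem_insert_self _ _)
  · intro Z _ hsep
    by_cases haZ : a ∈ Z
    · have hbZ : b ∈ Z := by
        by_contra hbZ
        exact hsep (Or.inl ⟨haZ, hbZ⟩)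
      exact Or.inr (Or.inr (insert_subset haZ (singleton_subset_iff.2 hbZ)))
    · have hbZ : b ∉ Z := fun hbZ => hsep (Or.inr ⟨haZ, hbZ⟩)
      refine Or.inl ?_
      rw [disjoint_insert_right, disjoint_singleton_right]
      exact ⟨haZ, hbZ⟩

end H56V
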