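import Pool.Agent.Lib.H56V.X2

/-! # H56V, chunk X5: deletion and contraction of a root edge -/

set_option autoImplicit false

namespace H56V

open Finset H98P H98Z H98M H63F H96H

variable {V : Type*} [Fintype V] [DecidableEq V]

open Classical in
/-- Delete the edges between `b` and `R`. -/
noncomputable def del (R : Finset V) (G : Finset (Sym2 V)) (b : V) : Finset (Sym2 V) :=
  G.filter fun e => ¬ ∃ w ∈ R, e = s(b, w)

omit [Fintype V] in
private theorem x5_mem {R : Finset V} {G : Finset (Sym2 V)} {b : V} {e : Sym2 V} :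
    e ∈ del R G b ↔ e ∈ G ∧ ¬ ∃ w ∈ R, e = s(b, w) := by
  unfold del
  rw [mem_filter]

omit [Fintype V] in
private theorem x5_keep {R : Finset V} {G : Finset (Sym2 V)} {b u w : V} (h : s(u, w) ∈ G) (hu : u ∉ R) (hub : u ≠ b) :
    s(u, w) ∈ del R G b := by
  rw [x5_mem]
  refine ⟨h, ?_⟩
  rintro ⟨w', hw', he⟩
  rcases Sym2.eq_iff.1 he with ⟨h1, -⟩ | ⟨h1, -⟩
  · exact hub h1
  · exact hu (h1 ▸ hw')

omit [Fintype V] in
private theorem x5_keep2 {R : Finset V} {G : Finset (Sym2 V)} {b u w : V} (h : s(u, w) ∈ G) (hu : u ∉ R)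
    (hw : w ∉ R) : s(u, w) ∈ del R G b := by
  rw [x5_mem]
  refine ⟨h, ?_⟩
  rintro ⟨w', hw', he⟩
  rcases Sym2.eq_iff.1 he with ⟨-, h1⟩ | ⟨h1, -⟩
  · exact hw (h1 ▸ hw')
  · exact hu (h1 ▸ hw')

omit [Fintype V] in
private theorem x5_mono {R : Finset V} {G : Finset (Sym2 V)} {b : V} {S : Finset V} (h : TP R (del R G b) S) :
    TP R G S := by
  obtain ⟨h1, ⟨u, hu, w, hw, h2⟩, u', hu', hu'', w', hw', h3⟩ := h
  exact ⟨h1, ⟨u, hu, w, hw, (x5_mem.1 h2).1⟩, u', hu', hu'', w', hw', (x5_mem.1 h3).1⟩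

omit [Fintype V] in
/-- A split of `G` which is not one of the deleted graph: no outer edge survives. -/
private theorem x5_gone {R : Finset V} {G : Finset (Sym2 V)} {b : V} {S : Finset V} (h : TP R G S)
    (hn : ¬ TP R (del R G b) S) : ∀ u w, u ∉ S → u ∉ R → w ∉ S → s(u, w) ∈ G → u = b := by
  obtain ⟨h1, ⟨u, hu, w, hw, h2⟩, -⟩ := h
  intro u' w' hu' hR hw' h3
  by_contra hb
  refine hn ⟨h1, ⟨u, hu, w, hw, x5_keep2 h2 (disjoint_left.1 h1 hu) (disjoint_left.1 h1 hw)⟩, u', hu', hR, w', hw',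
    x5_keep h3 hR hb⟩

/-- PROOF: `S0 = univ \ (insert b R)`. First `fl_add` (`P = TP R (del R G b)`, `Q = (P or = S0)`): `¬ P S0`; the link of
`S0` is `FL (TP (insert b R) G)`: for `P S` one has `NX S S0 ↔ b ∉ S` and `P S ∧ b ∉ S ↔ TP (insert b R) G S` (an edge
outside `S` which is not between `b` and `R` and not inside `R` has an end outside `insert b R`). Then `add_abs`
(`Q = TP R G`, apex `S0`; `TP R G S0` by `he` and `hb'`): for `S` with `TP R G S`, not `TP R (del R G b) S`: all edges of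
`G` outside `S`, not inside `R`, are between `b` and `R`; `b ∉ S`. If `NX Z S`, `TP R G Z`: `Z ⊆ S`: `b ∉ Z`; `S ⊆ Z`: the
edge outside `Z` is one between `b` and `R`, so `b ∉ Z`; `Z` disjoint from `S`: impossible, the edge inside `Z` lies
outside `S` and has both ends outside `R`. So `Z ⊆ S0`. -/
theorem delcon {R : Finset V} {G : Finset (Sym2 V)} (hG : ∀ v, s(v, v) ∉ G) {b : V} (hb : b ∉ R)
    (hb' : ∃ w ∈ R, s(b, w) ∈ G) (he : ∃ u, u ∉ insert b R ∧ ∃ w, w ∉ insert b R ∧ s(u, w) ∈ G) (k : ℕ)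
    (h1 : HC (FL (TP R (del R G b))) k) (h2 : 1 ≤ k → HC (FL (TP (insert b R) G)) (k - 1)) : HC (FL (TP R G)) k := by
  have hS0 : ∀ v, v ∈ univ \ insert b R ↔ v ≠ b ∧ v ∉ R := by
    intro v
    simp
  have hn0 : ¬ TP R (del R G b) (univ \ insert b R) := by
    rintro ⟨-, -, u, hu, huR, w, hw, h3⟩
    have hub : u = b := by
      by_contra hb1
      exact hu ((hS0 u).2 ⟨hb1, huR⟩)
    subst hub
    by_cases hwR : w ∈ R
    · exact (x5_mem.1 h3).2 ⟨w, hwR, rfl⟩
    · have hwb : w = u := by
        by_contra hb1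
        exact hw ((hS0 w).2 ⟨hb1, hwR⟩)
      subst hwb
      exact hG _ (x5_mem.1 h3).1
  have hlink : (fun S => TP R (del R G b) S ∧ NX S (univ \ insert b R)) = TP (insert b R) G := by
    funext S
    refine propext ⟨?_, ?_⟩
    · rintro ⟨⟨h3, ⟨u, hu, w, hw, h4⟩, u', hu', hu'R, w', hw', h5⟩, h6⟩
      have hbS : b ∉ S := by
        intro hbS
        rcases h6 with h6 | h6 | h6
        · have h7 : ∀ v ∈ S, v = b := by
            intro v hv
            by_contra h8
            exact disjoint_left.1 h6 hv ((hS0 v).2 ⟨h8, disjoint_left.1 h3 hv⟩)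
          have h8 := h7 u hu
          have h9 := h7 w hw
          subst h8
          subst h9
          exact hG _ (x5_mem.1 h4).1
        · exact ((hS0 b).1 (h6 hbS)).1 rfl
        · refine hu' (h6 ((hS0 u').2 ⟨?_, hu'R⟩))
          rintro rfl
          exact hu' hbS
      refine ⟨?_, ⟨u, hu, w, hw, (x5_mem.1 h4).1⟩, ?_⟩
      · rw [disjoint_left]
        intro v hv hv'
        rcases mem_insert.1 hv' with h7 | h7
        · subst h7
          exact hbS hv
        · exact disjoint_left.1 h3 hv h7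
      · by_cases hub : u' = b
        · subst hub
          refine ⟨w', hw', ?_, u', hu', ?_⟩
          · intro h7
            rcases mem_insert.1 h7 with h8 | h8
            · subst h8
              exact hG _ (x5_mem.1 h5).1
            · exact (x5_mem.1 h5).2 ⟨w', h8, rfl⟩
          · rw [Sym2.eq_swap]
            exact (x5_mem.1 h5).1
        · refine ⟨u', hu', ?_, w', hw', (x5_mem.1 h5).1⟩
          intro h7
          rcases mem_insert.1 h7 with h8 | h8
          · exact hub h8
          · exact hu'R h8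
    · rintro ⟨h3, ⟨u, hu, w, hw, h4⟩, u', hu', hu'R, w', hw', h5⟩
      have h3' : ∀ v ∈ S, v ≠ b ∧ v ∉ R := by
        intro v hv
        have := disjoint_left.1 h3 hv
        rw [mem_insert] at this
        push Not at this
        exact this
      rw [mem_insert] at hu'R
      push Not at hu'R
      refine ⟨⟨?_, ⟨u, hu, w, hw, x5_keep h4 (h3' u hu).2 (h3' u hu).1⟩, u', hu', hu'R.2, w', hw',
        x5_keep h5 hu'R.2 hu'R.1⟩, ?_⟩
      · rw [disjoint_left]
        exact fun v hv => (h3' v hv).2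
      · exact Or.inr (Or.inl fun v hv => (hS0 v).2 (h3' v hv))
  have hQ0 : TP R G (univ \ insert b R) := by
    obtain ⟨u, hu, w, hw, h3⟩ := he
    obtain ⟨w', hw', h4⟩ := hb'
    refine ⟨?_, ⟨u, by simpa using hu, w, by simpa using hw, h3⟩, b, by simp, hb, w', ?_, h4⟩
    · rw [disjoint_left]
      exact fun v hv => ((hS0 v).1 hv).2
    · intro h5
      exact ((hS0 w').1 h5).2 hw'
  have hstep : HC (FL fun S => TP R (del R G b) S ∨ S = univ \ insert b R) k := by
    refine fl_add (TP R (del R G b)) _ (univ \ insert b R) hn0 (fun S => Iff.rfl) k h1 ?_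
    intro hk
    rw [hlink]
    exact h2 hk
  have hsub : ∀ S, TP R G S → ¬ (TP R (del R G b) S ∨ S = univ \ insert b R) → b ∉ S ∧ S ⊆ univ \ insert b R := by
    intro S hS hS'
    push Not at hS'
    have hg := x5_gone hS hS'.1
    obtain ⟨h3, -, u, hu, huR, w, hw, h4⟩ := hS
    have hub := hg u w hu huR hw h4
    subst hub
    refine ⟨hu, fun v hv => (hS0 v).2 ⟨?_, disjoint_left.1 h3 hv⟩⟩
    rintro rfl
    exact hu hv
  refine add_abs (fun S => TP R (del R G b) S ∨ S = univ \ insert b R) (TP R G) (univ \ insert b R) ?_ (Or.inr rfl)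
    ?_ ?_ k hstep
  · rintro S (hS | rfl)
    · exact x5_mono hS
    · exact hQ0
  · intro S hS hS'
    exact Or.inr (Or.inr (hsub S hS hS').2)
  · intro S Z hS hS' hZ hZS
    have hb1 := hsub S hS hS'
    push Not at hS'
    have hg := x5_gone hS hS'.1
    have hbZ : b ∉ Z := by
      rcases hZS with h3 | h3 | h3
      · exfalso
        obtain ⟨h4, ⟨u, hu, w, hw, h5⟩, -⟩ := hZ
        have h6 := hg u w (disjoint_left.1 h3 hu) (disjoint_left.1 h4 hu) (disjoint_left.1 h3 hw) h5
        have h7 := hg w u (disjoint_left.1 h3 hw) (disjoint_left.1 h4 hw) (disjoint_left.1 h3 hu)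
          (by rw [Sym2.eq_swap]; exact h5)
        subst h6
        subst h7
        exact hG _ h5
      · exact fun h4 => hb1.1 (h3 h4)
      · obtain ⟨-, -, u, hu, huR, w, hw, h5⟩ := hZ
        have h6 := hg u w (fun h => hu (h3 h)) huR (fun h => hw (h3 h)) h5
        subst h6
        exact hu
    refine Or.inr (Or.inl fun v hv => (hS0 v).2 ⟨?_, disjoint_left.1 hZ.1 hv⟩)
    rintro rfl
    exact hbZ hv

/-- If `V - R - b` is independent, deleting the edges between `b` and `R` changes nothing. PROOF: `FL` of the same property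
(`funext`, `propext`): if `TP R G S`, then the edge inside `S` touches `b`, so `b ∈ S`, so the edge outside `S` does not
touch `b`. -/
theorem delonly {R : Finset V} {G : Finset (Sym2 V)} {b : V} (hb : b ∉ R)
    (he : ¬ ∃ u, u ∉ insert b R ∧ ∃ w, w ∉ insert b R ∧ s(u, w) ∈ G) (k : ℕ)
    (h1 : HC (FL (TP R (del R G b))) k) : HC (FL (TP R G)) k := by
  have hE : TP R (del R G b) = TP R G := by
    funext S
    refine propext ⟨x5_mono, ?_⟩
    rintro ⟨h3, ⟨u, hu, w, hw, h4⟩, u', hu', hu'R, w', hw', h5⟩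
    have hbS : b ∈ S := by
      by_contra hbS
      refine he ⟨u, ?_, w, ?_, h4⟩
      · intro h6
        rcases mem_insert.1 h6 with h7 | h7
        · subst h7
          exact hbS hu
        · exact disjoint_left.1 h3 hu h7
      · intro h6
        rcases mem_insert.1 h6 with h7 | h7
        · subst h7
          exact hbS hw
        · exact disjoint_left.1 h3 hw h7
    refine ⟨h3, ⟨u, hu, w, hw, x5_keep2 h4 (disjoint_left.1 h3 hu) (disjoint_left.1 h3 hw)⟩, u', hu', hu'R, w', hw',
      x5_keep h5 hu'R ?_⟩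
    rintro rfl
    exact hu' hbS
  rw [← hE]
  exact h1

end H56V
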